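import Mathlib
import Pool.Agent.H304R3.MO4

set_option autoImplicit false

namespace Pool.Agent.U236.MO

open Filter Topology Finset Pool.Agent.H304R3.MO

/-- upper bound for the Dirichlet series near `0` -/
theorem upper2 (f : ℕ → ℂ) (s : ℝ) (hs : 0 < s) (hs1 : s ≤ 1) (B : ℝ)
    (hB : ∀ n : ℕ, 1 ≤ n → ‖f n‖ ≤ B / n)
    (h0 : Tendsto (fun N : ℕ => ∑ k ∈ Icc 1 N, f k) atTop (𝓝 0))
    (hS : Summable (fun n : ℕ => ‖∑ k ∈ Icc 1 n, f k‖ / n)) :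
    ‖∑' n, tw f s n‖ ≤ (∑' n : ℕ, ‖∑ k ∈ Icc 1 n, f k‖ / n) * s := by
  have hsumm := tw_summable f s hs hs1 B hB
  set Z : ℝ := ∑' n : ℕ, ‖∑ k ∈ Icc 1 n, f k‖ / n with hZ
  have hpart : ∀ N : ℕ, 1 ≤ N → ‖∑ n ∈ range (N + 1), tw f s n‖ ≤ ‖∑ k ∈ Icc 1 N, f k‖ + Z * s := by
    intro N hN
    have h1 : ∑ n ∈ range (N + 1), tw f s n = ∑ n ∈ Icc 1 N, tw f s n := by
      rw [Finset.range_eq_Ico, Finset.sum_eq_sum_Ico_succ_bot (by omega), tw_zero f s hs, zero_add]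
      rfl
    rw [h1]
    have h2 := abel f (fun n => (((n : ℝ) ^ (-s) : ℝ) : ℂ)) N
    have h3 : ∑ n ∈ Icc 1 N, tw f s n = ∑ n ∈ Icc 1 N, f n * (((n : ℝ) ^ (-s) : ℝ) : ℂ) := rfl
    rw [h3, h2]
    refine (norm_add_le _ _).trans (add_le_add ?_ ?_)
    · rw [norm_mul, Complex.norm_real,
        Real.norm_of_nonneg (Real.rpow_nonneg (Nat.cast_nonneg _) _)]
      have h4 : ((N + 1 : ℕ) : ℝ) ^ (-s) ≤ 1 :=
        Real.rpow_le_one_of_one_le_of_nonpos (by push_cast; linarith [Nat.cast_nonneg (α := ℝ) N])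
          (by linarith)
      exact mul_le_of_le_one_right (norm_nonneg _) h4
    · refine (norm_sum_le _ _).trans ?_
      have h5 : ∀ n ∈ Icc 1 N, ‖(∑ k ∈ Icc 1 n, f k) *
          ((((n : ℝ) ^ (-s) : ℝ) : ℂ) - ((((n + 1 : ℕ) : ℝ) ^ (-s) : ℝ) : ℂ))‖ ≤
            s * (‖∑ k ∈ Icc 1 n, f k‖ / n) := by
        intro n hn
        rw [Finset.mem_Icc] at hn
        obtain ⟨d1, d2⟩ := diff_bound s hs n hn.1
        rw [norm_mul, ← Complex.ofReal_sub, Complex.norm_real, Real.norm_of_nonneg d1]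
        calc ‖∑ k ∈ Icc 1 n, f k‖ * ((n : ℝ) ^ (-s) - ((n + 1 : ℕ) : ℝ) ^ (-s))
            ≤ ‖∑ k ∈ Icc 1 n, f k‖ * (s / n) := mul_le_mul_of_nonneg_left d2 (norm_nonneg _)
          _ = _ := by ring
      refine (Finset.sum_le_sum h5).trans ?_
      rw [← Finset.mul_sum]
      have h6 : ∑ n ∈ Icc 1 N, ‖∑ k ∈ Icc 1 n, f k‖ / n ≤ Z :=
        hS.sum_le_tsum _ (fun n _ => by positivity)
      calc s * ∑ n ∈ Icc 1 N, ‖∑ k ∈ Icc 1 n, f k‖ / n ≤ s * Z :=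
            mul_le_mul_of_nonneg_left h6 hs.le
        _ = _ := by ring
  have hlim : Tendsto (fun N : ℕ => ‖∑ n ∈ range (N + 1), tw f s n‖) atTop
      (𝓝 ‖∑' n, tw f s n‖) := by
    have h := (hsumm.of_norm.hasSum.tendsto_sum_nat).norm
    exact h.comp (tendsto_add_atTop_nat 1)
  have hlim2 : Tendsto (fun N : ℕ => ‖∑ k ∈ Icc 1 N, f k‖ + Z * s) atTop (𝓝 (‖(0 : ℂ)‖ + Z * s)) :=
    h0.norm.add_const _
  rw [norm_zero, zero_add] at hlim2
  refine le_of_tendsto_of_tendsto hlim hlim2 ?_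
  filter_upwards [eventually_ge_atTop 1] with N hN using hpart N hN

theorem core2 (f : ℕ → ℂ) (h1 : f 1 = 1)
    (hmul : ∀ m n : ℕ, 1 ≤ m → 1 ≤ n → Nat.Coprime m n → f (m * n) = f m * f n) (B : ℝ)
    (hB0 : 0 ≤ B) (hB : ∀ n : ℕ, 1 ≤ n → ‖f n‖ ≤ B / n)
    (h0 : Tendsto (fun N : ℕ => ∑ k ∈ Icc 1 N, f k) atTop (𝓝 0))
    (hS : Summable (fun n : ℕ => ‖∑ k ∈ Icc 1 n, f k‖ / n))
    (hloc : ∀ p : ℕ, p.Prime →
      ∃ L : ℂ, L ≠ 0 ∧ Tendsto (fun K : ℕ => ∑ k ∈ range K, f (p ^ k)) atTop (𝓝 L))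
    (θ : ℝ) (hθ0 : 0 ≤ θ) (hθ : θ < 1)
    (E : Set Nat.Primes) (hE : Summable (E.indicator (fun p : Nat.Primes => (1 : ℝ) / (p : ℕ))))
    (hEb : ∀ p : Nat.Primes, p ∉ E → ‖f p‖ ≤ θ / (p : ℕ)) : False := by
  have hL : ∀ p : ℕ, p.Prime → ∑' e : ℕ, f (p ^ e) ≠ 0 := by
    intro p hp
    obtain ⟨L, hL0, hL⟩ := hloc p hp
    have hs := loc_summable f 0 le_rfl B hB p hp 0
    have e : (fun e : ℕ => tw f 0 (p ^ (e + 0))) = fun e : ℕ => f (p ^ e) := by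
      funext e
      unfold tw
      simp
    rw [e] at hs
    rw [tendsto_nhds_unique hs.hasSum.tendsto_sum_nat hL]
    exact hL0
  -- small primes
  obtain ⟨P0, hP0⟩ := exists_nat_gt (4 * B / (1 - θ))
  have hfin : {p : Nat.Primes | (p : ℕ) < P0}.Finite :=
    (Set.finite_Iio P0).preimage Subtype.val_injective.injOn
  set A : Finset Nat.Primes := hfin.toFinset with hA
  have hlarge : ∀ p : Nat.Primes, p ∉ A → 4 * B ≤ (1 - θ) * (p : ℕ) := by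
    intro p hp
    have h2 : ¬ ((p : ℕ) < P0) := fun h => hp (hfin.mem_toFinset.2 h)
    have h3 : (P0 : ℝ) ≤ (p : ℕ) := by exact_mod_cast Nat.le_of_not_lt h2
    rw [div_lt_iff₀ (by linarith)] at hP0
    nlinarith
  set cA : ℝ := ∏ p ∈ A, (‖∑' e : ℕ, f ((p : ℕ) ^ e)‖ / 2) with hcA
  have hcA0 : 0 < cA := Finset.prod_pos fun p _ => by
    have := norm_pos_iff.2 (hL p p.2)
    linarith
  have hevA : ∀ᶠ s : ℝ in 𝓝[>] 0, ∀ p ∈ A, ‖∑' e : ℕ, f ((p : ℕ) ^ e)‖ / 2 ≤ ‖loc f s p‖ := by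
    rw [Filter.eventually_all_finset]
    intro p _
    have h2 := (loc_tendsto f B hB p p.2).norm
    have h3 := norm_pos_iff.2 (hL p p.2)
    exact h2.eventually (eventually_ge_nhds (by linarith))
  set W : ℝ := ∑' p, E.indicator (fun p : Nat.Primes => (1 : ℝ) / (p : ℕ)) p with hW
  set θ' : ℝ := (1 + θ) / 2 with hθ'
  have hθ'1 : θ' < 1 := by rw [hθ']; linarith
  set C0 : ℝ := cA * Real.exp (-(4 * B) * W) with hC0
  have hC0pos : 0 < C0 := by rw [hC0]; positivity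
  set Z : ℝ := ∑' n : ℕ, ‖∑ k ∈ Icc 1 n, f k‖ / n with hZ
  have hmain : ∀ᶠ s : ℝ in 𝓝[>] 0, C0 ≤ Z * ((2 : ℝ) ^ θ' * s ^ (1 - θ')) := by
    have hev1 : ∀ᶠ s : ℝ in 𝓝[>] 0, s ≤ 1 := by
      have : ∀ᶠ s : ℝ in 𝓝 0, s ≤ 1 := eventually_le_nhds (by norm_num)
      exact this.filter_mono nhdsWithin_le_nhds
    filter_upwards [hevA, self_mem_nhdsWithin, hev1] with s hsA hs0 hs1
    have hs : 0 < s := hs0
    have hsumm := tw_summable f s hs hs1 B hB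
    have hprod := EulerProduct.eulerProduct_hasProd (f := tw f s) (tw_one f s h1)
      (fun {m n} h => tw_mul f s hs h1 hmul h) hsumm (tw_zero f s hs)
    have hlow : C0 * (s / 2) ^ θ' ≤ ‖∑' n, tw f s n‖ := by
      have ht := hprod.norm
      refine ge_of_tendsto ht ?_
      filter_upwards [eventually_ge_atTop A] with T hT
      rw [← Finset.prod_sdiff hT, mul_comm (∏ p ∈ T \ A, ‖∑' e, tw f s ((p : ℕ) ^ e)‖)]
      have h2 : cA ≤ ∏ p ∈ A, ‖∑' e, tw f s ((p : ℕ) ^ e)‖ :=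
        Finset.prod_le_prod (fun p _ => by positivity) (fun p hp => hsA p hp)
      have h3 := prod_lower f h1 s hs hs1 B hB0 hB θ hθ0 hθ E hE hEb (T \ A)
        (fun p hp => hlarge p (Finset.mem_sdiff.1 hp).2)
      calc C0 * (s / 2) ^ θ' = cA * (Real.exp (-(4 * B) * W) * (s / 2) ^ θ') := by
            rw [hC0]; ring
        _ ≤ _ := mul_le_mul h2 h3 (by positivity)
            (Finset.prod_nonneg fun p _ => norm_nonneg _)
    have hup := upper2 f s hs hs1 B hB h0 hS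
    have h5 : C0 * (s / 2) ^ θ' ≤ Z * s := hlow.trans hup
    have h6 : 0 < (s / 2) ^ θ' := Real.rpow_pos_of_pos (by linarith) _
    have h7 : Z * ((2 : ℝ) ^ θ' * s ^ (1 - θ')) * (s / 2) ^ θ' = Z * s := by
      rw [Real.div_rpow hs.le (by norm_num), Real.rpow_sub hs, Real.rpow_one]
      have h8 : s ^ θ' ≠ 0 := (Real.rpow_pos_of_pos hs _).ne'
      have h9 : (2 : ℝ) ^ θ' ≠ 0 := (Real.rpow_pos_of_pos (by norm_num) _).ne'
      field_simp
    rw [← h7] at h5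
    exact le_of_mul_le_mul_right h5 h6
  have hlim : Tendsto (fun s : ℝ => Z * ((2 : ℝ) ^ θ' * s ^ (1 - θ'))) (𝓝[>] 0) (𝓝 0) := by
    have h2 : Tendsto (fun s : ℝ => s ^ (1 - θ')) (𝓝[>] 0) (𝓝 0) := by
      have h3 := (Real.continuousAt_rpow_const 0 (1 - θ') (Or.inr (by linarith))).tendsto
      rw [Real.zero_rpow (by linarith)] at h3
      exact h3.mono_left nhdsWithin_le_nhds
    have h4 := (h2.const_mul ((2 : ℝ) ^ θ')).const_mul Z
    simpa using h4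
  have := ge_of_tendsto hlim hmain
  linarith

end Pool.Agent.U236.MO
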