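import Mathlib
import Pool.Agent.U236.MO5

set_option autoImplicit false

namespace Pool.Agent.U236.MO

open Filter Topology Finset Pool.Agent.H304R3.MO

theorem exp_low (y : ℝ) (h0 : 0 ≤ y) (h1 : y ≤ 1 / 2) : Real.exp (-(y + 2 * y ^ 2)) ≤ 1 - y := by
  have h2 : 1 + (y + 2 * y ^ 2) ≤ Real.exp (y + 2 * y ^ 2) := by
    have := Real.add_one_le_exp (y + 2 * y ^ 2)
    linarith
  have h3 : 0 < 1 + (y + 2 * y ^ 2) := by positivity
  rw [Real.exp_neg]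
  refine (inv_anti₀ h3 h2).trans ?_
  rw [inv_le_comm₀ h3 (by linarith), inv_le_iff_one_le_mul₀ (by linarith)]
  nlinarith [mul_nonneg (sq_nonneg y) (by linarith : (0 : ℝ) ≤ 1 - 2 * y)]

theorem loc_low (f : ℕ → ℂ) (h1 : f 1 = 1) (s : ℝ) (hs : 0 ≤ s) (B : ℝ) (hB0 : 0 ≤ B)
    (hB : ∀ n : ℕ, 1 ≤ n → ‖f n‖ ≤ B / n) (p : ℕ) (hp : p.Prime) (hpB : 4 * B ≤ p) :
    Real.exp (-(‖f p‖ * (p : ℝ) ^ (-s)) - (2 * B + 8 * B ^ 2) * (1 / (p : ℝ) ^ 2)) ≤ ‖loc f s p‖ := by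
  obtain ⟨x0, x1, x2⟩ := x_bound s hs p hp
  have hp0 : (0 : ℝ) < p := by exact_mod_cast hp.pos
  have hp1 : (1 : ℝ) ≤ p := by exact_mod_cast hp.one_lt.le
  have ht := loc_tail f s hs B hB0 hB p hp 2
  set q : ℝ := 1 / (p : ℝ) with hq
  have hq0 : 0 < q := by rw [hq]; positivity
  have hBq : B * q ≤ 1 / 4 := by
    rw [hq, mul_one_div, div_le_iff₀ hp0]; linarith
  have ha : ‖f p‖ * (p : ℝ) ^ (-s) ≤ B * q := by
    have h2 : (p : ℝ) ^ (-s) ≤ 1 := Real.rpow_le_one_of_one_le_of_nonpos hp1 (by linarith)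
    have h3 := hB p hp.pos
    calc ‖f p‖ * (p : ℝ) ^ (-s) ≤ ‖f p‖ * 1 := mul_le_mul_of_nonneg_left h2 (norm_nonneg _)
      _ ≤ B / p := by rw [mul_one]; exact h3
      _ = B * q := by rw [hq]; ring
  have ha0 : 0 ≤ ‖f p‖ * (p : ℝ) ^ (-s) := mul_nonneg (norm_nonneg _) (Real.rpow_nonneg hp0.le _)
  have htl : ‖∑' e : ℕ, tw f s (p ^ (e + 2))‖ ≤ 2 * B * q ^ 2 := by
    refine ht.trans (mul_le_mul_of_nonneg_left ?_ (by positivity))
    exact pow_le_pow_left₀ x0.le x1 2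
  set a : ℝ := ‖f p‖ * (p : ℝ) ^ (-s) with hadef
  set y : ℝ := a + 2 * B * q ^ 2 with hy
  have hy0 : 0 ≤ y := by rw [hy]; positivity
  have hyq : 2 * B * q ^ 2 ≤ B * q := by nlinarith [mul_nonneg hB0 hq0.le]
  have hy2 : y ≤ 2 * (B * q) := by rw [hy]; linarith
  have hlow : 1 - y ≤ ‖loc f s p‖ := by
    rw [loc_eq2 f h1 s hs B hB p hp]
    have h2 : ‖tw f s p‖ = a := tw_norm f s p
    have h3 : ‖(1 : ℂ)‖ ≤ ‖1 + tw f s p + ∑' e : ℕ, tw f s (p ^ (e + 2))‖ +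
        (‖tw f s p‖ + ‖∑' e : ℕ, tw f s (p ^ (e + 2))‖) := by
      have h4 : (1 : ℂ) = (1 + tw f s p + ∑' e : ℕ, tw f s (p ^ (e + 2))) -
          (tw f s p + ∑' e : ℕ, tw f s (p ^ (e + 2))) := by ring
      calc ‖(1 : ℂ)‖ = ‖(1 + tw f s p + ∑' e : ℕ, tw f s (p ^ (e + 2))) -
          (tw f s p + ∑' e : ℕ, tw f s (p ^ (e + 2)))‖ := by rw [← h4]
        _ ≤ _ := (norm_sub_le _ _).trans (add_le_add le_rfl (norm_add_le _ _))
    rw [norm_one, h2] at h3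
    rw [hy]
    linarith
  refine le_trans ?_ ((exp_low y hy0 (by linarith)).trans hlow)
  apply Real.exp_le_exp.2
  have hq2 : 1 / (p : ℝ) ^ 2 = q ^ 2 := by rw [hq, one_div_pow]
  rw [hq2]
  have h5 : y ^ 2 ≤ 4 * B ^ 2 * q ^ 2 := by
    calc y ^ 2 ≤ (2 * (B * q)) ^ 2 := pow_le_pow_left₀ hy0 hy2 2
      _ = _ := by ring
  rw [hy] at h5 ⊢
  nlinarith

theorem core3 (f : ℕ → ℂ) (h1 : f 1 = 1)
    (hmul : ∀ m n : ℕ, 1 ≤ m → 1 ≤ n → Nat.Coprime m n → f (m * n) = f m * f n) (B : ℝ)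
    (hB0 : 0 ≤ B) (hB : ∀ n : ℕ, 1 ≤ n → ‖f n‖ ≤ B / n)
    (h0 : Tendsto (fun N : ℕ => ∑ k ∈ Icc 1 N, f k) atTop (𝓝 0))
    (hS : Summable (fun n : ℕ => ‖∑ k ∈ Icc 1 n, f k‖ / n))
    (hloc : ∀ p : ℕ, p.Prime →
      ∃ L : ℂ, L ≠ 0 ∧ Tendsto (fun K : ℕ => ∑ k ∈ range K, f (p ^ k)) atTop (𝓝 L))
    (θ C : ℝ) (hθ : θ < 1)
    (hsum : ∀ s : ℝ, 0 < s → s ≤ 1 →
      ∑' p : Nat.Primes, ‖f p‖ * ((p : ℕ) : ℝ) ^ (-s) ≤ θ * Real.log (1 / s) + C) : False := by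
  have hL : ∀ p : ℕ, p.Prime → ∑' e : ℕ, f (p ^ e) ≠ 0 := by
    intro p hp
    obtain ⟨L, hL0, hL⟩ := hloc p hp
    have hs := loc_summable f 0 le_rfl B hB p hp 0
    have e : (fun e : ℕ => tw f 0 (p ^ (e + 0))) = fun e : ℕ => f (p ^ e) := by
      funext e
      unfold tw
      simp
    rw [e] at hs
    rw [tendsto_nhds_unique hs.hasSum.tendsto_sum_nat hL]
    exact hL0
  -- small primes
  obtain ⟨P0, hP0⟩ := exists_nat_gt (4 * B)
  have hfin : {p : Nat.Primes | (p : ℕ) < P0}.Finite :=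
    (Set.finite_Iio P0).preimage Subtype.val_injective.injOn
  set A : Finset Nat.Primes := hfin.toFinset with hA
  have hlarge : ∀ p : Nat.Primes, p ∉ A → 4 * B ≤ (p : ℕ) := by
    intro p hp
    have h2 : ¬ ((p : ℕ) < P0) := fun h => hp (hfin.mem_toFinset.2 h)
    have h3 : (P0 : ℝ) ≤ (p : ℕ) := by exact_mod_cast Nat.le_of_not_lt h2
    linarith
  set cA : ℝ := ∏ p ∈ A, (‖∑' e : ℕ, f ((p : ℕ) ^ e)‖ / 2) with hcA
  have hcA0 : 0 < cA := Finset.prod_pos fun p _ => by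
    have := norm_pos_iff.2 (hL p p.2)
    linarith
  have hevA : ∀ᶠ s : ℝ in 𝓝[>] 0, ∀ p ∈ A, ‖∑' e : ℕ, f ((p : ℕ) ^ e)‖ / 2 ≤ ‖loc f s p‖ := by
    rw [Filter.eventually_all_finset]
    intro p _
    have h2 := (loc_tendsto f B hB p p.2).norm
    have h3 := norm_pos_iff.2 (hL p p.2)
    exact h2.eventually (eventually_ge_nhds (by linarith))
  set D : ℝ := 2 * B + 8 * B ^ 2 with hD
  have hD0 : 0 ≤ D := by rw [hD]; positivity
  have hsq : Summable (fun p : Nat.Primes => 1 / ((p : ℕ) : ℝ) ^ 2) :=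
    (Real.summable_one_div_nat_pow.2 one_lt_two).comp_injective Subtype.val_injective
  set W : ℝ := ∑' p : Nat.Primes, 1 / ((p : ℕ) : ℝ) ^ 2 with hW
  set C0 : ℝ := cA * Real.exp (-C - D * W) with hC0
  have hC0pos : 0 < C0 := by rw [hC0]; positivity
  set Z : ℝ := ∑' n : ℕ, ‖∑ k ∈ Icc 1 n, f k‖ / n with hZ
  have hmain : ∀ᶠ s : ℝ in 𝓝[>] 0, C0 ≤ Z * s ^ (1 - θ) := by
    have hev1 : ∀ᶠ s : ℝ in 𝓝[>] 0, s ≤ 1 := by
      have : ∀ᶠ s : ℝ in 𝓝 0, s ≤ 1 := eventually_le_nhds (by norm_num)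
      exact this.filter_mono nhdsWithin_le_nhds
    filter_upwards [hevA, self_mem_nhdsWithin, hev1] with s hsA hs0 hs1
    have hs : 0 < s := hs0
    have hsumm := tw_summable f s hs hs1 B hB
    have hprod := EulerProduct.eulerProduct_hasProd (f := tw f s) (tw_one f s h1)
      (fun {m n} h => tw_mul f s hs h1 hmul h) hsumm (tw_zero f s hs)
    have hsp : Summable (fun p : Nat.Primes => ‖f p‖ * ((p : ℕ) : ℝ) ^ (-s)) := by
      have h2 := hsumm.comp_injective (i := (fun p : Nat.Primes => (p : ℕ))) Subtype.val_injective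
      exact h2.congr fun p => tw_norm f s p
    have hlow : C0 * s ^ θ ≤ ‖∑' n, tw f s n‖ := by
      have ht := hprod.norm
      refine ge_of_tendsto ht ?_
      filter_upwards [eventually_ge_atTop A] with T hT
      rw [← Finset.prod_sdiff hT, mul_comm (∏ p ∈ T \ A, ‖∑' e, tw f s ((p : ℕ) ^ e)‖)]
      have h2 : cA ≤ ∏ p ∈ A, ‖∑' e, tw f s ((p : ℕ) ^ e)‖ :=
        Finset.prod_le_prod (fun p _ => by positivity) (fun p hp => hsA p hp)
      have h3 : Real.exp (-C - D * W) * s ^ θ ≤ ∏ p ∈ T \ A, ‖∑' e, tw f s ((p : ℕ) ^ e)‖ := by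
        have h4 : ∏ p ∈ T \ A, Real.exp (-(‖f p‖ * ((p : ℕ) : ℝ) ^ (-s)) - D * (1 / ((p : ℕ) : ℝ) ^ 2)) ≤
            ∏ p ∈ T \ A, ‖∑' e, tw f s ((p : ℕ) ^ e)‖ :=
          Finset.prod_le_prod (fun p _ => (Real.exp_pos _).le) fun p hp =>
            loc_low f h1 s hs.le B hB0 hB p p.2 (hlarge p (Finset.mem_sdiff.1 hp).2)
        refine le_trans ?_ h4
        rw [← Real.exp_sum, Finset.sum_sub_distrib, Finset.sum_neg_distrib, ← Finset.mul_sum]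
        have h5 : ∑ p ∈ T \ A, ‖f p‖ * ((p : ℕ) : ℝ) ^ (-s) ≤ θ * Real.log (1 / s) + C :=
          (hsp.sum_le_tsum _ (fun p _ => by positivity)).trans (hsum s hs hs1)
        have h6 : ∑ p ∈ T \ A, 1 / ((p : ℕ) : ℝ) ^ 2 ≤ W :=
          hsq.sum_le_tsum _ (fun p _ => by positivity)
        have h7 := mul_le_mul_of_nonneg_left h6 hD0
        have h8 : Real.exp (-C - D * W) * s ^ θ = Real.exp (-C - D * W - θ * Real.log (1 / s)) := by
          rw [Real.rpow_def_of_pos hs, ← Real.exp_add, one_div, Real.log_inv]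
          congr 1
          ring
        rw [h8]
        apply Real.exp_le_exp.2
        linarith
      calc C0 * s ^ θ = cA * (Real.exp (-C - D * W) * s ^ θ) := by
            rw [hC0]; ring
        _ ≤ _ := mul_le_mul h2 h3 (by positivity)
            (Finset.prod_nonneg fun p _ => norm_nonneg _)
    have hup := upper2 f s hs hs1 B hB h0 hS
    have h5 : C0 * s ^ θ ≤ Z * s := hlow.trans hup
    have h6 : 0 < s ^ θ := Real.rpow_pos_of_pos hs _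
    have h7 : Z * s ^ (1 - θ) * s ^ θ = Z * s := by
      rw [mul_assoc, ← Real.rpow_add hs]
      simp
    rw [← h7] at h5
    exact le_of_mul_le_mul_right h5 h6
  have hlim : Tendsto (fun s : ℝ => Z * s ^ (1 - θ)) (𝓝[>] 0) (𝓝 0) := by
    have h2 : Tendsto (fun s : ℝ => s ^ (1 - θ)) (𝓝[>] 0) (𝓝 0) := by
      have h3 := (Real.continuousAt_rpow_const 0 (1 - θ) (Or.inr (by linarith))).tendsto
      rw [Real.zero_rpow (by linarith)] at h3
      exact h3.mono_left nhdsWithin_le_nhds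
    have h4 := h2.const_mul Z
    simpa using h4
  have := ge_of_tendsto hlim hmain
  linarith

end Pool.Agent.U236.MO
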