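import Mathlib
import Pool.Agent.U236.MO6

set_option autoImplicit false

namespace Pool.Agent.U236.MO

open Filter Topology Finset Pool.Agent.H304R3.MO

theorem half_bound (p : ℕ) (hp : p.Prime) :
    0 < (p : ℝ) ^ (-(1/2) : ℝ) ∧ (p : ℝ) ^ (-(1/2) : ℝ) ≤ 3/4 := by
  have hp2 : (2 : ℝ) ≤ p := by exact_mod_cast hp.two_le
  refine ⟨Real.rpow_pos_of_pos (by linarith) _, ?_⟩
  have h1 : (p : ℝ) ^ (-(1/2) : ℝ) ≤ (2 : ℝ) ^ (-(1/2) : ℝ) :=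
    Real.rpow_le_rpow_of_nonpos (by norm_num) hp2 (by norm_num)
  refine h1.trans ?_
  rw [Real.rpow_neg (by norm_num), ← Real.sqrt_eq_rpow, inv_le_comm₀ (by positivity) (by norm_num)]
  apply Real.le_sqrt_of_sq_le
  norm_num

theorem tw_pow2 (f : ℕ → ℂ) (s : ℝ) (hs : 0 ≤ s) (B : ℝ)
    (hB : ∀ n : ℕ, 1 ≤ n → ‖f n‖ ≤ B * (n : ℝ) ^ (-(1/2) : ℝ)) (p : ℕ) (hp : p.Prime) (e : ℕ) :
    ‖tw f s (p ^ e)‖ ≤ B * ((p : ℝ) ^ (-(1/2) : ℝ)) ^ e := by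
  have hp0 : (0 : ℝ) < p := by exact_mod_cast hp.pos
  have hpe1 : (1 : ℝ) ≤ ((p ^ e : ℕ) : ℝ) := by exact_mod_cast Nat.one_le_pow _ _ hp.pos
  rw [tw_norm]
  have h1 := hB (p ^ e) (Nat.one_le_pow _ _ hp.pos)
  have h2 : ((p ^ e : ℕ) : ℝ) ^ (-s) ≤ 1 := Real.rpow_le_one_of_one_le_of_nonpos hpe1 (by linarith)
  have h3 : ((p ^ e : ℕ) : ℝ) ^ (-(1/2) : ℝ) = ((p : ℝ) ^ (-(1/2) : ℝ)) ^ e := by
    rw [Nat.cast_pow, ← Real.rpow_natCast, ← Real.rpow_natCast, ← Real.rpow_mul hp0.le,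
      ← Real.rpow_mul hp0.le, mul_comm]
  rw [h3] at h1
  calc ‖f (p ^ e)‖ * ((p ^ e : ℕ) : ℝ) ^ (-s) ≤ ‖f (p ^ e)‖ * 1 :=
        mul_le_mul_of_nonneg_left h2 (norm_nonneg _)
    _ ≤ _ := by rw [mul_one]; exact h1

theorem geo2 (B x : ℝ) (hB0 : 0 ≤ B) (hx0 : 0 < x) (hx : x ≤ 3/4) (j : ℕ) :
    Summable (fun e : ℕ => B * x ^ (e + j)) ∧ ∑' e : ℕ, B * x ^ (e + j) ≤ 4 * B * x ^ j := by
  have e1 : (fun e : ℕ => B * x ^ (e + j)) = fun e : ℕ => (B * x ^ j) * x ^ e := by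
    funext e
    rw [pow_add]; ring
  rw [e1]
  have hs := summable_geometric_of_lt_one hx0.le (by linarith : x < 1)
  refine ⟨hs.mul_left _, ?_⟩
  rw [tsum_mul_left, tsum_geometric_of_lt_one hx0.le (by linarith)]
  have h1 : (1 - x)⁻¹ ≤ 4 := by
    rw [inv_le_comm₀ (by linarith) (by norm_num)]; linarith
  calc B * x ^ j * (1 - x)⁻¹ ≤ B * x ^ j * 4 := mul_le_mul_of_nonneg_left h1 (by positivity)
    _ = _ := by ring

theorem loc_sum2 (f : ℕ → ℂ) (s : ℝ) (hs : 0 ≤ s) (B : ℝ) (hB0 : 0 ≤ B)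
    (hB : ∀ n : ℕ, 1 ≤ n → ‖f n‖ ≤ B * (n : ℝ) ^ (-(1/2) : ℝ)) (p : ℕ) (hp : p.Prime) (j : ℕ) :
    Summable (fun e : ℕ => ‖tw f s (p ^ (e + j))‖) ∧
    ∑' e : ℕ, ‖tw f s (p ^ (e + j))‖ ≤ 4 * B * ((p : ℝ) ^ (-(1/2) : ℝ)) ^ j := by
  obtain ⟨x0, x1⟩ := half_bound p hp
  obtain ⟨g1, g2⟩ := geo2 B _ hB0 x0 x1 j
  have hle := fun e : ℕ => tw_pow2 f s hs B hB p hp (e + j)
  have hsum : Summable (fun e : ℕ => ‖tw f s (p ^ (e + j))‖) :=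
    Summable.of_nonneg_of_le (fun _ => norm_nonneg _) hle g1
  exact ⟨hsum, (hsum.tsum_le_tsum hle g1).trans g2⟩

theorem sumP (s : ℝ) (hs : 0 < s) (hs1 : s ≤ 1) (T : Finset Nat.Primes) :
    ∑ p ∈ T, ((p : ℕ) : ℝ) ^ (-(1 + s)) ≤ Real.log (2 / s) := by
  have h1 := euler_fin s hs hs1 T
  have h2 : ∏ p ∈ T, (1 - ((p : ℕ) : ℝ) ^ (-(1 + s))) ≤ Real.exp (-∑ p ∈ T, ((p : ℕ) : ℝ) ^ (-(1 + s))) := by
    rw [← Finset.sum_neg_distrib, Real.exp_sum]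
    refine Finset.prod_le_prod (fun p _ => ?_) (fun p _ => Real.one_sub_le_exp_neg _)
    have h3 : (1 : ℝ) ≤ ((p : ℕ) : ℝ) := by exact_mod_cast p.2.one_lt.le
    have := Real.rpow_le_one_of_one_le_of_nonpos h3 (by linarith : -(1 + s) ≤ 0)
    linarith
  have h4 := Real.log_le_log (by positivity) (h1.trans h2)
  rw [Real.log_exp] at h4
  have h5 : Real.log (2 / s) = -Real.log (s / 2) := by
    rw [← Real.log_inv, inv_div]
  rw [h5]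
  linarith

theorem abs_summable (f : ℕ → ℂ) (h1 : f 1 = 1)
    (hmul : ∀ m n : ℕ, 1 ≤ m → 1 ≤ n → Nat.Coprime m n → f (m * n) = f m * f n) (s : ℝ) (hs : 0 < s)
    (B : ℝ) (hB0 : 0 ≤ B) (hB : ∀ n : ℕ, 1 ≤ n → ‖f n‖ ≤ B * (n : ℝ) ^ (-(1/2) : ℝ)) (M : ℝ)
    (hM : ∀ T : Finset Nat.Primes, ∑ p ∈ T, ∑' e : ℕ, ‖tw f s ((p : ℕ) ^ (e + 1))‖ ≤ M) :
    Summable (fun n => ‖tw f s n‖) := by
  refine summable_of_sum_le (c := Real.exp M) (fun n => norm_nonneg _) fun F => ?_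
  set N : ℕ := F.sup id + 1 with hN
  have hFN : ∀ n ∈ F, n < N := fun n hn => Nat.lt_succ_of_le (Finset.le_sup (f := id) hn)
  set g : ℕ → ℝ := fun n => ‖tw f s n‖ with hg
  have hg1 : g 1 = 1 := by simp [hg, tw_one f s h1]
  have hgm : ∀ {m n : ℕ}, Nat.Coprime m n → g (m * n) = g m * g n := by
    intro m n h
    simp only [hg]
    rw [tw_mul f s hs h1 hmul h, norm_mul]
  have hgs : ∀ {p : ℕ}, p.Prime → Summable (fun e : ℕ => ‖g (p ^ e)‖) := by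
    intro p hp
    have h := (loc_sum2 f s hs.le B hB0 hB p hp 0).1
    simpa [hg] using h
  obtain ⟨-, hk⟩ := EulerProduct.summable_and_hasSum_smoothNumbers_prod_primesBelow_tsum hg1 hgm hgs N
  have hk' : HasSum ((N.smoothNumbers).indicator g) (∏ p ∈ N.primesBelow, ∑' n : ℕ, g (p ^ n)) :=
    hasSum_subtype_iff_indicator.1 hk
  have h3 : ∑ n ∈ F, g n ≤ ∏ p ∈ N.primesBelow, ∑' n : ℕ, g (p ^ n) := by
    refine le_trans (Finset.sum_le_sum fun n hn => ?_)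
      (sum_le_hasSum F (fun n _ => Set.indicator_nonneg (fun _ _ => norm_nonneg _) n) hk')
    rcases Nat.eq_zero_or_pos n with rfl | hn0
    · simp [hg, tw_zero f s hs, Set.indicator]
    · rw [Set.indicator_of_mem (Nat.mem_smoothNumbers_of_lt hn0 (hFN n hn))]
  refine h3.trans ?_
  have h4 : ∏ p ∈ N.primesBelow, ∑' n : ℕ, g (p ^ n) ≤
      ∏ p ∈ N.primesBelow, Real.exp (∑' e : ℕ, g (p ^ (e + 1))) := by
    refine Finset.prod_le_prod (fun p _ => tsum_nonneg fun _ => norm_nonneg _) fun p hp => ?_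
    have hpp : p.Prime := (Nat.mem_primesBelow.1 hp).2
    have h5 : Summable (fun e : ℕ => g (p ^ e)) := by
      have h := (loc_sum2 f s hs.le B hB0 hB p hpp 0).1
      simpa [hg] using h
    rw [h5.tsum_eq_zero_add, pow_zero, hg1, add_comm]
    exact Real.add_one_le_exp _
  refine h4.trans ?_
  rw [← Real.exp_sum]
  apply Real.exp_le_exp.2
  set T : Finset Nat.Primes := N.primesBelow.subtype Nat.Prime with hT
  have h6 := hM T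
  have h7 : ∑ p ∈ T, ∑' e : ℕ, g ((p : ℕ) ^ (e + 1)) = ∑ p ∈ N.primesBelow, ∑' e : ℕ, g (p ^ (e + 1)) := by
    rw [hT]
    refine Finset.sum_subtype_of_mem (fun p : ℕ => ∑' e : ℕ, g (p ^ (e + 1))) fun p hp => ?_
    exact (Nat.mem_primesBelow.1 hp).2
  rw [← h7]
  exact h6

end Pool.Agent.U236.MO
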