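import Mathlib
import Pool.Agent.U236.MO7

set_option autoImplicit false

namespace Pool.Agent.U236.MO

open Filter Topology Finset Pool.Agent.H304R3.MO

theorem upper3 (f : ℕ → ℂ) (s : ℝ) (hs : 0 < s) (hsumm : Summable (fun n => ‖tw f s n‖))
    (h0 : Tendsto (fun N : ℕ => ∑ k ∈ Icc 1 N, f k) atTop (𝓝 0))
    (hS : Summable (fun n : ℕ => ‖∑ k ∈ Icc 1 n, f k‖ / n)) :
    ‖∑' n, tw f s n‖ ≤ (∑' n : ℕ, ‖∑ k ∈ Icc 1 n, f k‖ / n) * s := by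
  set Z : ℝ := ∑' n : ℕ, ‖∑ k ∈ Icc 1 n, f k‖ / n with hZ
  have hpart : ∀ N : ℕ, 1 ≤ N → ‖∑ n ∈ range (N + 1), tw f s n‖ ≤ ‖∑ k ∈ Icc 1 N, f k‖ + Z * s := by
    intro N hN
    have h1 : ∑ n ∈ range (N + 1), tw f s n = ∑ n ∈ Icc 1 N, tw f s n := by
      rw [Finset.range_eq_Ico, Finset.sum_eq_sum_Ico_succ_bot (by omega), tw_zero f s hs, zero_add]
      rfl
    rw [h1]
    have h2 := abel f (fun n => (((n : ℝ) ^ (-s) : ℝ) : ℂ)) N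
    have h3 : ∑ n ∈ Icc 1 N, tw f s n = ∑ n ∈ Icc 1 N, f n * (((n : ℝ) ^ (-s) : ℝ) : ℂ) := rfl
    rw [h3, h2]
    refine (norm_add_le _ _).trans (add_le_add ?_ ?_)
    · rw [norm_mul, Complex.norm_real,
        Real.norm_of_nonneg (Real.rpow_nonneg (Nat.cast_nonneg _) _)]
      have h4 : ((N + 1 : ℕ) : ℝ) ^ (-s) ≤ 1 :=
        Real.rpow_le_one_of_one_le_of_nonpos (by push_cast; linarith [Nat.cast_nonneg (α := ℝ) N])
          (by linarith)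
      exact mul_le_of_le_one_right (norm_nonneg _) h4
    · refine (norm_sum_le _ _).trans ?_
      have h5 : ∀ n ∈ Icc 1 N, ‖(∑ k ∈ Icc 1 n, f k) *
          ((((n : ℝ) ^ (-s) : ℝ) : ℂ) - ((((n + 1 : ℕ) : ℝ) ^ (-s) : ℝ) : ℂ))‖ ≤
            s * (‖∑ k ∈ Icc 1 n, f k‖ / n) := by
        intro n hn
        rw [Finset.mem_Icc] at hn
        obtain ⟨d1, d2⟩ := diff_bound s hs n hn.1
        rw [norm_mul, ← Complex.ofReal_sub, Complex.norm_real, Real.norm_of_nonneg d1]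
        calc ‖∑ k ∈ Icc 1 n, f k‖ * ((n : ℝ) ^ (-s) - ((n + 1 : ℕ) : ℝ) ^ (-s))
            ≤ ‖∑ k ∈ Icc 1 n, f k‖ * (s / n) := mul_le_mul_of_nonneg_left d2 (norm_nonneg _)
          _ = _ := by ring
      refine (Finset.sum_le_sum h5).trans ?_
      rw [← Finset.mul_sum]
      have h6 : ∑ n ∈ Icc 1 N, ‖∑ k ∈ Icc 1 n, f k‖ / n ≤ Z :=
        hS.sum_le_tsum _ (fun n _ => by positivity)
      calc s * ∑ n ∈ Icc 1 N, ‖∑ k ∈ Icc 1 n, f k‖ / n ≤ s * Z :=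
            mul_le_mul_of_nonneg_left h6 hs.le
        _ = _ := by ring
  have hlim : Tendsto (fun N : ℕ => ‖∑ n ∈ range (N + 1), tw f s n‖) atTop
      (𝓝 ‖∑' n, tw f s n‖) := by
    have h := (hsumm.of_norm.hasSum.tendsto_sum_nat).norm
    exact h.comp (tendsto_add_atTop_nat 1)
  have hlim2 : Tendsto (fun N : ℕ => ‖∑ k ∈ Icc 1 N, f k‖ + Z * s) atTop (𝓝 (‖(0 : ℂ)‖ + Z * s)) :=
    h0.norm.add_const _
  rw [norm_zero, zero_add] at hlim2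
  refine le_of_tendsto_of_tendsto hlim hlim2 ?_
  filter_upwards [eventually_ge_atTop 1] with N hN using hpart N hN

theorem loc_tendsto2 (f : ℕ → ℂ) (B : ℝ) (hB0 : 0 ≤ B)
    (hB : ∀ n : ℕ, 1 ≤ n → ‖f n‖ ≤ B * (n : ℝ) ^ (-(1/2) : ℝ)) (p : ℕ)
    (hp : p.Prime) :
    Tendsto (fun s : ℝ => loc f s p) (𝓝[>] 0) (𝓝 (∑' e : ℕ, f (p ^ e))) := by
  unfold loc
  obtain ⟨x0, x1⟩ := half_bound p hp
  have hp0 : (0 : ℝ) < p := by exact_mod_cast hp.pos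
  have hgs := geo2 B _ hB0 x0 x1 0
  simp only [add_zero] at hgs
  refine tendsto_tsum_of_dominated_convergence (bound := fun e : ℕ => B * ((p : ℝ) ^ (-(1/2) : ℝ)) ^ e)
    hgs.1 ?_ ?_
  · intro e
    unfold tw
    have h1 : Tendsto (fun s : ℝ => (((p ^ e : ℕ) : ℝ) ^ (-s) : ℝ)) (𝓝[>] 0) (𝓝 1) := by
      have hpe : (0 : ℝ) < ((p ^ e : ℕ) : ℝ) := by
        push_cast; positivity
      have h2 : Continuous (fun s : ℝ => (((p ^ e : ℕ) : ℝ) ^ (-s) : ℝ)) :=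
        Real.continuous_const_rpow hpe.ne' |>.comp continuous_neg
      have h3 := (h2.tendsto 0).mono_left (nhdsWithin_le_nhds (s := Set.Ioi 0))
      simpa using h3
    have h4 := ((Complex.continuous_ofReal.tendsto 1).comp h1).const_mul (f (p ^ e))
    simpa using h4
  · filter_upwards [self_mem_nhdsWithin] with s hs e
    have hs0 : (0 : ℝ) < s := hs
    exact tw_pow2 f s hs0.le B hB p hp e

theorem sq_bound (f : ℕ → ℂ) (s : ℝ) (hs : 0 ≤ s) (κ : ℝ) (hκ : 0 ≤ κ) (p : ℕ) (hp : p.Prime)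
    (h : ‖f (p ^ 2)‖ ≤ κ * ((p ^ 2 : ℕ) : ℝ) ^ (-(1/2) : ℝ)) :
    ‖tw f s (p ^ 2)‖ ≤ κ * (p : ℝ) ^ (-(1 + s)) := by
  have hp0 : (0 : ℝ) < p := by exact_mod_cast hp.pos
  have hp1 : (1 : ℝ) ≤ p := by exact_mod_cast hp.one_lt.le
  rw [tw_norm]
  have h1 : ((p ^ 2 : ℕ) : ℝ) ^ (-(1/2) : ℝ) = (p : ℝ) ^ (-1 : ℝ) := by
    rw [Nat.cast_pow, ← Real.rpow_natCast, ← Real.rpow_mul hp0.le]
    norm_num
  have h2 : ((p ^ 2 : ℕ) : ℝ) ^ (-s) ≤ (p : ℝ) ^ (-s) := by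
    refine Real.rpow_le_rpow_of_nonpos hp0 ?_ (by linarith)
    push_cast
    nlinarith
  rw [h1] at h
  have h3 : (p : ℝ) ^ (-(1 + s)) = (p : ℝ) ^ (-1 : ℝ) * (p : ℝ) ^ (-s) := by
    rw [← Real.rpow_add hp0]; congr 1; ring
  rw [h3]
  calc ‖f (p ^ 2)‖ * ((p ^ 2 : ℕ) : ℝ) ^ (-s) ≤ (κ * (p : ℝ) ^ (-1 : ℝ)) * (p : ℝ) ^ (-s) :=
        mul_le_mul h h2 (Real.rpow_nonneg (Nat.cast_nonneg _) _) (by positivity)
    _ = _ := by ring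

end Pool.Agent.U236.MO
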