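import Mathlib
import Pool.Agent.U236.MO8

set_option autoImplicit false

namespace Pool.Agent.U236.CMO

open Filter Topology Finset Pool.Agent.H304R3.MO Pool.Agent.U236.MO

theorem f_pow (f : ℕ → ℂ) (h1 : f 1 = 1)
    (hmul : ∀ m n : ℕ, 1 ≤ m → 1 ≤ n → f (m * n) = f m * f n) (p : ℕ) (hp : p.Prime) (e : ℕ) :
    f (p ^ e) = f p ^ e := by
  induction e with
  | zero => simp [h1]
  | succ e ih => rw [pow_succ, hmul _ _ (Nat.one_le_pow _ _ hp.pos) hp.pos, ih, pow_succ]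

theorem tw_pow (f : ℕ → ℂ) (h1 : f 1 = 1)
    (hmul : ∀ m n : ℕ, 1 ≤ m → 1 ≤ n → f (m * n) = f m * f n) (s : ℝ) (p : ℕ) (hp : p.Prime) (e : ℕ) :
    tw f s (p ^ e) = tw f s p ^ e := by
  unfold tw
  have hp0 : (0 : ℝ) < p := by exact_mod_cast hp.pos
  have h3 : ((p ^ e : ℕ) : ℝ) ^ (-s) = ((p : ℝ) ^ (-s)) ^ e := by
    rw [Nat.cast_pow, ← Real.rpow_natCast, ← Real.rpow_natCast, ← Real.rpow_mul hp0.le,
      ← Real.rpow_mul hp0.le, mul_comm]
  rw [f_pow f h1 hmul p hp, h3, mul_pow, Complex.ofReal_pow]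

theorem abs_summable2 (f : ℕ → ℂ) (h1 : f 1 = 1)
    (hmul : ∀ m n : ℕ, 1 ≤ m → 1 ≤ n → Nat.Coprime m n → f (m * n) = f m * f n) (s : ℝ) (hs : 0 < s)
    (M : ℝ) (hl : ∀ p : ℕ, p.Prime → Summable (fun e : ℕ => ‖tw f s (p ^ e)‖))
    (hM : ∀ T : Finset Nat.Primes, ∑ p ∈ T, ∑' e : ℕ, ‖tw f s ((p : ℕ) ^ (e + 1))‖ ≤ M) :
    Summable (fun n => ‖tw f s n‖) := by
  refine summable_of_sum_le (c := Real.exp M) (fun n => norm_nonneg _) fun F => ?_
  set N : ℕ := F.sup id + 1 with hN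
  have hFN : ∀ n ∈ F, n < N := fun n hn => Nat.lt_succ_of_le (Finset.le_sup (f := id) hn)
  set g : ℕ → ℝ := fun n => ‖tw f s n‖ with hg
  have hg1 : g 1 = 1 := by simp [hg, tw_one f s h1]
  have hgm : ∀ {m n : ℕ}, Nat.Coprime m n → g (m * n) = g m * g n := by
    intro m n h
    simp only [hg]
    rw [tw_mul f s hs h1 hmul h, norm_mul]
  have hgs : ∀ {p : ℕ}, p.Prime → Summable (fun e : ℕ => ‖g (p ^ e)‖) := by
    intro p hp
    simpa [hg] using hl p hp
  obtain ⟨-, hk⟩ := EulerProduct.summable_and_hasSum_smoothNumbers_prod_primesBelow_tsum hg1 hgm hgs N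
  have hk' : HasSum ((N.smoothNumbers).indicator g) (∏ p ∈ N.primesBelow, ∑' n : ℕ, g (p ^ n)) :=
    hasSum_subtype_iff_indicator.1 hk
  have h3 : ∑ n ∈ F, g n ≤ ∏ p ∈ N.primesBelow, ∑' n : ℕ, g (p ^ n) := by
    refine le_trans (Finset.sum_le_sum fun n hn => ?_)
      (sum_le_hasSum F (fun n _ => Set.indicator_nonneg (fun _ _ => norm_nonneg _) n) hk')
    rcases Nat.eq_zero_or_pos n with rfl | hn0
    · simp [hg, tw_zero f s hs, Set.indicator]
    · rw [Set.indicator_of_mem (Nat.mem_smoothNumbers_of_lt hn0 (hFN n hn))]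
  refine h3.trans ?_
  have h4 : ∏ p ∈ N.primesBelow, ∑' n : ℕ, g (p ^ n) ≤
      ∏ p ∈ N.primesBelow, Real.exp (∑' e : ℕ, g (p ^ (e + 1))) := by
    refine Finset.prod_le_prod (fun p _ => tsum_nonneg fun _ => norm_nonneg _) fun p hp => ?_
    have hpp : p.Prime := (Nat.mem_primesBelow.1 hp).2
    have h5 : Summable (fun e : ℕ => g (p ^ e)) := hl p hpp
    rw [h5.tsum_eq_zero_add, pow_zero, hg1, add_comm]
    exact Real.add_one_le_exp _
  refine h4.trans ?_
  rw [← Real.exp_sum]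
  apply Real.exp_le_exp.2
  set T : Finset Nat.Primes := N.primesBelow.subtype Nat.Prime with hT
  have h6 := hM T
  have h7 : ∑ p ∈ T, ∑' e : ℕ, g ((p : ℕ) ^ (e + 1)) = ∑ p ∈ N.primesBelow, ∑' e : ℕ, g (p ^ (e + 1)) := by
    rw [hT]
    refine Finset.sum_subtype_of_mem (fun p : ℕ => ∑' e : ℕ, g (p ^ (e + 1))) fun p hp => ?_
    exact (Nat.mem_primesBelow.1 hp).2
  rw [← h7]
  exact h6

theorem cmo (f : ℕ → ℂ) (h1 : f 1 = 1)
    (hmul : ∀ m n : ℕ, 1 ≤ m → 1 ≤ n → f (m * n) = f m * f n)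
    (h0 : Tendsto (fun N : ℕ => ∑ k ∈ Icc 1 N, f k) atTop (𝓝 0))
    (hS : Summable (fun n : ℕ => ‖∑ k ∈ Icc 1 n, f k‖ / n))
    (θ C : ℝ) (hθ : θ < 1)
    (hsum : ∀ s : ℝ, 0 < s → s ≤ 1 → ∀ T : Finset Nat.Primes,
      ∑ p ∈ T, ‖f p‖ * ((p : ℕ) : ℝ) ^ (-s) ≤ θ * Real.log (1 / s) + C) : False := by
  -- values tend to zero
  have hf0 : Tendsto f atTop (𝓝 0) := by
    have h2 := (h0.comp (tendsto_add_atTop_nat 1)).sub h0
    rw [sub_zero] at h2
    have h3 : Tendsto (fun n : ℕ => f (n + 1)) atTop (𝓝 0) := by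
      refine h2.congr fun n => ?_
      simp only [Function.comp]
      rw [Finset.sum_Icc_succ_top (by omega : 1 ≤ n + 1)]
      ring
    exact (tendsto_add_atTop_iff_nat 1).1 h3
  have hlt : ∀ p : ℕ, p.Prime → ‖f p‖ < 1 := by
    intro p hp
    by_contra hge
    push Not at hge
    have h2 : Tendsto (fun e : ℕ => ‖f (p ^ e)‖) atTop (𝓝 0) := by
      have := (hf0.comp (tendsto_pow_atTop_atTop_of_one_lt hp.one_lt)).norm
      simpa using this
    obtain ⟨e, he⟩ := (h2.eventually (eventually_lt_nhds (by norm_num : (0 : ℝ) < 1))).exists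
    rw [f_pow f h1 hmul p hp, norm_pow] at he
    exact absurd he (not_lt.2 (one_le_pow₀ hge))
  obtain ⟨P0, hP0⟩ := eventually_atTop.1 (hf0.norm.eventually (eventually_le_nhds
    (by rw [norm_zero]; norm_num : ‖(0 : ℂ)‖ < 1 / 2)))
  have hfin : {p : Nat.Primes | (p : ℕ) < P0}.Finite :=
    (Set.finite_Iio P0).preimage Subtype.val_injective.injOn
  set A : Finset Nat.Primes := hfin.toFinset with hA
  set K : ℝ := 2 + ∑ p ∈ A, (1 - ‖f p‖)⁻¹ with hK
  have hnn : ∀ p ∈ A, 0 ≤ (1 - ‖f p‖)⁻¹ := fun p _ => by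
    have := hlt p p.2
    exact inv_nonneg.2 (by linarith)
  have hK0 : 0 ≤ K := add_nonneg (by norm_num) (Finset.sum_nonneg hnn)
  have hKp : ∀ p : Nat.Primes, (1 - ‖f p‖)⁻¹ ≤ K := by
    intro p
    by_cases hp : p ∈ A
    · have := Finset.single_le_sum hnn hp
      rw [hK]
      linarith
    · have h2 : P0 ≤ (p : ℕ) := Nat.le_of_not_lt fun h => hp (hfin.mem_toFinset.2 h)
      have h3 := hP0 _ h2
      have h4 : (1 - ‖f p‖)⁻¹ ≤ 2 := by
        rw [inv_le_comm₀ (by linarith) (by norm_num)]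
        linarith
      rw [hK]
      linarith [Finset.sum_nonneg hnn]
  set Z : ℝ := ∑' n : ℕ, ‖∑ k ∈ Icc 1 n, f k‖ / n with hZ
  have hmain : ∀ᶠ s : ℝ in 𝓝[>] 0, Real.exp (-C) ≤ Z * s ^ (1 - θ) := by
    have hev1 : ∀ᶠ s : ℝ in 𝓝[>] 0, s ≤ 1 := by
      have : ∀ᶠ s : ℝ in 𝓝 0, s ≤ 1 := eventually_le_nhds (by norm_num)
      exact this.filter_mono nhdsWithin_le_nhds
    filter_upwards [self_mem_nhdsWithin, hev1] with s hs0 hs1
    have hs : 0 < s := hs0
    have hap : ∀ p : Nat.Primes, ‖tw f s (p : ℕ)‖ ≤ ‖f p‖ := by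
      intro p
      rw [tw_norm]
      have h2 : (1 : ℝ) ≤ ((p : ℕ) : ℝ) := by exact_mod_cast p.2.one_lt.le
      exact mul_le_of_le_one_right (norm_nonneg _)
        (Real.rpow_le_one_of_one_le_of_nonpos h2 (by linarith))
    have hloc : ∀ p : ℕ, p.Prime → Summable (fun e : ℕ => ‖tw f s (p ^ e)‖) := by
      intro p hp
      have h2 : ‖tw f s p‖ < 1 := (hap ⟨p, hp⟩).trans_lt (hlt p hp)
      refine (summable_geometric_of_lt_one (norm_nonneg _) h2).congr fun e => ?_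
      rw [tw_pow f h1 hmul s p hp, norm_pow]
    have hsumm : Summable (fun n => ‖tw f s n‖) := by
      refine abs_summable2 f h1 (fun m n hm hn _ => hmul m n hm hn) s hs
        (K * (θ * Real.log (1 / s) + C)) hloc fun T => ?_
      refine le_trans (Finset.sum_le_sum fun p _ => ?_)
        ((Finset.mul_sum T (fun p : Nat.Primes => ‖f p‖ * ((p : ℕ) : ℝ) ^ (-s)) K).symm.le.trans
          (mul_le_mul_of_nonneg_left (hsum s hs hs1 T) hK0))
      have h2 : ‖tw f s (p : ℕ)‖ < 1 := (hap p).trans_lt (hlt p p.2)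
      have h3 : ∀ e : ℕ, ‖tw f s ((p : ℕ) ^ (e + 1))‖ = ‖tw f s (p : ℕ)‖ * ‖tw f s (p : ℕ)‖ ^ e := by
        intro e
        rw [tw_pow f h1 hmul s p p.2, norm_pow, pow_succ, mul_comm]
      simp_rw [h3]
      rw [tsum_mul_left, tsum_geometric_of_lt_one (norm_nonneg _) h2, ← tw_norm, mul_comm]
      refine mul_le_mul_of_nonneg_right (le_trans ?_ (hKp p)) (norm_nonneg _)
      exact inv_anti₀ (by linarith [hlt p p.2]) (by linarith [hap p])
    have hprod := EulerProduct.eulerProduct_hasProd (f := tw f s) (tw_one f s h1)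
      (fun {m n} h => tw_mul f s hs h1 (fun m n hm hn _ => hmul m n hm hn) h) hsumm (tw_zero f s hs)
    have hlow : Real.exp (-C) * s ^ θ ≤ ‖∑' n, tw f s n‖ := by
      refine ge_of_tendsto hprod.norm (Eventually.of_forall fun T => ?_)
      have h2 : ∀ p ∈ T, Real.exp (-(‖f p‖ * ((p : ℕ) : ℝ) ^ (-s))) ≤ ‖∑' e, tw f s ((p : ℕ) ^ e)‖ := by
        intro p _
        have h2 : ‖tw f s (p : ℕ)‖ < 1 := (hap p).trans_lt (hlt p p.2)
        simp_rw [fun e : ℕ => tw_pow f h1 hmul s p p.2 e]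
        rw [tsum_geometric_of_norm_lt_one h2, norm_inv, ← tw_norm, Real.exp_neg]
        have h5 : 0 < ‖1 - tw f s (p : ℕ)‖ := by
          have := norm_sub_norm_le (1 : ℂ) (tw f s (p : ℕ))
          rw [norm_one] at this
          linarith
        refine inv_anti₀ h5 ((norm_sub_le _ _).trans ?_)
        rw [norm_one, add_comm]
        exact Real.add_one_le_exp _
      refine le_trans ?_ (Finset.prod_le_prod (fun p _ => (Real.exp_pos _).le) h2)
      rw [← Real.exp_sum, Finset.sum_neg_distrib]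
      have h8 : Real.exp (-C) * s ^ θ = Real.exp (-C - θ * Real.log (1 / s)) := by
        rw [Real.rpow_def_of_pos hs, ← Real.exp_add, one_div, Real.log_inv]
        congr 1
        ring
      rw [h8]
      apply Real.exp_le_exp.2
      linarith [hsum s hs hs1 T]
    have hup := upper3 f s hs hsumm h0 hS
    have h5 : Real.exp (-C) * s ^ θ ≤ Z * s := hlow.trans hup
    have h6 : 0 < s ^ θ := Real.rpow_pos_of_pos hs _
    have h7 : Z * s ^ (1 - θ) * s ^ θ = Z * s := by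
      rw [mul_assoc, ← Real.rpow_add hs]
      simp
    rw [← h7] at h5
    exact le_of_mul_le_mul_right h5 h6
  have hlim : Tendsto (fun s : ℝ => Z * s ^ (1 - θ)) (𝓝[>] 0) (𝓝 0) := by
    have h2 : Tendsto (fun s : ℝ => s ^ (1 - θ)) (𝓝[>] 0) (𝓝 0) := by
      have h3 := (Real.continuousAt_rpow_const 0 (1 - θ) (Or.inr (by linarith))).tendsto
      rw [Real.zero_rpow (by linarith)] at h3
      exact h3.mono_left nhdsWithin_le_nhds
    have h4 := h2.const_mul Z
    simpa using h4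
  have := ge_of_tendsto hlim hmain
  linarith [Real.exp_pos (-C)]

end Pool.Agent.U236.CMO
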