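import Mathlib

/-!
# Half moments of the resolvent of a contraction

For a complex contraction `C` and vectors `u, v` the mean of `|⟨v, (1 - ζ C)⁻¹ u⟩| ^ (1/2)` over the
circle `|ζ| = s < 1` is at most `2 √2 (|u| + |v|)`.
-/

set_option autoImplicit false

namespace Pool.Agent.U236.BR

open Matrix Real Complex Metric
open scoped Matrix.Norms.L2Operator InnerProductSpace

noncomputable section

variable {n : ℕ}

/-- the resolvent `(1 - ζ C)⁻¹` -/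
def RR (C : Matrix (Fin n) (Fin n) ℂ) (ζ : ℂ) : Matrix (Fin n) (Fin n) ℂ := (1 - ζ • C)⁻¹

theorem norm_smul_lt {C : Matrix (Fin n) (Fin n) ℂ} (hC : ‖C‖ ≤ 1) {ζ : ℂ} (hζ : ‖ζ‖ < 1) :
    ‖ζ • C‖ < 1 := by
  rw [norm_smul]
  calc ‖ζ‖ * ‖C‖ ≤ ‖ζ‖ * 1 := mul_le_mul_of_nonneg_left hC (norm_nonneg _)
    _ < 1 := by rw [mul_one]; exact hζ

theorem isUnit_one_sub {C : Matrix (Fin n) (Fin n) ℂ} (hC : ‖C‖ ≤ 1) {ζ : ℂ} (hζ : ‖ζ‖ < 1) :
    IsUnit (1 - ζ • C) :=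
  isUnit_one_sub_of_norm_lt_one (norm_smul_lt hC hζ)

theorem det_ne {C : Matrix (Fin n) (Fin n) ℂ} (hC : ‖C‖ ≤ 1) {ζ : ℂ} (hζ : ‖ζ‖ < 1) :
    (1 - ζ • C).det ≠ 0 :=
  ((Matrix.isUnit_iff_isUnit_det _).mp (isUnit_one_sub hC hζ)).ne_zero

theorem RR_mul {C : Matrix (Fin n) (Fin n) ℂ} (hC : ‖C‖ ≤ 1) {ζ : ℂ} (hζ : ‖ζ‖ < 1) :
    RR C ζ * (1 - ζ • C) = 1 :=
  Matrix.nonsing_inv_mul _ ((Matrix.isUnit_iff_isUnit_det _).mp (isUnit_one_sub hC hζ))

theorem mul_RR {C : Matrix (Fin n) (Fin n) ℂ} (hC : ‖C‖ ≤ 1) {ζ : ℂ} (hζ : ‖ζ‖ < 1) :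
    (1 - ζ • C) * RR C ζ = 1 :=
  Matrix.mul_nonsing_inv _ ((Matrix.isUnit_iff_isUnit_det _).mp (isUnit_one_sub hC hζ))

theorem RR_diff {C : Matrix (Fin n) (Fin n) ℂ} (hC : ‖C‖ ≤ 1) {ζ : ℂ} (hζ : ‖ζ‖ < 1) :
    DifferentiableAt ℂ (RR C) ζ := by
  have h1 : RR C = fun z => Ring.inverse (1 - z • C) := by
    funext z
    exact Matrix.nonsing_inv_eq_ringInverse _
  rw [h1]
  have h2 : DifferentiableAt ℂ (fun z : ℂ => (1 : Matrix (Fin n) (Fin n) ℂ) - z • C) ζ := by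
    fun_prop
  exact (differentiableAt_inverse (𝕜 := ℂ) (isUnit_one_sub hC hζ)).comp ζ h2

/-- the operator of a matrix -/
def op (A : Matrix (Fin n) (Fin n) ℂ) : EuclideanSpace ℂ (Fin n) →L[ℂ] EuclideanSpace ℂ (Fin n) :=
  Matrix.toEuclideanCLM (n := Fin n) (𝕜 := ℂ) A

theorem op_one : op (1 : Matrix (Fin n) (Fin n) ℂ) = 1 :=
  map_one (Matrix.toEuclideanCLM (n := Fin n) (𝕜 := ℂ))

theorem op_mul (A B : Matrix (Fin n) (Fin n) ℂ) : op (A * B) = op A * op B :=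
  map_mul (Matrix.toEuclideanCLM (n := Fin n) (𝕜 := ℂ)) A B

theorem op_sub (A B : Matrix (Fin n) (Fin n) ℂ) : op (A - B) = op A - op B :=
  map_sub (Matrix.toEuclideanCLM (n := Fin n) (𝕜 := ℂ)) A B

theorem op_add (A B : Matrix (Fin n) (Fin n) ℂ) : op (A + B) = op A + op B :=
  map_add (Matrix.toEuclideanCLM (n := Fin n) (𝕜 := ℂ)) A B

theorem op_smul (c : ℂ) (A : Matrix (Fin n) (Fin n) ℂ) : op (c • A) = c • op A :=
  map_smul (Matrix.toEuclideanCLM (n := Fin n) (𝕜 := ℂ)) c A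

theorem op_norm_le {A : Matrix (Fin n) (Fin n) ℂ} (x : EuclideanSpace ℂ (Fin n)) :
    ‖op A x‖ ≤ ‖A‖ * ‖x‖ := by
  have h := (op A).le_opNorm x
  have h2 : ‖op A‖ = ‖A‖ := rfl
  rwa [h2] at h

/-- the matrix coefficient -/
def HH (C : Matrix (Fin n) (Fin n) ℂ) (u v : EuclideanSpace ℂ (Fin n)) (ζ : ℂ) : ℂ :=
  inner ℂ v (op (RR C ζ) u)

theorem HH_diff {C : Matrix (Fin n) (Fin n) ℂ} (hC : ‖C‖ ≤ 1) (u v : EuclideanSpace ℂ (Fin n))
    {ζ : ℂ} (hζ : ‖ζ‖ < 1) : DifferentiableAt ℂ (HH C u v) ζ := by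
  let L : Matrix (Fin n) (Fin n) ℂ →ₗ[ℂ] ℂ :=
    { toFun := fun A => inner ℂ v (op A u)
      map_add' := by
        intro A B
        simp [op_add]
      map_smul' := by
        intro c A
        simp [op_smul] }
  have h1 : HH C u v = fun z => (LinearMap.toContinuousLinearMap L) (RR C z) := rfl
  rw [h1]
  exact (LinearMap.toContinuousLinearMap L).differentiableAt.comp ζ (RR_diff hC hζ)

theorem HH_zero (C : Matrix (Fin n) (Fin n) ℂ) (u : EuclideanSpace ℂ (Fin n)) :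
    HH C u u 0 = ((‖u‖ ^ 2 : ℝ) : ℂ) := by
  unfold HH RR
  simp only [zero_smul, sub_zero, inv_one]
  rw [op_one]
  show inner ℂ u u = _
  rw [inner_self_eq_norm_sq_to_K]
  norm_cast

theorem HH_re_pos {C : Matrix (Fin n) (Fin n) ℂ} (hC : ‖C‖ ≤ 1) {u : EuclideanSpace ℂ (Fin n)}
    (hu : u ≠ 0) {ζ : ℂ} (hζ : ‖ζ‖ < 1) : 0 < (HH C u u ζ).re := by
  set y := op (RR C ζ) u with hy
  have h1 : u = y - op (ζ • C) y := by
    have h2 : op ((1 - ζ • C) * RR C ζ) u = u := by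
      rw [mul_RR hC hζ, op_one]; rfl
    rw [op_mul] at h2
    have h3 : op (1 - ζ • C) y = u := h2
    rw [op_sub, op_one] at h3
    exact h3.symm
  have hy0 : y ≠ 0 := by
    intro h
    rw [h, map_zero, sub_zero] at h1
    exact hu h1
  have h4 : HH C u u ζ = inner ℂ y y - inner ℂ (op (ζ • C) y) y := by
    show inner ℂ u y = _
    conv_lhs => rw [h1]
    rw [inner_sub_left]
  rw [h4, Complex.sub_re]
  have h5 : (inner ℂ y y : ℂ).re = ‖y‖ ^ 2 := by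
    rw [inner_self_eq_norm_sq_to_K]
    norm_cast
  have h6 : (inner ℂ (op (ζ • C) y) y : ℂ).re ≤ ‖ζ‖ * ‖y‖ ^ 2 := by
    calc (inner ℂ (op (ζ • C) y) y : ℂ).re ≤ ‖(inner ℂ (op (ζ • C) y) y : ℂ)‖ :=
          Complex.re_le_norm _
      _ ≤ ‖op (ζ • C) y‖ * ‖y‖ := norm_inner_le_norm _ _
      _ ≤ (‖ζ • C‖ * ‖y‖) * ‖y‖ := mul_le_mul_of_nonneg_right (op_norm_le y) (norm_nonneg _)
      _ ≤ (‖ζ‖ * ‖y‖) * ‖y‖ := by
          gcongr
          rw [norm_smul]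
          calc ‖ζ‖ * ‖C‖ ≤ ‖ζ‖ * 1 := mul_le_mul_of_nonneg_left hC (norm_nonneg _)
            _ = ‖ζ‖ := mul_one _
      _ = ‖ζ‖ * ‖y‖ ^ 2 := by ring
  have h7 : 0 < ‖y‖ ^ 2 := by
    have := norm_pos_iff.mpr hy0
    positivity
  rw [h5]
  nlinarith

/-- the square root of the norm is at most `√2` times the real part of the square root -/
theorem sqrt_norm_le {z : ℂ} (hz : 0 < z.re) :
    √‖z‖ ≤ √2 * (z ^ (2⁻¹ : ℂ)).re := by
  rw [Complex.cpow_inv_two_re, ← Real.sqrt_mul (by norm_num)]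
  apply Real.sqrt_le_sqrt
  linarith

theorem mean_sqrt_le {h : ℂ → ℂ} {s : ℝ} (hs0 : 0 < s) (hs : s < 1)
    (hd : ∀ ζ : ℂ, ‖ζ‖ < 1 → DifferentiableAt ℂ h ζ) (hre : ∀ ζ : ℂ, ‖ζ‖ < 1 → 0 < (h ζ).re) :
    Real.circleAverage (fun ζ => √‖h ζ‖) 0 s ≤ √2 * ((h 0) ^ (2⁻¹ : ℂ)).re := by
  have hball : ∀ ζ ∈ closedBall (0 : ℂ) |s|, ‖ζ‖ < 1 := by
    intro ζ hζ
    rw [mem_closedBall_zero_iff, abs_of_pos hs0] at hζ
    linarith
  have hdS : ∀ ζ : ℂ, ‖ζ‖ < 1 → DifferentiableAt ℂ (fun ζ => (h ζ) ^ (2⁻¹ : ℂ)) ζ := by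
    intro ζ hζ
    apply DifferentiableAt.cpow (hd ζ hζ) (differentiableAt_const _)
    exact Or.inl (hre ζ hζ)
  have hcS : ContinuousOn (fun ζ => (h ζ) ^ (2⁻¹ : ℂ)) (closedBall (0 : ℂ) |s|) := fun ζ hζ =>
    (hdS ζ (hball ζ hζ)).continuousAt.continuousWithinAt
  have hch : ContinuousOn h (closedBall (0 : ℂ) |s|) := fun ζ hζ =>
    (hd ζ (hball ζ hζ)).continuousAt.continuousWithinAt
  have hmean : Real.circleAverage (fun ζ => (h ζ) ^ (2⁻¹ : ℂ)) 0 s = (h 0) ^ (2⁻¹ : ℂ) := by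
    apply DiffContOnCl.circleAverage
    apply DifferentiableOn.diffContOnCl
    intro ζ hζ
    have h1 : closure (ball (0 : ℂ) |s|) ⊆ closedBall 0 |s| := closure_ball_subset_closedBall
    exact (hdS ζ (hball ζ (h1 hζ))).differentiableWithinAt
  have hsub : sphere (0 : ℂ) |s| ⊆ closedBall 0 |s| := sphere_subset_closedBall
  have hiS : CircleIntegrable (fun ζ => (h ζ) ^ (2⁻¹ : ℂ)) 0 s :=
    ContinuousOn.circleIntegrable' (hcS.mono hsub)
  have hre1 : Real.circleAverage (fun ζ => ((h ζ) ^ (2⁻¹ : ℂ)).re) 0 s = ((h 0) ^ (2⁻¹ : ℂ)).re := by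
    have h2 := ContinuousLinearMap.circleAverage_comp_comm Complex.reCLM hiS
    rw [hmean] at h2
    exact h2
  calc Real.circleAverage (fun ζ => √‖h ζ‖) 0 s
      ≤ Real.circleAverage (fun ζ => √2 * ((h ζ) ^ (2⁻¹ : ℂ)).re) 0 s := by
        apply Real.circleAverage_mono
        · apply ContinuousOn.circleIntegrable'
          exact (Real.continuous_sqrt.comp_continuousOn hch.norm).mono hsub
        · apply ContinuousOn.circleIntegrable'
          exact ((Complex.continuous_re.comp_continuousOn hcS).mono hsub).const_smul (√2)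
        · intro ζ hζ
          exact sqrt_norm_le (hre ζ (hball ζ (hsub hζ)))
    _ = √2 * ((h 0) ^ (2⁻¹ : ℂ)).re := by
        have h3 := Real.circleAverage_fun_smul (a := √2) (f := fun ζ => ((h ζ) ^ (2⁻¹ : ℂ)).re)
          (c := 0) (R := s)
        simp only [smul_eq_mul] at h3
        rw [h3, hre1]

theorem mean_HH_self {C : Matrix (Fin n) (Fin n) ℂ} (hC : ‖C‖ ≤ 1)
    (u : EuclideanSpace ℂ (Fin n)) {s : ℝ} (hs0 : 0 < s) (hs : s < 1) :
    Real.circleAverage (fun ζ => √‖HH C u u ζ‖) 0 s ≤ √2 * ‖u‖ := by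
  by_cases hu : u = 0
  · subst hu
    have h1 : (fun ζ => √‖HH C 0 0 ζ‖) = fun _ => (0 : ℝ) := by
      funext ζ
      simp [HH]
    rw [h1, norm_zero, mul_zero, Real.circleAverage_const]
  · refine (mean_sqrt_le hs0 hs (fun ζ hζ => HH_diff hC u u hζ)
      (fun ζ hζ => HH_re_pos hC hu hζ)).trans ?_
    rw [HH_zero]
    apply mul_le_mul_of_nonneg_left _ (Real.sqrt_nonneg _)
    rw [Complex.cpow_inv_two_re, Complex.norm_real, Complex.ofReal_re, Real.norm_of_nonneg (by positivity)]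
    have h2 : (‖u‖ ^ 2 + ‖u‖ ^ 2) / 2 = ‖u‖ ^ 2 := by ring
    rw [h2, Real.sqrt_sq (norm_nonneg _)]

theorem HH_cont {C : Matrix (Fin n) (Fin n) ℂ} (hC : ‖C‖ ≤ 1) (u v : EuclideanSpace ℂ (Fin n))
    {s : ℝ} (hs0 : 0 < s) (hs : s < 1) : ContinuousOn (HH C u v) (sphere (0 : ℂ) |s|) := by
  intro ζ hζ
  refine (HH_diff hC u v ?_).continuousAt.continuousWithinAt
  rw [mem_sphere_zero_iff_norm, abs_of_pos hs0] at hζ
  linarith

theorem HH_polar (C : Matrix (Fin n) (Fin n) ℂ) (u v : EuclideanSpace ℂ (Fin n)) (ζ : ℂ) :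
    √‖HH C u v ζ‖ ≤ (√‖HH C (v + u) (v + u) ζ‖ + √‖HH C (v - u) (v - u) ζ‖ +
      √‖HH C (v + I • u) (v + I • u) ζ‖ + √‖HH C (v - I • u) (v - I • u) ζ‖) / 2 := by
  set T := op (RR C ζ)
  have h1 : HH C u v ζ = (HH C (v + u) (v + u) ζ - HH C (v - u) (v - u) ζ -
      I * HH C (v + I • u) (v + I • u) ζ + I * HH C (v - I • u) (v - I • u) ζ) / 4 := by
    simp only [HH, map_add, map_sub, map_smul, inner_add_left, inner_add_right, inner_sub_left,
      inner_sub_right, inner_smul_left, inner_smul_right, Complex.conj_I]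
    ring_nf
    simp only [Complex.I_sq]
    ring
  have h2 : ‖HH C u v ζ‖ ≤ (‖HH C (v + u) (v + u) ζ‖ + ‖HH C (v - u) (v - u) ζ‖ +
      ‖HH C (v + I • u) (v + I • u) ζ‖ + ‖HH C (v - I • u) (v - I • u) ζ‖) / 4 := by
    rw [h1, norm_div, Complex.norm_ofNat]
    apply div_le_div_of_nonneg_right _ (by norm_num)
    refine (norm_add_le _ _).trans ?_
    refine add_le_add ((norm_sub_le _ _).trans (add_le_add (norm_sub_le _ _) ?_)) ?_
    · rw [norm_mul, Complex.norm_I, one_mul]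
    · rw [norm_mul, Complex.norm_I, one_mul]
  refine (Real.sqrt_le_sqrt h2).trans ?_
  have h4 : ∀ x : ℝ, √(x / 4) = √x / 2 := by
    intro x
    rw [Real.sqrt_div' _ (by norm_num), show (4 : ℝ) = 2 ^ 2 by norm_num, Real.sqrt_sq (by norm_num)]
  rw [h4]
  apply div_le_div_of_nonneg_right _ (by norm_num)
  have h5 : ∀ a b : ℝ, 0 ≤ a → 0 ≤ b → √(a + b) ≤ √a + √b := by
    intro a b ha hb
    rw [Real.sqrt_le_left (by positivity)]
    have h6 := Real.sq_sqrt ha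
    have h7 := Real.sq_sqrt hb
    have h8 := Real.sqrt_nonneg a
    have h9 := Real.sqrt_nonneg b
    nlinarith [mul_nonneg h8 h9]
  refine (h5 _ _ (by positivity) (by positivity)).trans (add_le_add ?_ le_rfl)
  refine (h5 _ _ (by positivity) (by positivity)).trans (add_le_add ?_ le_rfl)
  exact h5 _ _ (by positivity) (by positivity)

/-- the half moment of a matrix coefficient of the resolvent -/
theorem mean_HH {C : Matrix (Fin n) (Fin n) ℂ} (hC : ‖C‖ ≤ 1)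
    (u v : EuclideanSpace ℂ (Fin n)) {s : ℝ} (hs0 : 0 < s) (hs : s < 1) :
    Real.circleAverage (fun ζ => √‖HH C u v ζ‖) 0 s ≤ 2 * √2 * (‖u‖ + ‖v‖) := by
  have hi : ∀ a b : EuclideanSpace ℂ (Fin n), CircleIntegrable (fun ζ => √‖HH C a b ζ‖) 0 s := by
    intro a b
    apply ContinuousOn.circleIntegrable'
    exact Real.continuous_sqrt.comp_continuousOn (HH_cont hC a b hs0 hs).norm
  have hn1 : ‖v + u‖ ≤ ‖u‖ + ‖v‖ := by rw [add_comm ‖u‖]; exact norm_add_le _ _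
  have hn2 : ‖v - u‖ ≤ ‖u‖ + ‖v‖ := by rw [add_comm ‖u‖]; exact norm_sub_le _ _
  have hn3 : ‖v + I • u‖ ≤ ‖u‖ + ‖v‖ := by
    rw [add_comm ‖u‖]
    refine (norm_add_le _ _).trans ?_
    rw [norm_smul, Complex.norm_I, one_mul]
  have hn4 : ‖v - I • u‖ ≤ ‖u‖ + ‖v‖ := by
    rw [add_comm ‖u‖]
    refine (norm_sub_le _ _).trans ?_
    rw [norm_smul, Complex.norm_I, one_mul]
  set f1 := fun ζ => √‖HH C (v + u) (v + u) ζ‖ with hf1
  set f2 := fun ζ => √‖HH C (v - u) (v - u) ζ‖ with hf2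
  set f3 := fun ζ => √‖HH C (v + I • u) (v + I • u) ζ‖ with hf3
  set f4 := fun ζ => √‖HH C (v - I • u) (v - I • u) ζ‖ with hf4
  have i1 : CircleIntegrable f1 0 s := hi _ _
  have i2 : CircleIntegrable f2 0 s := hi _ _
  have i3 : CircleIntegrable f3 0 s := hi _ _
  have i4 : CircleIntegrable f4 0 s := hi _ _
  have m1 : Real.circleAverage f1 0 s ≤ √2 * (‖u‖ + ‖v‖) :=
    (mean_HH_self hC _ hs0 hs).trans (mul_le_mul_of_nonneg_left hn1 (Real.sqrt_nonneg _))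
  have m2 : Real.circleAverage f2 0 s ≤ √2 * (‖u‖ + ‖v‖) :=
    (mean_HH_self hC _ hs0 hs).trans (mul_le_mul_of_nonneg_left hn2 (Real.sqrt_nonneg _))
  have m3 : Real.circleAverage f3 0 s ≤ √2 * (‖u‖ + ‖v‖) :=
    (mean_HH_self hC _ hs0 hs).trans (mul_le_mul_of_nonneg_left hn3 (Real.sqrt_nonneg _))
  have m4 : Real.circleAverage f4 0 s ≤ √2 * (‖u‖ + ‖v‖) :=
    (mean_HH_self hC _ hs0 hs).trans (mul_le_mul_of_nonneg_left hn4 (Real.sqrt_nonneg _))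
  have hle : Real.circleAverage (fun ζ => √‖HH C u v ζ‖) 0 s ≤
      Real.circleAverage ((1 / 2 : ℝ) • (((f1 + f2) + f3) + f4)) 0 s := by
    apply Real.circleAverage_mono (hi u v)
    · exact (((i1.add i2).add i3).add i4).const_smul
    · intro ζ _
      have h := HH_polar C u v ζ
      simp only [Pi.smul_apply, Pi.add_apply, smul_eq_mul, hf1, hf2, hf3, hf4]
      linarith
  refine hle.trans ?_
  rw [Real.circleAverage_smul, Real.circleAverage_add ((i1.add i2).add i3) i4,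
    Real.circleAverage_add (i1.add i2) i3, Real.circleAverage_add i1 i2, smul_eq_mul]
  linarith

end

end Pool.Agent.U236.BR
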