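import Mathlib
import Pool.Agent.U236.BR1

/-!
# The determinant of a bounded rank perturbation of a contraction

`det (1 - ζ A) / det (1 - ζ C)` for `rank (A - C) ≤ r`: the mean of `log⁺` over `|ζ| = s < 1`.
-/

set_option autoImplicit false

namespace Pool.Agent.U236.BR

open Matrix Real Complex Metric
open scoped Matrix.Norms.L2Operator InnerProductSpace

noncomputable section

variable {n : ℕ}

theorem op_apply (A : Matrix (Fin n) (Fin n) ℂ) (x : EuclideanSpace ℂ (Fin n)) (i : Fin n) :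
    op A x i = ∑ j, A i j * x j := by
  have h := Matrix.ofLp_toEuclideanCLM A x
  have h2 : (op A x).ofLp i = (A *ᵥ x.ofLp) i := congrFun h i
  exact h2

theorem inner_eq (x y : EuclideanSpace ℂ (Fin n)) :
    (inner ℂ x y : ℂ) = ∑ i, star (x i) * y i := by
  rw [PiLp.inner_apply]
  refine Finset.sum_congr rfl fun i _ => ?_
  rw [RCLike.inner_apply, mul_comm]
  rfl

theorem entry {k : ℕ} (w : Fin k → EuclideanSpace ℂ (Fin n)) (M : Matrix (Fin n) (Fin n) ℂ)
    (i j : Fin k) :
    ((Matrix.of fun (l : Fin n) (j : Fin k) => (w j) l)ᴴ * M *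
      (Matrix.of fun (l : Fin n) (j : Fin k) => (w j) l)) i j = inner ℂ (w i) (op M (w j)) := by
  rw [inner_eq, Matrix.mul_assoc, Matrix.mul_apply]
  refine Finset.sum_congr rfl fun l _ => ?_
  rw [op_apply, Matrix.mul_apply]
  rfl

theorem op_adj (B : Matrix (Fin n) (Fin n) ℂ) (x y : EuclideanSpace ℂ (Fin n)) :
    (inner ℂ x (op B y) : ℂ) = inner ℂ (op Bᴴ x) y := by
  rw [inner_eq, inner_eq]
  simp only [op_apply]
  simp only [star_sum, Finset.sum_mul, Finset.mul_sum, star_mul', Matrix.conjTranspose_apply,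
    star_star]
  rw [Finset.sum_comm]
  refine Finset.sum_congr rfl fun i _ => Finset.sum_congr rfl fun j _ => ?_
  ring

/-- factorisation of a matrix of rank at most `r` -/
theorem factor (B : Matrix (Fin n) (Fin n) ℂ) {r : ℕ} (hr : B.rank ≤ r) :
    ∃ (k : ℕ) (w : Fin k → EuclideanSpace ℂ (Fin n)), k ≤ r ∧ (∀ j, ‖w j‖ = 1) ∧
      B = (Matrix.of fun (l : Fin n) (j : Fin k) => (w j) l) *
        ((Matrix.of fun (l : Fin n) (j : Fin k) => (w j) l)ᴴ * B) := by
  set S : Submodule ℂ (EuclideanSpace ℂ (Fin n)) := LinearMap.range (op B).toLinearMap with hS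
  have hrank : Module.finrank ℂ S = B.rank := by
    rw [hS]
    have h1 : (op B).toLinearMap = Matrix.toEuclideanLin B := rfl
    rw [h1]
    exact (Matrix.rank_eq_finrank_range_toLin B (EuclideanSpace.basisFun (Fin n) ℂ).toBasis
      (EuclideanSpace.basisFun (Fin n) ℂ).toBasis).symm
  let b := stdOrthonormalBasis ℂ S
  refine ⟨Module.finrank ℂ S, fun j => (b j : EuclideanSpace ℂ (Fin n)), by rw [hrank]; exact hr,
    fun j => ?_, ?_⟩
  · have := b.orthonormal.1 j
    exact this
  · ext a l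
    set e : EuclideanSpace ℂ (Fin n) := EuclideanSpace.single l 1 with he
    have hBe : ∀ i, op B e i = B i l := by
      intro i
      rw [op_apply, he]
      simp
    have hmem : op B e ∈ S := ⟨e, rfl⟩
    have h1 := b.sum_repr ⟨op B e, hmem⟩
    have h2 : ∑ j, (b.repr ⟨op B e, hmem⟩ j) • (b j : EuclideanSpace ℂ (Fin n)) = op B e := by
      have h3 := congrArg (fun x : S => (x : EuclideanSpace ℂ (Fin n))) h1
      simpa using h3
    have h4 : ∀ j, b.repr ⟨op B e, hmem⟩ j = inner ℂ (b j : EuclideanSpace ℂ (Fin n)) (op B e) := by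
      intro j
      rw [b.repr_apply_apply]
      rfl
    have h5 := congrArg (fun x : EuclideanSpace ℂ (Fin n) => x a) h2
    simp only [h4] at h5
    rw [hBe] at h5
    rw [← h5, Matrix.mul_apply]
    have h6 : (∑ j, (inner ℂ (b j : EuclideanSpace ℂ (Fin n)) (op B e) : ℂ) •
        (b j : EuclideanSpace ℂ (Fin n))).ofLp a =
        ∑ j, (inner ℂ (b j : EuclideanSpace ℂ (Fin n)) (op B e) : ℂ) *
          (b j : EuclideanSpace ℂ (Fin n)) a := by
      simp
    refine h6.trans (Finset.sum_congr rfl fun j _ => ?_)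
    rw [mul_comm]
    congr 1
    rw [inner_eq, Matrix.mul_apply]
    refine Finset.sum_congr rfl fun i _ => ?_
    rw [hBe]
    rfl

/-- the determinant identity -/
theorem det_eq {C A : Matrix (Fin n) (Fin n) ℂ} (hC : ‖C‖ ≤ 1) {k : ℕ}
    (w : Fin k → EuclideanSpace ℂ (Fin n))
    (hB : A - C = (Matrix.of fun (l : Fin n) (j : Fin k) => (w j) l) *
        ((Matrix.of fun (l : Fin n) (j : Fin k) => (w j) l)ᴴ * (A - C))) {ζ : ℂ} (hζ : ‖ζ‖ < 1) :
    (1 - ζ • A).det = (1 - ζ • C).det *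
      (1 - ζ • Matrix.of fun i j : Fin k => HH C (w j) (op (A - C)ᴴ (w i)) ζ).det := by
  set W : Matrix (Fin n) (Fin k) ℂ := Matrix.of fun (l : Fin n) (j : Fin k) => (w j) l with hW
  set B := A - C with hBdef
  have h1 : 1 - ζ • A = (1 - ζ • C) * (1 - (ζ • (RR C ζ * W)) * (Wᴴ * B)) := by
    rw [Matrix.mul_sub, Matrix.mul_one, Matrix.smul_mul, Matrix.mul_smul, Matrix.mul_assoc, ← hB,
      ← Matrix.mul_assoc, mul_RR hC hζ, Matrix.one_mul, hBdef, smul_sub]
    abel
  rw [h1, Matrix.det_mul, Matrix.det_one_sub_mul_comm]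
  congr 2
  rw [Matrix.mul_smul]
  congr 1
  congr 1
  ext i j
  rw [← Matrix.mul_assoc, Matrix.mul_assoc Wᴴ B, hW, entry w (B * RR C ζ) i j, op_mul]
  show inner ℂ (w i) (op B (op (RR C ζ) (w j))) = _
  rw [op_adj]
  rfl

end

end Pool.Agent.U236.BR
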