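import Mathlib
import Pool.Agent.U236.BR2

/-!
# The mean of the logarithm of the determinant quotient
-/

set_option autoImplicit false

namespace Pool.Agent.U236.BR

open Matrix Real Complex Metric
open scoped Matrix.Norms.L2Operator InnerProductSpace

noncomputable section

variable {n : ℕ}

theorem adj_norm {B : Matrix (Fin n) (Fin n) ℂ} {w : EuclideanSpace ℂ (Fin n)} (hw : ‖w‖ = 1) :
    ‖op Bᴴ w‖ ≤ ‖B‖ := by
  have h := op_norm_le (A := Bᴴ) w
  rwa [hw, mul_one, Matrix.l2_opNorm_conjTranspose] at h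

theorem det_bound {k : ℕ} (F : Matrix (Fin k) (Fin k) ℂ) {ζ : ℂ} (hζ : ‖ζ‖ < 1) :
    ‖(1 - ζ • F).det‖ ≤ (k.factorial : ℝ) * (1 + ∑ i, ∑ j, ‖F i j‖) ^ k := by
  have h1 : ∀ i j, (IsAbsoluteValue.toAbsoluteValue (norm : ℂ → ℝ)) ((1 - ζ • F) i j) ≤
      1 + ∑ i, ∑ j, ‖F i j‖ := by
    intro i j
    rw [IsAbsoluteValue.toAbsoluteValue_apply]
    have h2 : ‖F i j‖ ≤ ∑ i, ∑ j, ‖F i j‖ := by
      calc ‖F i j‖ ≤ ∑ j, ‖F i j‖ :=
            Finset.single_le_sum (f := fun j => ‖F i j‖) (fun _ _ => norm_nonneg _)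
              (Finset.mem_univ j)
        _ ≤ ∑ i, ∑ j, ‖F i j‖ :=
            Finset.single_le_sum (f := fun i => ∑ j, ‖F i j‖)
              (fun _ _ => Finset.sum_nonneg fun _ _ => norm_nonneg _) (Finset.mem_univ i)
    have h3 : ‖(1 : Matrix (Fin k) (Fin k) ℂ) i j‖ ≤ 1 := by
      rw [Matrix.one_apply]
      split_ifs <;> simp
    calc ‖(1 - ζ • F) i j‖ = ‖(1 : Matrix (Fin k) (Fin k) ℂ) i j - ζ * F i j‖ := by
          simp [Matrix.sub_apply]
      _ ≤ ‖(1 : Matrix (Fin k) (Fin k) ℂ) i j‖ + ‖ζ * F i j‖ := norm_sub_le _ _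
      _ ≤ 1 + ‖F i j‖ := by
          rw [norm_mul]
          have := mul_le_mul_of_nonneg_right hζ.le (norm_nonneg (F i j))
          linarith
      _ ≤ _ := by linarith
  have h4 := Matrix.det_le h1
  rw [IsAbsoluteValue.toAbsoluteValue_apply, Fintype.card_fin, nsmul_eq_mul] at h4
  exact h4

theorem log_one_add_le {x a : ℝ} (hx : 0 ≤ x) (ha : 0 ≤ a) :
    Real.log (1 + x) ≤ Real.log (1 + a) + (x - a) / (1 + a) := by
  have h1 : 0 < 1 + a := by linarith
  have h2 : 0 < 1 + x := by linarith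
  have h3 := Real.log_le_sub_one_of_pos (div_pos h2 h1)
  rw [Real.log_div h2.ne' h1.ne'] at h3
  have h4 : (1 + x) / (1 + a) - 1 = (x - a) / (1 + a) := by
    field_simp
    ring
  linarith

theorem log_one_add_sq {y : ℝ} (hy : 0 ≤ y) : Real.log (1 + y ^ 2) ≤ 2 * Real.log (1 + y) := by
  rw [← Real.log_rpow (by linarith)]
  apply Real.log_le_log (by positivity)
  have : (1 + y) ^ (2 : ℝ) = (1 + y) ^ 2 := by norm_cast
  rw [this]
  nlinarith

theorem sum_le_sq {ι : Type} (s : Finset ι) (f : ι → ℝ) (hf : ∀ i, 0 ≤ f i) :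
    ∑ i ∈ s, f i ≤ (∑ i ∈ s, √(f i)) ^ 2 := by
  classical
  induction s using Finset.induction_on with
  | empty => simp
  | insert a s ha ih =>
    rw [Finset.sum_insert ha, Finset.sum_insert ha]
    have h1 := Real.sq_sqrt (hf a)
    have h2 : 0 ≤ ∑ i ∈ s, √(f i) := Finset.sum_nonneg fun _ _ => Real.sqrt_nonneg _
    nlinarith [mul_nonneg (Real.sqrt_nonneg (f a)) h2]

/-- the mean of `log⁺` of the quotient of the determinants -/
theorem mean_ratio {C A : Matrix (Fin n) (Fin n) ℂ} (hC : ‖C‖ ≤ 1) {r : ℕ}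
    (hr : (A - C).rank ≤ r) {K : ℝ} (hK : ‖A - C‖ ≤ K) {s : ℝ} (hs0 : 0 < s) (hs : s < 1) :
    Real.circleAverage (fun ζ => Real.log (max 1 (‖(1 - ζ • A).det‖ / ‖(1 - ζ • C).det‖))) 0 s ≤
      11 * r * Real.log (2 + r + K) := by
  obtain ⟨k, w, hk, hw, hB⟩ := factor (A - C) hr
  set F : ℂ → Matrix (Fin k) (Fin k) ℂ := fun ζ =>
    Matrix.of fun i j : Fin k => HH C (w j) (op (A - C)ᴴ (w i)) ζ with hF
  have hK0 : 0 ≤ K := (norm_nonneg _).trans hK
  have hnorm : ∀ ζ ∈ sphere (0 : ℂ) |s|, ‖ζ‖ < 1 := by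
    intro ζ hζ
    rw [mem_sphere_zero_iff_norm, abs_of_pos hs0] at hζ
    linarith
  set X : ℂ → ℝ := fun ζ => ∑ i : Fin k, ∑ j : Fin k, √‖HH C (w j) (op (A - C)ᴴ (w i)) ζ‖ with hX
  set a : ℝ := (k : ℝ) ^ 2 * (2 * √2 * (1 + K)) with ha
  have ha0 : 0 ≤ a := by positivity
  have hX0 : ∀ ζ, 0 ≤ X ζ := fun ζ => Finset.sum_nonneg fun _ _ => Finset.sum_nonneg fun _ _ =>
    Real.sqrt_nonneg _
  have hint : ∀ i j : Fin k, CircleIntegrable
      (fun ζ => √‖HH C (w j) (op (A - C)ᴴ (w i)) ζ‖) 0 s := by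
    intro i j
    apply ContinuousOn.circleIntegrable'
    exact Real.continuous_sqrt.comp_continuousOn (HH_cont hC _ _ hs0 hs).norm
  have hXint : CircleIntegrable X 0 s := by
    have h1 : X = ∑ i : Fin k, ∑ j : Fin k, fun ζ => √‖HH C (w j) (op (A - C)ᴴ (w i)) ζ‖ := by
      funext ζ
      simp [hX, Finset.sum_apply]
    rw [h1]
    exact CircleIntegrable.sum _ fun i _ => CircleIntegrable.sum _ fun j _ => hint i j
  have hXmean : Real.circleAverage X 0 s ≤ a := by
    have h1 : X = fun ζ => ∑ i : Fin k, (∑ j : Fin k, √‖HH C (w j) (op (A - C)ᴴ (w i)) ζ‖) := rfl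
    have h3 : Real.circleAverage X 0 s = ∑ i : Fin k, ∑ j : Fin k,
        Real.circleAverage (fun ζ => √‖HH C (w j) (op (A - C)ᴴ (w i)) ζ‖) 0 s := by
      have h1 : X = ∑ i : Fin k, ∑ j : Fin k, fun ζ => √‖HH C (w j) (op (A - C)ᴴ (w i)) ζ‖ := by
        funext ζ
        simp [hX, Finset.sum_apply]
      rw [h1, Real.circleAverage_sum (fun i _ => CircleIntegrable.sum _ fun j _ => hint i j)]
      refine Finset.sum_congr rfl fun i _ => ?_
      rw [Real.circleAverage_sum (fun j _ => hint i j)]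
    rw [h3]
    calc ∑ i : Fin k, ∑ j : Fin k,
        Real.circleAverage (fun ζ => √‖HH C (w j) (op (A - C)ᴴ (w i)) ζ‖) 0 s
        ≤ ∑ _i : Fin k, ∑ _j : Fin k, 2 * √2 * (1 + K) := by
          refine Finset.sum_le_sum fun i _ => Finset.sum_le_sum fun j _ => ?_
          refine (mean_HH hC _ _ hs0 hs).trans ?_
          apply mul_le_mul_of_nonneg_left _ (by positivity)
          rw [hw j]
          have := (adj_norm (B := A - C) (hw i)).trans hK
          linarith
      _ = a := by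
          simp [ha]
          ring
  have hpt : ∀ ζ ∈ sphere (0 : ℂ) |s|,
      Real.log (max 1 (‖(1 - ζ • A).det‖ / ‖(1 - ζ • C).det‖)) ≤
        Real.log (k.factorial) + 2 * k * (Real.log (1 + a) + (X ζ - a) / (1 + a)) := by
    intro ζ hζ
    have hζ1 := hnorm ζ hζ
    have hd := det_ne hC hζ1
    have h1 : ‖(1 - ζ • A).det‖ / ‖(1 - ζ • C).det‖ = ‖(1 - ζ • F ζ).det‖ := by
      rw [det_eq hC w hB hζ1, norm_mul, mul_div_cancel_left₀ _ (norm_ne_zero_iff.mpr hd)]
    rw [h1]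
    have h2 := det_bound (F ζ) hζ1
    set Y : ℝ := ∑ i, ∑ j, ‖F ζ i j‖ with hY
    have hY0 : 0 ≤ Y := Finset.sum_nonneg fun _ _ => Finset.sum_nonneg fun _ _ => norm_nonneg _
    have hfac : (1 : ℝ) ≤ k.factorial := by exact_mod_cast Nat.factorial_pos k
    have h3 : max 1 ‖(1 - ζ • F ζ).det‖ ≤ (k.factorial : ℝ) * (1 + Y) ^ k := by
      apply max_le _ h2
      calc (1 : ℝ) = 1 * 1 := (one_mul 1).symm
        _ ≤ (k.factorial : ℝ) * (1 + Y) ^ k :=
          mul_le_mul hfac (one_le_pow₀ (by linarith)) zero_le_one (by linarith)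
    have h4 : Real.log (max 1 ‖(1 - ζ • F ζ).det‖) ≤
        Real.log (k.factorial) + k * Real.log (1 + Y) := by
      refine (Real.log_le_log (lt_of_lt_of_le one_pos (le_max_left _ _)) h3).trans ?_
      rw [Real.log_mul (by positivity) (by positivity), Real.log_pow]
    have h5 : Y ≤ (X ζ) ^ 2 := by
      have e1 : Y = ∑ p ∈ (Finset.univ : Finset (Fin k)) ×ˢ (Finset.univ : Finset (Fin k)),
          ‖F ζ p.1 p.2‖ := by
        rw [hY, Finset.sum_product]
      have e2 : X ζ = ∑ p ∈ (Finset.univ : Finset (Fin k)) ×ˢ (Finset.univ : Finset (Fin k)),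
          √‖F ζ p.1 p.2‖ := by
        rw [Finset.sum_product]
        rfl
      rw [e1, e2]
      exact sum_le_sq _ (fun p : Fin k × Fin k => ‖F ζ p.1 p.2‖) (fun _ => norm_nonneg _)
    have h6 : Real.log (1 + Y) ≤ 2 * (Real.log (1 + a) + (X ζ - a) / (1 + a)) := by
      calc Real.log (1 + Y) ≤ Real.log (1 + (X ζ) ^ 2) :=
            Real.log_le_log (by linarith) (by linarith)
        _ ≤ 2 * Real.log (1 + X ζ) := log_one_add_sq (hX0 ζ)
        _ ≤ _ := by
            have := log_one_add_le (hX0 ζ) ha0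
            linarith
    have h7 : (k : ℝ) * Real.log (1 + Y) ≤
        k * (2 * (Real.log (1 + a) + (X ζ - a) / (1 + a))) :=
      mul_le_mul_of_nonneg_left h6 (Nat.cast_nonneg k)
    linarith
  have hcont : ContinuousOn
      (fun ζ => Real.log (max 1 (‖(1 - ζ • A).det‖ / ‖(1 - ζ • C).det‖))) (sphere (0 : ℂ) |s|) := by
    have hc : ∀ M : Matrix (Fin n) (Fin n) ℂ, Continuous fun ζ : ℂ => ‖(1 - ζ • M).det‖ := by
      intro M
      have : Continuous fun ζ : ℂ => (1 - ζ • M) := by fun_prop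
      exact (this.matrix_det).norm
    apply ContinuousOn.log
    · refine ContinuousOn.sup (f := fun _ => (1 : ℝ)) continuousOn_const ?_
      apply ContinuousOn.div (hc A).continuousOn (hc C).continuousOn
      intro ζ hζ
      exact norm_ne_zero_iff.mpr (det_ne hC (hnorm ζ hζ))
    · intro ζ _
      exact (lt_of_lt_of_le one_pos (le_max_left _ _)).ne'
  have hmono := Real.circleAverage_mono (ContinuousOn.circleIntegrable' hcont)
    (f₂ := fun ζ => Real.log (k.factorial) + 2 * k * (Real.log (1 + a) + (X ζ - a) / (1 + a)))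
    (by
      have h1 : (fun ζ => Real.log (k.factorial : ℝ) + 2 * k * (Real.log (1 + a) +
          (X ζ - a) / (1 + a))) = (fun _ => Real.log (k.factorial : ℝ) + 2 * k *
            (Real.log (1 + a) - a / (1 + a))) + (2 * k / (1 + a)) • X := by
        funext ζ
        simp only [Pi.add_apply, Pi.smul_apply, smul_eq_mul]
        ring
      rw [h1]
      exact (circleIntegrable_const _ _ _).add hXint.const_smul) hpt
  refine hmono.trans ?_
  have h1 : (fun ζ => Real.log (k.factorial : ℝ) + 2 * k * (Real.log (1 + a) +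
      (X ζ - a) / (1 + a))) = (fun _ => Real.log (k.factorial : ℝ) + 2 * k *
        (Real.log (1 + a) - a / (1 + a))) + (2 * k / (1 + a)) • X := by
    funext ζ
    simp only [Pi.add_apply, Pi.smul_apply, smul_eq_mul]
    ring
  rw [h1, Real.circleAverage_add (circleIntegrable_const _ _ _) hXint.const_smul,
    Real.circleAverage_const, Real.circleAverage_smul, smul_eq_mul]
  have h2 : 2 * k / (1 + a) * Real.circleAverage X 0 s ≤ 2 * k / (1 + a) * a :=
    mul_le_mul_of_nonneg_left hXmean (by positivity)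
  have h3 : Real.log (k.factorial : ℝ) + 2 * k * (Real.log (1 + a) - a / (1 + a)) +
      2 * k / (1 + a) * a = Real.log (k.factorial : ℝ) + 2 * k * Real.log (1 + a) := by ring
  have hkr : (k : ℝ) ≤ r := by exact_mod_cast hk
  set Z : ℝ := 2 + r + K with hZ
  have hr0 : (0 : ℝ) ≤ r := Nat.cast_nonneg r
  have hZ2 : 2 ≤ Z := by linarith
  have hlogZ : 0 ≤ Real.log Z := Real.log_nonneg (by linarith)
  have h4 : Real.log (k.factorial : ℝ) ≤ k * Real.log Z := by
    rw [← Real.log_pow]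
    apply Real.log_le_log (by positivity)
    have h5 : (k.factorial : ℝ) ≤ (k : ℝ) ^ k := by exact_mod_cast Nat.factorial_le_pow k
    exact h5.trans (pow_le_pow_left₀ (Nat.cast_nonneg k) (by linarith) k)
  have h5 : Real.log (1 + a) ≤ 5 * Real.log Z := by
    have h6 : Real.log (Z ^ 5) = 5 * Real.log Z := by
      rw [Real.log_pow]; norm_num
    rw [← h6]
    apply Real.log_le_log (by linarith)
    have h7 : √2 ≤ 3 / 2 := by
      rw [Real.sqrt_le_left (by norm_num)]
      norm_num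
    have h8 : a ≤ 3 * Z ^ 3 := by
      have h9 : (k : ℝ) ^ 2 ≤ Z ^ 2 := pow_le_pow_left₀ (Nat.cast_nonneg k) (by linarith) 2
      have h10 : 2 * √2 * (1 + K) ≤ 3 * Z := by nlinarith [Real.sqrt_nonneg 2]
      calc a ≤ Z ^ 2 * (3 * Z) := mul_le_mul h9 h10 (by positivity) (by positivity)
        _ = 3 * Z ^ 3 := by ring
    have h11 : (8 : ℝ) ≤ Z ^ 3 := by
      calc (8 : ℝ) = 2 ^ 3 := by norm_num
        _ ≤ Z ^ 3 := pow_le_pow_left₀ (by norm_num) hZ2 3
    have h12 : (4 : ℝ) ≤ Z ^ 2 := by nlinarith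
    nlinarith [mul_le_mul_of_nonneg_left h12 (by linarith : (0 : ℝ) ≤ Z ^ 3)]
  have hk0 : (0 : ℝ) ≤ k := Nat.cast_nonneg k
  calc Real.log (k.factorial : ℝ) + 2 * k * (Real.log (1 + a) - a / (1 + a)) +
        2 * k / (1 + a) * Real.circleAverage X 0 s
      ≤ Real.log (k.factorial : ℝ) + 2 * k * Real.log (1 + a) := by linarith
    _ ≤ k * Real.log Z + 2 * k * (5 * Real.log Z) := by
        have := mul_le_mul_of_nonneg_left h5 (by positivity : (0 : ℝ) ≤ 2 * k)
        linarith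
    _ = 11 * k * Real.log Z := by ring
    _ ≤ 11 * r * Real.log Z := by
        have := mul_le_mul_of_nonneg_right hkr hlogZ
        linarith

end

end Pool.Agent.U236.BR
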