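import Mathlib
import Pool.Agent.U236.BR3

/-!
# The height of the pair of characteristic polynomials
-/

set_option autoImplicit false

namespace Pool.Agent.U236.BR

open Matrix Real Complex Metric Polynomial
open scoped Matrix.Norms.L2Operator InnerProductSpace

noncomputable section

variable {n : ℕ}

/-- complexification -/
def tc (f : ℤ[X]) : ℂ[X] := f.map (Int.castRingHom ℂ)

theorem tc_inj : Function.Injective (Int.castRingHom ℂ) := (Int.castRingHom ℂ).injective_int

theorem tc_mul (f g : ℤ[X]) : tc (f * g) = tc f * tc g := Polynomial.map_mul _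

theorem tc_natDegree (f : ℤ[X]) : (tc f).natDegree = f.natDegree :=
  Polynomial.natDegree_map_eq_of_injective tc_inj f

theorem tc_leadingCoeff (f : ℤ[X]) : (tc f).leadingCoeff = ((f.leadingCoeff : ℤ) : ℂ) := by
  unfold tc
  rw [Polynomial.leadingCoeff_map_of_injective tc_inj]
  rfl

theorem eval_charpolyRev' (M : Matrix (Fin n) (Fin n) ℂ) (ζ : ℂ) :
    M.charpolyRev.eval ζ = (1 - ζ • M).det := by
  unfold Matrix.charpolyRev
  rw [← Polynomial.coe_evalRingHom, RingHom.map_det]
  congr 1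
  ext i j
  simp only [RingHom.mapMatrix_apply, Matrix.map_apply, Matrix.sub_apply, Matrix.smul_apply,
    Polynomial.coe_evalRingHom, Polynomial.eval_sub, smul_eq_mul, Polynomial.eval_mul,
    Polynomial.eval_X, Polynomial.eval_C]
  rw [Matrix.one_apply, Matrix.one_apply]
  split_ifs <;> simp

/-- a common factor of two integer polynomials with unit leading coefficient -/
theorem no_common {a b : ℤ[X]} (hu : IsUnit a.leadingCoeff) (hab : IsRelPrime a b) (z : ℂ)
    (h1 : (tc a).eval z = 0) (h2 : (tc b).eval z = 0) : False := by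
  have e1 : aeval z a = 0 := by
    rw [Polynomial.aeval_def, ← Polynomial.eval_map]; exact h1
  have e2 : aeval z b = 0 := by
    rw [Polynomial.aeval_def, ← Polynomial.eval_map]; exact h2
  have hint : IsIntegral ℤ z := by
    rcases Int.isUnit_iff.mp hu with h | h
    · exact ⟨a, h, e1⟩
    · refine ⟨-a, ?_, ?_⟩
      · show (-a).leadingCoeff = 1
        rw [leadingCoeff_neg, h]; norm_num
      · rw [← Polynomial.aeval_def, map_neg, e1, neg_zero]
  have d1 := minpoly.isIntegrallyClosed_dvd hint e1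
  have d2 := minpoly.isIntegrallyClosed_dvd hint e2
  exact minpoly.not_isUnit ℤ z (hab d1 d2)

theorem eval_conj (f : ℤ[X]) (z : ℂ) :
    (tc f).eval ((starRingEnd ℂ) z) = (starRingEnd ℂ) ((tc f).eval z) := by
  unfold tc
  rw [Polynomial.eval_map, Polynomial.eval_map, Polynomial.hom_eval₂]
  congr 1
  exact RingHom.ext_int _ _

theorem norm_reverse_unit (f : ℤ[X]) {ζ : ℂ} (hζ : ‖ζ‖ = 1) :
    ‖(tc f).reverse.eval ζ‖ = ‖(tc f).eval ζ‖ := by
  have hζ0 : ζ ≠ 0 := by
    rintro rfl
    simp at hζ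
  have hinv : ζ⁻¹ = (starRingEnd ℂ) ζ := Complex.inv_eq_conj hζ
  let _ : Invertible (ζ⁻¹) := invertibleOfNonzero (inv_ne_zero hζ0)
  have h1 := Polynomial.eval₂_reverse_mul_pow (RingHom.id ℂ) (ζ⁻¹) (tc f)
  have h2 : ⅟(ζ⁻¹) = ζ := by
    rw [invOf_eq_inv, inv_inv]
  rw [h2] at h1
  have h3 : (tc f).reverse.eval ζ * (ζ⁻¹) ^ (tc f).natDegree = (tc f).eval (ζ⁻¹) := h1
  have h4 := congrArg norm h3
  rw [norm_mul, norm_pow, norm_inv, hζ, inv_one, one_pow, mul_one, hinv, eval_conj,
    RCLike.norm_conj] at h4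
  exact h4

theorem reverse_no_common {a b : ℤ[X]} (hu : IsUnit a.leadingCoeff) (hab : IsRelPrime a b) (z : ℂ)
    (h1 : (tc a).reverse.eval z = 0) (h2 : (tc b).reverse.eval z = 0) : False := by
  have hz : z ≠ 0 := by
    rintro rfl
    rw [← Polynomial.coeff_zero_eq_eval_zero, Polynomial.coeff_zero_reverse, tc_leadingCoeff] at h1
    have h3 : a.leadingCoeff = 0 := by exact_mod_cast h1
    rw [h3] at hu
    exact not_isUnit_zero hu
  let _ : Invertible (z⁻¹) := invertibleOfNonzero (inv_ne_zero hz)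
  have h4 : ⅟(z⁻¹) = z := by
    rw [invOf_eq_inv, inv_inv]
  have e1 := Polynomial.eval₂_reverse_mul_pow (RingHom.id ℂ) (z⁻¹) (tc a)
  have e2 := Polynomial.eval₂_reverse_mul_pow (RingHom.id ℂ) (z⁻¹) (tc b)
  rw [h4] at e1 e2
  have e1' : (tc a).reverse.eval z * (z⁻¹) ^ (tc a).natDegree = (tc a).eval (z⁻¹) := e1
  have e2' : (tc b).reverse.eval z * (z⁻¹) ^ (tc b).natDegree = (tc b).eval (z⁻¹) := e2
  rw [h1, zero_mul] at e1'
  rw [h2, zero_mul] at e2'
  exact no_common hu hab _ e1'.symm e2'.symm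

/-- the height of the pair `(a, b)` of the coprime parts of the characteristic polynomials -/
theorem height {C A : Matrix (Fin n) (Fin n) ℂ} (hC : ‖C‖ ≤ 1) {r : ℕ}
    (hr : (A - C).rank ≤ r) {K : ℝ} (hK : ‖A - C‖ ≤ K) {P Q a b d : ℤ[X]}
    (hP : tc P = A.charpoly) (hQ : tc Q = C.charpoly) (ha : d * a = P) (hb : d * b = Q)
    (hab : IsRelPrime a b) :
    Real.circleAverage (fun z => Real.log (max ‖(tc a).eval z‖ ‖(tc b).eval z‖)) 0 1 ≤
      11 * r * Real.log (2 + r + K) := by
  have hlP : P.leadingCoeff = 1 := by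
    have h1 := tc_leadingCoeff P
    rw [hP, (A.charpoly_monic).leadingCoeff] at h1
    exact_mod_cast h1.symm
  have hlQ : Q.leadingCoeff = 1 := by
    have h1 := tc_leadingCoeff Q
    rw [hQ, (C.charpoly_monic).leadingCoeff] at h1
    exact_mod_cast h1.symm
  have hua : IsUnit a.leadingCoeff := by
    refine isUnit_iff_exists_inv.mpr ⟨d.leadingCoeff, ?_⟩
    rw [mul_comm, ← leadingCoeff_mul, ha, hlP]
  have hub : IsUnit b.leadingCoeff := by
    refine isUnit_iff_exists_inv.mpr ⟨d.leadingCoeff, ?_⟩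
    rw [mul_comm, ← leadingCoeff_mul, hb, hlQ]
  have hrP : ∀ ζ : ℂ, (tc d).reverse.eval ζ * (tc a).reverse.eval ζ = (1 - ζ • A).det := by
    intro ζ
    rw [← Polynomial.eval_mul, ← Polynomial.reverse_mul_of_domain, ← tc_mul, ha, hP,
      Matrix.reverse_charpoly, eval_charpolyRev']
  have hrQ : ∀ ζ : ℂ, (tc d).reverse.eval ζ * (tc b).reverse.eval ζ = (1 - ζ • C).det := by
    intro ζ
    rw [← Polynomial.eval_mul, ← Polynomial.reverse_mul_of_domain, ← tc_mul, hb, hQ,
      Matrix.reverse_charpoly, eval_charpolyRev']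
  set g : ℂ → ℝ := fun ζ => Real.log (max ‖(tc a).reverse.eval ζ‖ ‖(tc b).reverse.eval ζ‖) with hg
  have hpos : ∀ ζ, 0 < max ‖(tc a).reverse.eval ζ‖ ‖(tc b).reverse.eval ζ‖ := by
    intro ζ
    by_contra hcon
    rw [not_lt] at hcon
    have h1 : ‖(tc a).reverse.eval ζ‖ ≤ 0 := (le_max_left _ _).trans hcon
    have h2 : ‖(tc b).reverse.eval ζ‖ ≤ 0 := (le_max_right _ _).trans hcon
    exact reverse_no_common hua hab ζ (norm_le_zero_iff.mp h1) (norm_le_zero_iff.mp h2)
  have hgc : Continuous g := by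
    apply Continuous.log
    · exact ((tc a).reverse.continuous.norm).max ((tc b).reverse.continuous.norm)
    · exact fun ζ => (hpos ζ).ne'
  have hmean : ∀ s : ℝ, 0 < s → s < 1 → Real.circleAverage g 0 s ≤
      11 * r * Real.log (2 + r + K) := by
    intro s hs0 hs
    have hnorm : ∀ ζ ∈ sphere (0 : ℂ) |s|, ‖ζ‖ < 1 := by
      intro ζ hζ
      rw [mem_sphere_zero_iff_norm, abs_of_pos hs0] at hζ
      linarith
    have hbne : ∀ ζ : ℂ, ‖ζ‖ < 1 → (tc b).reverse.eval ζ ≠ 0 := by
      intro ζ hζ h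
      have := hrQ ζ
      rw [h, mul_zero] at this
      exact det_ne hC hζ this.symm
    have hdne : ∀ ζ : ℂ, ‖ζ‖ < 1 → (tc d).reverse.eval ζ ≠ 0 := by
      intro ζ hζ h
      have := hrQ ζ
      rw [h, zero_mul] at this
      exact det_ne hC hζ this.symm
    have h1 : Set.EqOn g ((fun ζ => Real.log ‖(tc b).reverse.eval ζ‖) +
        fun ζ => Real.log (max 1 (‖(1 - ζ • A).det‖ / ‖(1 - ζ • C).det‖))) (sphere 0 |s|) := by
      intro ζ hζ
      have hζ1 := hnorm ζ hζ
      have hb0 := norm_pos_iff.mpr (hbne ζ hζ1)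
      have hd0 := norm_pos_iff.mpr (hdne ζ hζ1)
      have h2 : ‖(1 - ζ • A).det‖ / ‖(1 - ζ • C).det‖ =
          ‖(tc a).reverse.eval ζ‖ / ‖(tc b).reverse.eval ζ‖ := by
        rw [← hrP, ← hrQ, norm_mul, norm_mul, mul_div_mul_left _ _ hd0.ne']
      simp only [hg, Pi.add_apply]
      rw [h2, ← Real.log_mul hb0.ne' (lt_of_lt_of_le one_pos (le_max_left _ _)).ne']
      congr 1
      rw [mul_max_of_nonneg _ _ hb0.le, mul_one, mul_div_cancel₀ _ hb0.ne', max_comm]
    rw [Real.circleAverage_congr_sphere h1]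
    have hlogb : Real.circleAverage (fun ζ => Real.log ‖(tc b).reverse.eval ζ‖) 0 s = 0 := by
      have h3 := AnalyticOnNhd.circleAverage_log_norm_of_ne_zero (c := (0 : ℂ)) (R := s)
        (g := fun ζ => (tc b).reverse.eval ζ)
        (fun ζ _ => (tc b).reverse.differentiable.analyticAt ζ)
        (fun ζ hζ => hbne ζ (by
          rw [mem_closedBall_zero_iff, abs_of_pos hs0] at hζ
          linarith))
      rw [h3, ← Polynomial.coeff_zero_eq_eval_zero, Polynomial.coeff_zero_reverse, tc_leadingCoeff]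
      rcases Int.isUnit_iff.mp hub with h | h <;> rw [h] <;> simp
    have hi1 : CircleIntegrable (fun ζ => Real.log ‖(tc b).reverse.eval ζ‖) 0 s := by
      apply ContinuousOn.circleIntegrable'
      apply ContinuousOn.log
      · exact ((tc b).reverse.continuous.norm).continuousOn
      · exact fun ζ hζ => (norm_pos_iff.mpr (hbne ζ (hnorm ζ hζ))).ne'
    have hi2 : CircleIntegrable (fun ζ => Real.log (max 1 (‖(1 - ζ • A).det‖ /
        ‖(1 - ζ • C).det‖))) 0 s := by
      have hc : ∀ M : Matrix (Fin n) (Fin n) ℂ, Continuous fun ζ : ℂ => ‖(1 - ζ • M).det‖ := by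
        intro M
        have : Continuous fun ζ : ℂ => (1 - ζ • M) := by fun_prop
        exact (this.matrix_det).norm
      apply ContinuousOn.circleIntegrable'
      apply ContinuousOn.log
      · refine ContinuousOn.sup (f := fun _ => (1 : ℝ)) continuousOn_const ?_
        apply ContinuousOn.div (hc A).continuousOn (hc C).continuousOn
        intro ζ hζ
        exact norm_ne_zero_iff.mpr (det_ne hC (hnorm ζ hζ))
      · intro ζ _
        exact (lt_of_lt_of_le one_pos (le_max_left _ _)).ne'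
    rw [Real.circleAverage_add hi1 hi2, hlogb, zero_add]
    exact mean_ratio hC hr hK hs0 hs
  have hcont : Continuous (Real.circleAverage g 0) := hgc.circleAverage
  have hone : Real.circleAverage g 0 1 ≤ 11 * r * Real.log (2 + r + K) := by
    have h1 : Filter.Tendsto (Real.circleAverage g 0) (nhdsWithin 1 (Set.Iio 1))
        (nhds (Real.circleAverage g 0 1)) := (hcont.tendsto 1).mono_left nhdsWithin_le_nhds
    refine le_of_tendsto h1 ?_
    filter_upwards [Ioo_mem_nhdsLT (show (0 : ℝ) < 1 by norm_num)] with s hs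
    exact hmean s hs.1 hs.2
  have hfin : Real.circleAverage (fun z => Real.log (max ‖(tc a).eval z‖ ‖(tc b).eval z‖)) 0 1 =
      Real.circleAverage g 0 1 := by
    apply Real.circleAverage_congr_sphere
    intro ζ hζ
    rw [mem_sphere_zero_iff_norm, abs_one] at hζ
    simp only [hg]
    rw [norm_reverse_unit a hζ, norm_reverse_unit b hζ]
  rw [hfin]
  exact hone

end

end Pool.Agent.U236.BR
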