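import Mathlib
import Pool.Agent.U236.BR4
import Pool.Agent.H261R2.CM.L1
import Pool.Agent.R328.PH

/-!
# Lehmer's problem for bounded rank perturbations of contractions
-/

set_option autoImplicit false

namespace Pool.Agent.U236.BR

open Matrix Real Complex Metric Polynomial
open scoped Matrix.Norms.L2Operator InnerProductSpace

noncomputable section

variable {n : ℕ}

theorem mahler_contraction {C : Matrix (Fin n) (Fin n) ℂ} (hC : ‖C‖ ≤ 1) :
    C.charpoly.mahlerMeasure = 1 := by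
  rw [Polynomial.mahlerMeasure_eq_leadingCoeff_mul_prod_roots, (C.charpoly_monic).leadingCoeff,
    norm_one, one_mul]
  apply Multiset.prod_eq_one
  intro x hx
  obtain ⟨z, hz, rfl⟩ := Multiset.mem_map.mp hx
  apply max_eq_left
  by_contra hcon
  rw [not_le] at hcon
  have hz0 : z ≠ 0 := by
    rintro rfl
    simp at hcon
    linarith
  have hroot : C.charpoly.eval z = 0 := (Polynomial.mem_roots'.mp hz).2
  let _ : Invertible z := invertibleOfNonzero hz0
  have h1 := (Polynomial.eval₂_reverse_eq_zero_iff (RingHom.id ℂ) z C.charpoly).mpr hroot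
  rw [invOf_eq_inv, Matrix.reverse_charpoly] at h1
  have h2 : C.charpolyRev.eval z⁻¹ = 0 := h1
  rw [eval_charpolyRev'] at h2
  refine det_ne hC ?_ h2
  rw [norm_inv]
  exact inv_lt_one_of_one_lt₀ hcon

theorem mahler_one_le {f : ℤ[X]} (hf : IsUnit f.leadingCoeff) : 1 ≤ (tc f).mahlerMeasure := by
  apply Polynomial.one_le_mahlerMeasure_of_one_le_norm_leadingCoeff
  rw [tc_leadingCoeff]
  rcases Int.isUnit_iff.mp hf with h | h <;> rw [h] <;> simp

theorem tc_lc_of_charpoly {A : Matrix (Fin n) (Fin n) ℂ} {P : ℤ[X]} (hP : tc P = A.charpoly) :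
    P.Monic := by
  have h1 := tc_leadingCoeff P
  rw [hP, (A.charpoly_monic).leadingCoeff] at h1
  show P.leadingCoeff = 1
  exact_mod_cast h1.symm

/-- the gap -/
theorem gap (r : ℕ) (K : ℝ) : ∃ μ : ℝ, 1 < μ ∧ ∀ (n : ℕ) (A C : Matrix (Fin n) (Fin n) ℂ)
    (P Q : ℤ[X]), ‖C‖ ≤ 1 → (A - C).rank ≤ r → ‖A - C‖ ≤ K → tc P = A.charpoly →
    tc Q = C.charpoly → A.charpoly.mahlerMeasure = 1 ∨ μ ≤ A.charpoly.mahlerMeasure := by
  obtain ⟨c, hc, h⟩ := Pool.Agent.H261R2.CM.gap_one (11 * r * Real.log (2 + r + K))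
  refine ⟨c, hc, ?_⟩
  intro n A C P Q hC hr hK hP hQ
  have hPm := tc_lc_of_charpoly hP
  have hQm := tc_lc_of_charpoly hQ
  obtain ⟨a, b, d, hab, ha, hb⟩ :=
    UniqueFactorizationMonoid.exists_reduced_factors P hPm.ne_zero Q
  have ha0 : a ≠ 0 := by
    rintro rfl
    exact hPm.ne_zero (by rw [← ha, mul_zero])
  have hb0 : b ≠ 0 := by
    rintro rfl
    exact hQm.ne_zero (by rw [← hb, mul_zero])
  have hub : IsUnit b.leadingCoeff := by
    refine isUnit_iff_exists_inv.mpr ⟨d.leadingCoeff, ?_⟩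
    rw [mul_comm, ← leadingCoeff_mul, hb]
    exact hQm
  have hud : IsUnit d.leadingCoeff := by
    refine isUnit_iff_exists_inv.mpr ⟨b.leadingCoeff, ?_⟩
    rw [← leadingCoeff_mul, hb]
    exact hQm
  have hMQ : (tc d).mahlerMeasure * (tc b).mahlerMeasure = 1 := by
    rw [← Polynomial.mahlerMeasure_mul, ← tc_mul, hb, hQ, mahler_contraction hC]
  have hMd1 := mahler_one_le hud
  have hMb1 := mahler_one_le hub
  have hMd : (tc d).mahlerMeasure = 1 := by nlinarith
  have hMA : A.charpoly.mahlerMeasure = (tc a).mahlerMeasure := by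
    rw [← hP, ← ha, tc_mul, Polynomial.mahlerMeasure_mul, hMd, one_mul]
  have hh := height hC hr hK hP hQ ha hb hab
  rw [Pool.Agent.H261R2.CM.D_circleAverage] at hh
  rw [hMA]
  exact h a b ha0 hb0 hab hh

/-- the bound for irreducible characteristic polynomials -/
theorem irr : ∃ c : ℝ, 0 < c ∧ ∀ (r : ℕ) (K : ℝ) (n : ℕ) (A C : Matrix (Fin n) (Fin n) ℂ)
    (P Q : ℤ[X]), ‖C‖ ≤ 1 → (A - C).rank ≤ r → ‖A - C‖ ≤ K → tc P = A.charpoly →
    tc Q = C.charpoly → Irreducible P → 1 < A.charpoly.mahlerMeasure →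
    c / (1 + r * Real.log (2 + r + K)) ^ 3 ≤ Real.log A.charpoly.mahlerMeasure := by
  obtain ⟨c, hc, h⟩ := Pool.Agent.R328.pair_main
  refine ⟨c / 22 ^ 3, by positivity, ?_⟩
  intro r K n A C P Q hC hr hK hP hQ hirr hM
  have hPm := tc_lc_of_charpoly hP
  have hQm := tc_lc_of_charpoly hQ
  have hndvd : ¬ P ∣ Q := by
    rintro ⟨e, he⟩
    have hue : IsUnit e.leadingCoeff := by
      have h1 : P.leadingCoeff * e.leadingCoeff = 1 := by
        rw [← leadingCoeff_mul, ← he]; exact hQm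
      rw [hPm.leadingCoeff, one_mul] at h1
      rw [h1]
      exact isUnit_one
    have h2 : (tc P).mahlerMeasure * (tc e).mahlerMeasure = 1 := by
      rw [← Polynomial.mahlerMeasure_mul, ← tc_mul, ← he, hQ, mahler_contraction hC]
    have h3 := mahler_one_le hue
    rw [hP] at h2
    nlinarith
  have hrel : IsRelPrime P Q := (hirr.isRelPrime_iff_not_dvd).mpr hndvd
  have hh := height hC hr hK hP hQ (one_mul P) (one_mul Q) hrel
  have hdP : P.natDegree = n := by
    rw [← tc_natDegree, hP, Matrix.charpoly_natDegree_eq_dim, Fintype.card_fin]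
  have hdQ : Q.natDegree = n := by
    rw [← tc_natDegree, hQ, Matrix.charpoly_natDegree_eq_dim, Fintype.card_fin]
  have hn : 0 < n := by
    rcases Nat.eq_zero_or_pos n with h0 | h0
    · exfalso
      rw [h0] at hdP
      have h1 : P = 1 := by
        exact (Polynomial.Monic.natDegree_eq_zero hPm).mp hdP
      rw [h1] at hirr
      exact hirr.not_isUnit isUnit_one
    · exact h0
  have hMM : Pool.Agent.H388SL.MM P = A.charpoly.mahlerMeasure := by
    rw [← hP]; rfl
  have h1 := h P Q 1 one_pos hirr hndvd (by rw [hMM]; exact hM)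
  rw [hMM] at h1
  refine le_trans ?_ h1
  have hn0 : (n : ℝ) ≠ 0 := by exact_mod_cast hn.ne'
  rw [hdP, hdQ]
  have h2 : (1 : ℝ) + (n : ℝ) / (((1 : ℕ) : ℝ) * n) = 2 := by
    rw [Nat.cast_one, one_mul, div_self hn0]; norm_num
  rw [h2]
  have h3 : Real.circleAverage (Pool.Agent.R328.PM P Q 1) 0 1 ≤ 11 * r * Real.log (2 + r + K) := by
    refine le_trans (le_of_eq ?_) hh
    congr 1
    funext z
    unfold Pool.Agent.R328.PM tc
    rw [pow_one, Polynomial.eval_map, Polynomial.eval_map]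
    rfl
  have h4 : 0 ≤ Real.circleAverage (Pool.Agent.R328.PM P Q 1) 0 1 :=
    Pool.Agent.R328.PM_nonneg hirr.ne_zero (by rw [hMM]; exact hM.le) Q 1
  have hK0 : 0 ≤ K := (norm_nonneg _).trans hK
  have hr0 : (0 : ℝ) ≤ r := Nat.cast_nonneg r
  have hlog : 0 ≤ Real.log (2 + r + K) := Real.log_nonneg (by linarith)
  have h5 : 0 ≤ r * Real.log (2 + r + K) := mul_nonneg hr0 hlog
  rw [Nat.cast_one, div_one, div_div, ← mul_pow]
  apply div_le_div_of_nonneg_left hc.le
  · have : 0 < 2 * (1 + Real.circleAverage (Pool.Agent.R328.PM P Q 1) 0 1) := by linarith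
    positivity
  · apply pow_le_pow_left₀ (by linarith)
    nlinarith

end

end Pool.Agent.U236.BR
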