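import Mathlib
import Pool.Agent.U236.BR5

/-!
# General Euclidean norms
-/

set_option autoImplicit false

namespace Pool.Agent.U236.BR

open Matrix Real Complex Metric Polynomial
open scoped Matrix.Norms.L2Operator InnerProductSpace

noncomputable section

variable {n : ℕ}

/-- The Euclidean norm of `S x`. -/
def fn (S : Matrix (Fin n) (Fin n) ℂ) (x : Fin n → ℂ) : ℝ := √(∑ i, ‖(S *ᵥ x) i‖ ^ 2)

theorem conj_norm {S M : Matrix (Fin n) (Fin n) ℂ} (hS : S.det ≠ 0) {K : ℝ} (hK : 0 ≤ K)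
    (h : ∀ x : Fin n → ℂ, fn S (M *ᵥ x) ≤ K * fn S x) : ‖S * M * S⁻¹‖ ≤ K := by
  have hu : IsUnit S.det := isUnit_iff_ne_zero.mpr hS
  have h0 : ‖S * M * S⁻¹‖ = ‖op (S * M * S⁻¹)‖ := rfl
  rw [h0]
  refine ContinuousLinearMap.opNorm_le_bound _ hK fun y => ?_
  have h1 := h (S⁻¹ *ᵥ y.ofLp)
  have e1 : fn S (M *ᵥ (S⁻¹ *ᵥ y.ofLp)) = ‖op (S * M * S⁻¹) y‖ := by
    rw [EuclideanSpace.norm_eq]
    unfold fn
    congr 1
    refine Finset.sum_congr rfl fun i _ => ?_
    congr 2
    rw [op_apply, Matrix.mulVec_mulVec, Matrix.mulVec_mulVec]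
    rfl
  have e2 : fn S (S⁻¹ *ᵥ y.ofLp) = ‖y‖ := by
    rw [EuclideanSpace.norm_eq]
    unfold fn
    rw [Matrix.mulVec_mulVec, Matrix.mul_nonsing_inv _ hu, Matrix.one_mulVec]
  rw [e1, e2] at h1
  exact h1

theorem conj_charpoly {S : Matrix (Fin n) (Fin n) ℂ} (hS : S.det ≠ 0)
    (M : Matrix (Fin n) (Fin n) ℂ) : (S * M * S⁻¹).charpoly = M.charpoly := by
  have hu : IsUnit S := (Matrix.isUnit_iff_isUnit_det S).mpr (isUnit_iff_ne_zero.mpr hS)
  obtain ⟨U, rfl⟩ := hu
  exact Matrix.charpoly_units_conj U M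

theorem conj_rank {S : Matrix (Fin n) (Fin n) ℂ} (hS : S.det ≠ 0)
    (M : Matrix (Fin n) (Fin n) ℂ) : (S * M * S⁻¹).rank = M.rank := by
  have hu : IsUnit S.det := isUnit_iff_ne_zero.mpr hS
  rw [Matrix.rank_mul_eq_left_of_isUnit_det _ _ (Matrix.isUnit_nonsing_inv_det S hu),
    Matrix.rank_mul_eq_right_of_isUnit_det _ _ hu]

/-- `A` and `C` have integral characteristic polynomials, `rank (A - C) ≤ r`, and in some
Euclidean norm `C` is a contraction and `A - C` has norm at most `K`. -/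
def Near (r : ℕ) (K : ℝ) (A C : Matrix (Fin n) (Fin n) ℂ) : Prop :=
  (∃ P : ℤ[X], P.map (Int.castRingHom ℂ) = A.charpoly) ∧
  (∃ Q : ℤ[X], Q.map (Int.castRingHom ℂ) = C.charpoly) ∧ (A - C).rank ≤ r ∧
  ∃ S : Matrix (Fin n) (Fin n) ℂ, S.det ≠ 0 ∧ (∀ x : Fin n → ℂ, fn S (C *ᵥ x) ≤ fn S x) ∧
    ∀ x : Fin n → ℂ, fn S ((A - C) *ᵥ x) ≤ K * fn S x

theorem gap_near (r : ℕ) (K : ℝ) (hK : 0 ≤ K) : ∃ μ : ℝ, 1 < μ ∧
    ∀ (n : ℕ) (A C : Matrix (Fin n) (Fin n) ℂ), Near r K A C →
      A.charpoly.mahlerMeasure = 1 ∨ μ ≤ A.charpoly.mahlerMeasure := by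
  obtain ⟨μ, hμ, h⟩ := gap r K
  refine ⟨μ, hμ, ?_⟩
  rintro n A C ⟨⟨P, hP⟩, ⟨Q, hQ⟩, hr, S, hS, hC, hAC⟩
  have h1 := h n (S * A * S⁻¹) (S * C * S⁻¹) P Q (conj_norm hS zero_le_one (by simpa using hC))
    (by rw [← Matrix.sub_mul, ← Matrix.mul_sub, conj_rank hS]; exact hr)
    (by rw [← Matrix.sub_mul, ← Matrix.mul_sub]; exact conj_norm hS hK hAC)
    (by rw [conj_charpoly hS]; exact hP) (by rw [conj_charpoly hS]; exact hQ)
  rwa [conj_charpoly hS] at h1

theorem irr_near : ∃ c : ℝ, 0 < c ∧ ∀ (r : ℕ) (K : ℝ), 0 ≤ K →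
    ∀ (n : ℕ) (A C : Matrix (Fin n) (Fin n) ℂ), Near r K A C →
    (∃ P : ℤ[X], P.map (Int.castRingHom ℂ) = A.charpoly ∧ Irreducible P) →
    1 < A.charpoly.mahlerMeasure →
    c / (1 + r * Real.log (2 + r + K)) ^ 3 ≤ Real.log A.charpoly.mahlerMeasure := by
  obtain ⟨c, hc, h⟩ := irr
  refine ⟨c, hc, ?_⟩
  rintro r K hK n A C ⟨_, ⟨Q, hQ⟩, hr, S, hS, hC, hAC⟩ ⟨P, hP, hirr⟩ hM
  have h1 := h r K n (S * A * S⁻¹) (S * C * S⁻¹) P Q
    (conj_norm hS zero_le_one (by simpa using hC))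
    (by rw [← Matrix.sub_mul, ← Matrix.mul_sub, conj_rank hS]; exact hr)
    (by rw [← Matrix.sub_mul, ← Matrix.mul_sub]; exact conj_norm hS hK hAC)
    (by rw [conj_charpoly hS]; exact hP) (by rw [conj_charpoly hS]; exact hQ) hirr
    (by rw [conj_charpoly hS]; exact hM)
  rwa [conj_charpoly hS] at h1

/-! ### partial fractions -/

theorem frac_near {f g : ℤ[X]} (hf : f.Monic) (hg : g.Monic) (hdeg : f.natDegree = g.natDegree)
    (hsep : (g.map (Int.castRingHom ℂ)).Separable)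
    (hdisc : ∀ z : ℂ, (g.map (Int.castRingHom ℂ)).eval z = 0 → ‖z‖ ≤ 1) {K : ℝ}
    (hK : ∑ z ∈ (g.map (Int.castRingHom ℂ)).roots.toFinset,
      ‖(f.map (Int.castRingHom ℂ)).eval z‖ /
        ‖(derivative (g.map (Int.castRingHom ℂ))).eval z‖ ≤ K) :
    ∃ A C : Matrix (Fin g.natDegree) (Fin g.natDegree) ℂ, Near 1 K A C ∧
      A.charpoly = f.map (Int.castRingHom ℂ) := by
  classical
  set n := g.natDegree with hn
  set F : ℂ[X] := f.map (Int.castRingHom ℂ) with hF
  set G : ℂ[X] := g.map (Int.castRingHom ℂ) with hG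
  have hGm : G.Monic := hg.map _
  have hFm : F.Monic := hf.map _
  have hGd : G.natDegree = n := hg.natDegree_map _
  have hFd : F.natDegree = n := by rw [hF, hf.natDegree_map, hdeg]
  have hnod : G.roots.Nodup := nodup_roots hsep
  have hcard : G.roots.toFinset.card = n := by
    rw [Multiset.toFinset_card_of_nodup hnod, ← hGd]
    exact (IsAlgClosed.splits G).natDegree_eq_card_roots.symm
  let e : Fin n ≃ G.roots.toFinset := (Finset.equivFinOfCardEq hcard).symm
  set ζ : Fin n → ℂ := fun i => (e i : ℂ) with hζ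
  have hζinj : Function.Injective ζ := fun i j h => e.injective (Subtype.ext h)
  have hζroot : ∀ i, G.eval (ζ i) = 0 := by
    intro i
    have h1 := (e i).2
    rw [Multiset.mem_toFinset] at h1
    exact (mem_roots'.mp h1).2
  have hGprod : G = Lagrange.nodal Finset.univ ζ := by
    rw [Lagrange.nodal_eq]
    have h1 := (IsAlgClosed.splits G).eq_prod_roots
    rw [hGm.leadingCoeff, C_1, one_mul] at h1
    rw [h1]
    have h2 : (G.roots.map fun a => X - C a).prod = ∏ z ∈ G.roots.toFinset, (X - C z) := by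
      rw [Finset.prod, Multiset.toFinset_val, hnod.dedup]
    rw [h2, ← Finset.prod_coe_sort, ← Equiv.prod_comp e]
  set a : Fin n → ℂ := fun i => F.eval (ζ i) / (derivative G).eval (ζ i) with ha
  have hsum : ∑ i, ‖a i‖ ≤ K := by
    refine le_trans (le_of_eq ?_) hK
    have hs1 := Finset.sum_coe_sort G.roots.toFinset
      (fun z => ‖F.eval z‖ / ‖(derivative G).eval z‖)
    rw [← hs1, ← Equiv.sum_comp e]
    refine Finset.sum_congr rfl fun i _ => ?_
    rw [ha]
    exact norm_div _ _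
  set w : Fin n → ℂ := fun i => ((√‖a i‖ : ℝ) : ℂ) with hw
  set v : Fin n → ℂ := fun i => -(a i) / ((√‖a i‖ : ℝ) : ℂ) with hv
  have hwv : ∀ i, v i * w i = -(a i) := by
    intro i
    by_cases h0 : a i = 0
    · simp [hv, hw, h0]
    · simp only [hv, hw]
      rw [div_mul_cancel₀]
      have : √‖a i‖ ≠ 0 := (Real.sqrt_pos.mpr (norm_pos_iff.mpr h0)).ne'
      exact_mod_cast this
  have hw2 : ∀ i, ‖w i‖ ^ 2 = ‖a i‖ := by
    intro i
    simp only [hw]
    rw [Complex.norm_real, Real.norm_of_nonneg (Real.sqrt_nonneg _), Real.sq_sqrt (norm_nonneg _)]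
  have hv2 : ∀ i, ‖v i‖ ^ 2 = ‖a i‖ := by
    intro i
    simp only [hv]
    rw [norm_div, norm_neg, Complex.norm_real, Real.norm_of_nonneg (Real.sqrt_nonneg _), div_pow,
      Real.sq_sqrt (norm_nonneg _)]
    by_cases h0 : ‖a i‖ = 0
    · rw [h0]; simp
    · field_simp
  have hcharD : (Matrix.diagonal ζ).charpoly = G := by
    rw [Matrix.charpoly_diagonal, hGprod, Lagrange.nodal_eq]
  have hchar : (Matrix.diagonal ζ + Matrix.vecMulVec w v).charpoly = F := by
    have hinj : Set.InjOn ζ (Finset.univ : Finset (Fin n)) := hζinj.injOn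
    have hdegF : (F - G).degree < (Finset.univ : Finset (Fin n)).card := by
      rw [Finset.card_univ, Fintype.card_fin]
      rcases Nat.eq_zero_or_pos n with h0 | h0
      · have e1 : F = 1 := (Polynomial.Monic.natDegree_eq_zero hFm).mp (by rw [hFd, h0])
        have e2 : G = 1 := (Polynomial.Monic.natDegree_eq_zero hGm).mp (by rw [hGd, h0])
        rw [e1, e2, sub_self, degree_zero]
        exact WithBot.bot_lt_coe _
      · have hdeq : F.degree = G.degree := by
          rw [degree_eq_natDegree hFm.ne_zero, degree_eq_natDegree hGm.ne_zero, hFd, hGd]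
        have h1 := Polynomial.degree_sub_lt_left hdeq hFm.ne_zero (by
          rw [hFm.leadingCoeff, hGm.leadingCoeff])
        rwa [degree_eq_natDegree hFm.ne_zero, hFd] at h1
    have hint := Lagrange.eq_interpolate_of_eval_eq (s := Finset.univ) (v := ζ) (f := F - G)
      (r := fun i => F.eval (ζ i)) hinj hdegF (fun i _ => by rw [eval_sub, hζroot, sub_zero])
    apply Polynomial.eq_of_infinite_eval_eq
    apply Set.Infinite.mono (s := {z : ℂ | ∀ i, z ≠ ζ i})
    · intro z hz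
      show _ = _
      have hz' : ∀ i ∈ (Finset.univ : Finset (Fin n)), z ≠ ζ i := fun i _ => hz i
      have hF1 : F.eval z = G.eval z * (1 + ∑ i, a i * (z - ζ i)⁻¹) := by
        have h1 : (F - G).eval z = G.eval z * ∑ i, a i * (z - ζ i)⁻¹ := by
          rw [hint, Lagrange.eval_interpolate_not_at_node _ hz', ← hGprod]
          congr 1
          refine Finset.sum_congr rfl fun i hi => ?_
          rw [Lagrange.nodalWeight_eq_eval_derivative_nodal hi, ← hGprod, ha]
          simp only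
          rw [div_eq_mul_inv]
          ring
        rw [eval_sub] at h1
        rw [mul_add, mul_one, ← h1]
        ring
      have hGz : G.eval z = ∏ i, (z - ζ i) := by
        rw [hGprod, Lagrange.eval_nodal]
      rw [hF1, Matrix.eval_charpoly]
      have hfac : (Matrix.scalar (Fin n)) z - (Matrix.diagonal ζ + Matrix.vecMulVec w v) =
          Matrix.diagonal (fun i => z - ζ i) *
            (1 + Matrix.replicateCol Unit (fun i => -(w i) * (z - ζ i)⁻¹) *
              Matrix.replicateRow Unit v) := by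
        rw [Matrix.mul_add, Matrix.mul_one, ← Matrix.vecMulVec_eq]
        ext i j
        have hi : z - ζ i ≠ 0 := sub_ne_zero.mpr (hz i)
        simp only [Matrix.scalar_apply, Matrix.sub_apply, Matrix.add_apply, Matrix.diagonal_apply,
          Matrix.vecMulVec_apply, Matrix.diagonal_mul]
        by_cases hij : i = j
        · subst hij
          simp only [if_true]
          field_simp
          ring
        · simp only [if_neg hij]
          field_simp
          ring
      rw [hfac, Matrix.det_mul, Matrix.det_diagonal, Matrix.det_one_add_replicateCol_mul_replicateRow,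
        ← hGz]
      congr 2
      rw [dotProduct]
      refine Finset.sum_congr rfl fun i _ => ?_
      have := hwv i
      linear_combination (-(z - ζ i)⁻¹) * this
    · have h1 : {z : ℂ | ∀ i, z ≠ ζ i} = (Set.range ζ)ᶜ := by
        ext z
        simp only [Set.mem_ofPred_eq, Set.mem_compl_iff, Set.mem_range, not_exists]
        exact ⟨fun h i hi => h i hi.symm, fun h i hi => h i hi.symm⟩
      rw [h1]
      exact (Set.finite_range ζ).infinite_compl
  refine ⟨Matrix.diagonal ζ + Matrix.vecMulVec w v, Matrix.diagonal ζ, ?_, hchar⟩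
  have hsub : Matrix.diagonal ζ + Matrix.vecMulVec w v - Matrix.diagonal ζ =
      Matrix.vecMulVec w v := by abel
  refine ⟨⟨f, hchar.symm⟩, ⟨g, hcharD.symm⟩, ?_, 1, by simp, ?_, ?_⟩
  · rw [hsub]
    exact Matrix.rank_vecMulVec_le w v
  · intro x
    unfold fn
    apply Real.sqrt_le_sqrt
    refine Finset.sum_le_sum fun i _ => ?_
    rw [Matrix.one_mulVec, Matrix.one_mulVec, Matrix.mulVec_diagonal, norm_mul]
    have h1 := hdisc (ζ i) (hζroot i)
    have h2 : ‖ζ i‖ * ‖x i‖ ≤ ‖x i‖ := by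
      have := mul_le_mul_of_nonneg_right h1 (norm_nonneg (x i))
      linarith
    exact pow_le_pow_left₀ (by positivity) h2 2
  · intro x
    rw [hsub]
    have hA0 : 0 ≤ ∑ i, ‖a i‖ := Finset.sum_nonneg fun _ _ => norm_nonneg _
    have h1 : fn 1 (Matrix.vecMulVec w v *ᵥ x) ≤ (∑ i, ‖a i‖) * fn 1 x := by
      unfold fn
      rw [← Real.sqrt_sq hA0, ← Real.sqrt_mul (by positivity)]
      apply Real.sqrt_le_sqrt
      simp only [Matrix.one_mulVec]
      have h2 : ∀ i, (Matrix.vecMulVec w v *ᵥ x) i = w i * ∑ j, v j * x j := by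
        intro i
        rw [Matrix.mulVec, dotProduct, Finset.mul_sum]
        refine Finset.sum_congr rfl fun j _ => ?_
        rw [Matrix.vecMulVec_apply]
        ring
      simp only [h2, norm_mul, mul_pow, hw2]
      rw [← Finset.sum_mul]
      have h3 : ‖∑ j, v j * x j‖ ^ 2 ≤ (∑ i, ‖a i‖) * ∑ j, ‖x j‖ ^ 2 := by
        have h4 : ‖∑ j, v j * x j‖ ≤ ∑ j, ‖v j‖ * ‖x j‖ := by
          refine (norm_sum_le _ _).trans (le_of_eq ?_)
          refine Finset.sum_congr rfl fun j _ => norm_mul _ _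
        have h5 : (∑ j, ‖v j‖ * ‖x j‖) ^ 2 ≤ (∑ j, ‖v j‖ ^ 2) * ∑ j, ‖x j‖ ^ 2 :=
          Finset.sum_mul_sq_le_sq_mul_sq _ _ _
        simp only [hv2] at h5
        exact (pow_le_pow_left₀ (norm_nonneg _) h4 2).trans h5
      calc (∑ i, ‖a i‖) * ‖∑ j, v j * x j‖ ^ 2
          ≤ (∑ i, ‖a i‖) * ((∑ i, ‖a i‖) * ∑ j, ‖x j‖ ^ 2) := mul_le_mul_of_nonneg_left h3 hA0
        _ = (∑ i, ‖a i‖) ^ 2 * ∑ j, ‖x j‖ ^ 2 := by ring
    refine h1.trans ?_
    exact mul_le_mul_of_nonneg_right hsum (Real.sqrt_nonneg _)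

end

end Pool.Agent.U236.BR
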