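import Mathlib
import Pool.Agent.U236.MO8

set_option autoImplicit false

namespace Pool.Agent.U236.MO

open Filter Topology Finset Pool.Agent.H304R3.MO

theorem cube_summable : Summable (fun p : Nat.Primes => (((p : ℕ) : ℝ) ^ (-(1/2) : ℝ)) ^ 3) := by
  have h : Summable (fun n : ℕ => (n : ℝ) ^ (-(3/2) : ℝ)) := Real.summable_nat_rpow.2 (by norm_num)
  have h2 := h.comp_injective (i := (fun p : Nat.Primes => (p : ℕ))) Subtype.val_injective
  refine h2.congr fun p => ?_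
  have hp0 : (0 : ℝ) < ((p : ℕ) : ℝ) := by exact_mod_cast p.2.pos
  simp only [Function.comp]
  rw [← Real.rpow_natCast, ← Real.rpow_mul hp0.le]
  norm_num

theorem expo (θ κ η θ' : ℝ) (hη : η = (1 - θ) / 4) (hθ' : θ' = (1 + θ) / 2) (hη0 : 0 < η)
    (hκ : κ ≤ (1 - θ) / 4) : (1 + η) * (θ + κ) ≤ θ' := by
  have h1 : θ = 1 - 4 * η := by linarith
  have h2 : (1 + η) * (θ + κ) ≤ (1 + η) * (1 - 3 * η) :=
    mul_le_mul_of_nonneg_left (by linarith) (by linarith)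
  have h3 : (1 + η) * (1 - 3 * η) = 1 - 2 * η - 3 * η ^ 2 := by ring
  have h4 : 0 ≤ η ^ 2 := sq_nonneg η
  linarith

theorem core4 (f : ℕ → ℂ) (h1 : f 1 = 1)
    (hmul : ∀ m n : ℕ, 1 ≤ m → 1 ≤ n → Nat.Coprime m n → f (m * n) = f m * f n) (B : ℝ)
    (hB0 : 0 ≤ B) (hB : ∀ n : ℕ, 1 ≤ n → ‖f n‖ ≤ B * (n : ℝ) ^ (-(1/2) : ℝ))
    (h0 : Tendsto (fun N : ℕ => ∑ k ∈ Icc 1 N, f k) atTop (𝓝 0))
    (hS : Summable (fun n : ℕ => ‖∑ k ∈ Icc 1 n, f k‖ / n))
    (hloc : ∀ p : ℕ, p.Prime →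
      ∃ L : ℂ, L ≠ 0 ∧ Tendsto (fun K : ℕ => ∑ k ∈ range K, f (p ^ k)) atTop (𝓝 L))
    (θ C κ : ℝ) (hθ0 : 0 ≤ θ) (hθ : θ < 1) (hκ0 : 0 ≤ κ) (hκ : κ ≤ (1 - θ) / 4)
    (hfκ : ∀ᶠ n : ℕ in atTop, ‖f n‖ ≤ κ * (n : ℝ) ^ (-(1/2) : ℝ))
    (hsum : ∀ s : ℝ, 0 < s → s ≤ 1 → ∀ T : Finset Nat.Primes,
      ∑ p ∈ T, ‖f p‖ * ((p : ℕ) : ℝ) ^ (-s) ≤ θ * Real.log (1 / s) + C) : False := by
  have hL : ∀ p : ℕ, p.Prime → ∑' e : ℕ, f (p ^ e) ≠ 0 := by
    intro p hp
    obtain ⟨L, hL0, hL⟩ := hloc p hp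
    have hs := (loc_sum2 f 0 le_rfl B hB0 hB p hp 0).1.of_norm
    have e : (fun e : ℕ => tw f 0 (p ^ (e + 0))) = fun e : ℕ => f (p ^ e) := by
      funext e
      unfold tw
      simp
    rw [e] at hs
    rw [tendsto_nhds_unique hs.hasSum.tendsto_sum_nat hL]
    exact hL0
  set η : ℝ := (1 - θ) / 4 with hη
  have hη0 : 0 < η := by rw [hη]; linarith
  have hsmall : ∀ᶠ n : ℕ in atTop, 6 * B * (n : ℝ) ^ (-(1/2) : ℝ) ≤ η / 2 := by
    have h2 : Tendsto (fun n : ℕ => 6 * B * (n : ℝ) ^ (-(1/2) : ℝ)) atTop (𝓝 (6 * B * 0)) :=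
      ((tendsto_rpow_neg_atTop (by norm_num : (0 : ℝ) < 1 / 2)).comp
        tendsto_natCast_atTop_atTop).const_mul _
    rw [mul_zero] at h2
    exact h2.eventually (eventually_le_nhds (by linarith))
  obtain ⟨P0, hP0⟩ := eventually_atTop.1 (hsmall.and hfκ)
  have hfin : {p : Nat.Primes | (p : ℕ) < P0}.Finite :=
    (Set.finite_Iio P0).preimage Subtype.val_injective.injOn
  set A : Finset Nat.Primes := hfin.toFinset with hA
  have hlarge : ∀ p : Nat.Primes, p ∉ A → P0 ≤ (p : ℕ) := by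
    intro p hp
    exact Nat.le_of_not_lt fun h => hp (hfin.mem_toFinset.2 h)
  set cA : ℝ := ∏ p ∈ A, (‖∑' e : ℕ, f ((p : ℕ) ^ e)‖ / 2) with hcA
  have hcA0 : 0 < cA := Finset.prod_pos fun p _ => by
    have := norm_pos_iff.2 (hL p p.2)
    linarith
  have hevA : ∀ᶠ s : ℝ in 𝓝[>] 0, ∀ p ∈ A, ‖∑' e : ℕ, f ((p : ℕ) ^ e)‖ / 2 ≤ ‖loc f s p‖ := by
    rw [Filter.eventually_all_finset]
    intro p _
    have h2 := (loc_tendsto2 f B hB0 hB p p.2).norm
    have h3 := norm_pos_iff.2 (hL p p.2)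
    exact h2.eventually (eventually_ge_nhds (by linarith))
  have hsq := cube_summable
  set W : ℝ := ∑' p : Nat.Primes, (((p : ℕ) : ℝ) ^ (-(1/2) : ℝ)) ^ 3 with hW
  have hWT : ∀ T : Finset Nat.Primes, ∑ p ∈ T, (((p : ℕ) : ℝ) ^ (-(1/2) : ℝ)) ^ 3 ≤ W := fun T =>
    hsq.sum_le_tsum _ (fun p _ => by positivity)
  set θ' : ℝ := (1 + θ) / 2 with hθ'
  have hθ'1 : θ' < 1 := by rw [hθ']; linarith
  set Kc : ℝ := (1 + η) * (C + κ * Real.log 2 + 4 * B * W) with hKc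
  set C0 : ℝ := cA * Real.exp (-Kc) with hC0
  have hC0pos : 0 < C0 := by rw [hC0]; positivity
  set Z : ℝ := ∑' n : ℕ, ‖∑ k ∈ Icc 1 n, f k‖ / n with hZ
  have hmain : ∀ᶠ s : ℝ in 𝓝[>] 0, C0 ≤ Z * s ^ (1 - θ') := by
    have hev1 : ∀ᶠ s : ℝ in 𝓝[>] 0, s ≤ 1 := by
      have : ∀ᶠ s : ℝ in 𝓝 0, s ≤ 1 := eventually_le_nhds (by norm_num)
      exact this.filter_mono nhdsWithin_le_nhds
    filter_upwards [hevA, self_mem_nhdsWithin, hev1] with s hsA hs0 hs1
    have hs : 0 < s := hs0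
    have hlog : 0 ≤ Real.log (1 / s) := Real.log_nonneg (by rw [le_div_iff₀ hs]; linarith)
    have hlog2 : Real.log (2 / s) = Real.log 2 + Real.log (1 / s) := by
      rw [← Real.log_mul (by norm_num) (by positivity)]
      congr 1
      ring
    have hsumm : Summable (fun n => ‖tw f s n‖) := by
      refine abs_summable f h1 hmul s hs B hB0 hB
        ((θ * Real.log (1 / s) + C) + B * Real.log (2 / s) + 4 * B * W) fun T => ?_
      have h2 : ∀ p ∈ T, ∑' e : ℕ, ‖tw f s ((p : ℕ) ^ (e + 1))‖ ≤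
          ‖f p‖ * ((p : ℕ) : ℝ) ^ (-s) + B * ((p : ℕ) : ℝ) ^ (-(1 + s)) +
            4 * B * (((p : ℕ) : ℝ) ^ (-(1/2) : ℝ)) ^ 3 := by
        intro p _
        have h3 := (loc_sum2 f s hs.le B hB0 hB p p.2 1).1
        have h4 := h3.sum_add_tsum_nat_add 2
        have h5 := (loc_sum2 f s hs.le B hB0 hB p p.2 3).2
        have h6 := sq_bound f s hs.le B hB0 p p.2 (hB _ (Nat.one_le_pow _ _ p.2.pos))
        have h7 : ‖tw f s (p : ℕ)‖ = ‖f p‖ * ((p : ℕ) : ℝ) ^ (-s) := tw_norm f s p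
        rw [← h4, Finset.sum_range_succ, Finset.sum_range_one]
        simp only [zero_add, pow_one]
        rw [h7]
        have h8 : ∑' e : ℕ, ‖tw f s ((p : ℕ) ^ (e + 2 + 1))‖ = ∑' e : ℕ, ‖tw f s ((p : ℕ) ^ (e + 3))‖ := rfl
        rw [h8]
        have h9 : ‖tw f s ((p : ℕ) ^ (1 + 1))‖ = ‖tw f s ((p : ℕ) ^ 2)‖ := rfl
        rw [h9]
        linarith
      refine (Finset.sum_le_sum h2).trans ?_
      rw [Finset.sum_add_distrib, Finset.sum_add_distrib, ← Finset.mul_sum, ← Finset.mul_sum]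
      have h10 := mul_le_mul_of_nonneg_left (sumP s hs hs1 T) hB0
      have h11 := mul_le_mul_of_nonneg_left (hWT T) (by positivity : 0 ≤ 4 * B)
      have h12 := hsum s hs hs1 T
      linarith
    have hprod := EulerProduct.eulerProduct_hasProd (f := tw f s) (tw_one f s h1)
      (fun {m n} h => tw_mul f s hs h1 hmul h) hsumm (tw_zero f s hs)
    have hloc2 : ∀ p : Nat.Primes, P0 ≤ (p : ℕ) →
        Real.exp (-((1 + η) * (‖f p‖ * ((p : ℕ) : ℝ) ^ (-s) + κ * ((p : ℕ) : ℝ) ^ (-(1 + s)) +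
          4 * B * (((p : ℕ) : ℝ) ^ (-(1/2) : ℝ)) ^ 3))) ≤ ‖∑' e, tw f s ((p : ℕ) ^ e)‖ := by
      intro p hpP
      obtain ⟨x0, x1⟩ := half_bound p p.2
      set x : ℝ := ((p : ℕ) : ℝ) ^ (-(1/2) : ℝ) with hx
      have hl : Summable (fun e : ℕ => tw f s ((p : ℕ) ^ e)) := by
        simpa using (loc_sum2 f s hs.le B hB0 hB p p.2 0).1.of_norm
      have h4 := hl.sum_add_tsum_nat_add 3
      have h5s := (loc_sum2 f s hs.le B hB0 hB p p.2 3).1
      have h5 := (norm_tsum_le_tsum_norm h5s).trans (loc_sum2 f s hs.le B hB0 hB p p.2 3).2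
      have h6a := tw_pow2 f s hs.le B hB p p.2 1
      have h6b := tw_pow2 f s hs.le B hB p p.2 2
      rw [← hx] at h5 h6a h6b
      have hp2 : P0 ≤ (p : ℕ) ^ 2 := hpP.trans (Nat.le_self_pow (by norm_num) _)
      have h7 := sq_bound f s hs.le κ hκ0 p p.2 (hP0 _ hp2).2
      have h8 := (hP0 _ hpP).1
      rw [← hx] at h8
      have hx2 : x ^ 2 ≤ x := pow_le_of_le_one x0.le (by linarith) (by norm_num)
      have hx3 : x ^ 3 ≤ x := pow_le_of_le_one x0.le (by linarith) (by norm_num)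
      have h9 : ‖tw f s (p : ℕ)‖ = ‖f p‖ * ((p : ℕ) : ℝ) ^ (-s) := tw_norm f s p
      rw [pow_one, pow_one] at h6a
      set a : ℝ := ‖tw f s (p : ℕ)‖ with ha
      set b : ℝ := ‖tw f s ((p : ℕ) ^ 2)‖ with hb
      set y : ℝ := a + b + 4 * B * x ^ 3 with hy
      have hy0 : 0 ≤ y := by rw [hy]; positivity
      have hBx2 := mul_le_mul_of_nonneg_left hx2 hB0
      have hBx3 := mul_le_mul_of_nonneg_left hx3 hB0
      have hy1 : y ≤ η / 2 := by
        rw [hy]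
        linarith
      have hη1 : η ≤ 1 / 4 := by rw [hη]; linarith
      have hlow : 1 - y ≤ ‖∑' e, tw f s ((p : ℕ) ^ e)‖ := by
        rw [← h4, Finset.sum_range_succ, Finset.sum_range_succ, Finset.sum_range_one, pow_zero,
          tw_one f s h1, pow_one]
        set t : ℂ := ∑' e : ℕ, tw f s ((p : ℕ) ^ (e + 3)) with ht
        have h10 : (1 : ℂ) = (1 + tw f s (p : ℕ) + tw f s ((p : ℕ) ^ 2) + t) -
            (tw f s (p : ℕ) + tw f s ((p : ℕ) ^ 2) + t) := by ring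
        have h11 : ‖(1 : ℂ)‖ ≤ ‖1 + tw f s (p : ℕ) + tw f s ((p : ℕ) ^ 2) + t‖ + (a + b + ‖t‖) := by
          calc ‖(1 : ℂ)‖ = ‖(1 + tw f s (p : ℕ) + tw f s ((p : ℕ) ^ 2) + t) -
            (tw f s (p : ℕ) + tw f s ((p : ℕ) ^ 2) + t)‖ := by rw [← h10]
            _ ≤ _ := (norm_sub_le _ _).trans (add_le_add le_rfl norm_add₃_le)
        rw [norm_one] at h11
        rw [hy]
        linarith
      refine le_trans ?_ ((exp_low y hy0 (by linarith)).trans hlow)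
      apply Real.exp_le_exp.2
      have h12 : y + 2 * y ^ 2 ≤ (1 + η) * y := by
        have e1 := mul_le_mul_of_nonneg_left (by linarith : 2 * y ≤ η) hy0
        have e2 : y + 2 * y ^ 2 = y + y * (2 * y) := by ring
        have e3 : (1 + η) * y = y + y * η := by ring
        rw [e2, e3]
        linarith
      have h13 : y ≤ ‖f p‖ * ((p : ℕ) : ℝ) ^ (-s) + κ * ((p : ℕ) : ℝ) ^ (-(1 + s)) + 4 * B * x ^ 3 := by
        rw [hy, h9]
        linarith
      have h14 := mul_le_mul_of_nonneg_left h13 (by linarith : 0 ≤ 1 + η)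
      linarith
    have hlow : C0 * s ^ θ' ≤ ‖∑' n, tw f s n‖ := by
      have ht := hprod.norm
      refine ge_of_tendsto ht ?_
      filter_upwards [eventually_ge_atTop A] with T hT
      rw [← Finset.prod_sdiff hT, mul_comm (∏ p ∈ T \ A, ‖∑' e, tw f s ((p : ℕ) ^ e)‖)]
      have h2 : cA ≤ ∏ p ∈ A, ‖∑' e, tw f s ((p : ℕ) ^ e)‖ :=
        Finset.prod_le_prod (fun p _ => by positivity) (fun p hp => hsA p hp)
      have h3 : Real.exp (-Kc) * s ^ θ' ≤ ∏ p ∈ T \ A, ‖∑' e, tw f s ((p : ℕ) ^ e)‖ := by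
        refine le_trans ?_ (Finset.prod_le_prod (fun p _ => (Real.exp_pos _).le) fun p hp =>
            hloc2 p (hlarge p (Finset.mem_sdiff.1 hp).2))
        rw [← Real.exp_sum, Finset.sum_neg_distrib, ← Finset.mul_sum, Finset.sum_add_distrib,
          Finset.sum_add_distrib, ← Finset.mul_sum, ← Finset.mul_sum]
        have h5 := hsum s hs hs1 (T \ A)
        have h6 := mul_le_mul_of_nonneg_left (sumP s hs hs1 (T \ A)) hκ0
        have h7 := mul_le_mul_of_nonneg_left (hWT (T \ A)) (by positivity : 0 ≤ 4 * B)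
        have h8 : Real.exp (-Kc) * s ^ θ' = Real.exp (-Kc - θ' * Real.log (1 / s)) := by
          rw [Real.rpow_def_of_pos hs, ← Real.exp_add, one_div, Real.log_inv]
          congr 1
          ring
        rw [h8]
        apply Real.exp_le_exp.2
        rw [hlog2] at h6
        have h9 : ∑ p ∈ T \ A, ‖f p‖ * ((p : ℕ) : ℝ) ^ (-s) +
            κ * ∑ p ∈ T \ A, ((p : ℕ) : ℝ) ^ (-(1 + s)) +
            4 * B * ∑ p ∈ T \ A, (((p : ℕ) : ℝ) ^ (-(1/2) : ℝ)) ^ 3 ≤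
            (θ + κ) * Real.log (1 / s) + (C + κ * Real.log 2 + 4 * B * W) := by
          linarith
        have h10 := mul_le_mul_of_nonneg_left h9 (by linarith : 0 ≤ 1 + η)
        have h11 : (1 + η) * (θ + κ) ≤ θ' := expo θ κ η θ' hη hθ' hη0 hκ
        have h12 := mul_le_mul_of_nonneg_right h11 hlog
        rw [hKc]
        linarith
      calc C0 * s ^ θ' = cA * (Real.exp (-Kc) * s ^ θ') := by
            rw [hC0]; ring
        _ ≤ _ := mul_le_mul h2 h3 (by positivity)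
            (Finset.prod_nonneg fun p _ => norm_nonneg _)
    have hup := upper3 f s hs hsumm h0 hS
    have h5 : C0 * s ^ θ' ≤ Z * s := hlow.trans hup
    have h6 : 0 < s ^ θ' := Real.rpow_pos_of_pos hs _
    have h7 : Z * s ^ (1 - θ') * s ^ θ' = Z * s := by
      rw [mul_assoc, ← Real.rpow_add hs]
      simp
    rw [← h7] at h5
    exact le_of_mul_le_mul_right h5 h6
  have hlim : Tendsto (fun s : ℝ => Z * s ^ (1 - θ')) (𝓝[>] 0) (𝓝 0) := by
    have h2 : Tendsto (fun s : ℝ => s ^ (1 - θ')) (𝓝[>] 0) (𝓝 0) := by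
      have h3 := (Real.continuousAt_rpow_const 0 (1 - θ') (Or.inr (by linarith))).tendsto
      rw [Real.zero_rpow (by linarith)] at h3
      exact h3.mono_left nhdsWithin_le_nhds
    have h4 := h2.const_mul Z
    simpa using h4
  have := ge_of_tendsto hlim hmain
  linarith

end Pool.Agent.U236.MO
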