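import Pool.Agent.N794.CG.Eng
import Pool.Agent.R318.PR.FinB

/-!
# The density of the primes with a given primitive root, for almost all members of automatic sets, of random integers with
exchangeable blocks of digits, of families of residues, and of sequences of non-integral order
-/

set_option autoImplicit false

namespace Pool.Agent.U236.AE
open Finset Filter
open Pool.Agent.R459.Eq (Decays)
open Pool.Agent.N794.CG
open Pool.Agent.H730R2.AA (cnt dens)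
open Pool.Agent.H386R2.Artin (artinC)

/-- as `Eng`, with a constant and a threshold which depend on the parameter -/
def EngP {S : Type} (Q : S → ℕ → ℤ → Prop) : Prop :=
  ∀ b : ℕ, 2 ≤ b → ∀ (A : ℕ) (γ : ℝ), 0 < γ → γ < 1 → ∃ W : ℕ, 1 ≤ W ∧
    ∀ (F : ℕ) (κ : ℤ), 1 ≤ F → κ ≠ 0 → ∀ s : S, ∃ (C : ℝ) (X₀ : ℕ), 0 < C ∧ 2 ≤ X₀ ∧ ∀ X : ℕ, X₀ ≤ X →
    ∀ (k : ℕ) (Λ : ℝ) (ι : Type) (Ω : Finset ι) (w : ι → ℝ) (v : ι → ℤ), Dom b F A k γ κ Λ Ω w v →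
    Mostly Ω w v (Λ * (C * (Real.log X / X))) (fun n => ∀ x : ℕ, X ≤ x → x ^ W ≤ b ^ k → Q s x n)

lemma tau_nonneg (C : ℝ) (hC : 0 < C) (X : ℕ) : 0 ≤ C * (Real.log X / X) :=
  mul_nonneg hC.le (div_nonneg (Real.log_natCast_nonneg X) (Nat.cast_nonneg X))

section
variable {S : Type} {Q : S → ℕ → ℤ → Prop}

/-- random integers whose blocks of digits can be exchanged -/
theorem p_flex (H : EngP Q) (b L : ℕ) (hb : 2 ≤ b) (hL : 1 ≤ L) (η : ℝ) (hη0 : 0 < η) (hη1 : η ≤ 1)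
    (T : ℕ) : ∃ W : ℕ, 1 ≤ W ∧ ∀ κ : ℤ, κ ≠ 0 → ∀ s : S, ∃ (C : ℝ) (X₀ : ℕ), ∀ X : ℕ, X₀ ≤ X → ∀ (k : ℕ) (p : ℕ → ℝ),
      Pool.Agent.N625.PT.Flex b L η T k p → ∀ (c : ℤ),
      Mostly (range (b ^ k)) p (fun v => c + κ * (v : ℕ)) ((k : ℝ) ^ T * (C * (Real.log X / X)))
        (fun n => ∀ x : ℕ, X ≤ x → x ^ W ≤ b ^ k → Q s x n) := by
  obtain ⟨A, γ, hγ0, hγ1, hdom⟩ := flex_dom b L hb hL η hη0 hη1 T
  obtain ⟨W, hW, J⟩ := H b hb A γ hγ0 hγ1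
  refine ⟨W, hW, fun κ hκ s => ?_⟩
  obtain ⟨C, X₀, hC, hX₀, K⟩ := J (b.factorial * (b ^ L).factorial) κ (Nat.mul_pos (Nat.factorial_pos _) (Nat.factorial_pos _)) hκ s
  refine ⟨C, X₀, fun X hX k p hp c => ?_⟩
  rcases Nat.eq_zero_or_pos k with h0 | h0
  · refine Mostly.of_all (mul_nonneg (by positivity) (tau_nonneg C hC X)) fun n x hXx hxW => ?_
    rw [h0, pow_zero] at hxW
    have := vac W X x (by omega) hW hXx
    omega
  · exact K X (by omega) k _ _ _ _ _ (hdom k h0 p hp κ c)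

/-- automatic sets -/
theorem p_aut (H : EngP Q) {σ : Type} [Fintype σ] (b : ℕ) (hb : 2 ≤ b) (M : DFA ℕ σ)
    (hS : ∀ k : ℕ, ∃ᶠ N : ℕ in atTop, Real.log N ^ k < ((mem b M N).card : ℝ)) : ∃ W e : ℕ, 1 ≤ W ∧
    ∀ κ : ℤ, κ ≠ 0 → ∀ s : S, ∃ (C : ℝ) (X₀ : ℕ), ∀ X : ℕ, X₀ ≤ X → ∀ (N : ℕ) (c : ℤ),
      Mostly (mem b M N) (fun _ => 1 / ((mem b M N).card : ℝ)) (fun v => c + κ * (v : ℕ)) (Real.log N ^ e * (C * (Real.log X / X)))
        (fun n => ∀ x : ℕ, X ≤ x → x ^ W ≤ N → Q s x n) := by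
  obtain ⟨B, A, e, N₀, hB, hdom⟩ := aut_dom b hb M (fun k => (hS k).mono fun N hN => by
    rw [acc_mem]
    exact hN)
  obtain ⟨W, hW, J⟩ := H B hB A (1 / 2) (by norm_num) (by norm_num)
  refine ⟨W, e, hW, fun κ hκ s => ?_⟩
  obtain ⟨C, X₀, hC, hX₀, K⟩ := J B.factorial κ (Nat.factorial_pos _) hκ s
  refine ⟨C, X₀ + N₀, fun X hX N c => ?_⟩
  rcases Nat.lt_or_ge N N₀ with h0 | h0
  · refine Mostly.of_all (mul_nonneg (pow_nonneg (Real.log_natCast_nonneg N) e) (tau_nonneg C hC X)) fun n x hXx hxW => ?_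
    have := vac W X x (by omega) hW hXx
    omega
  · refine (K X (by omega) _ _ _ _ _ _ (hdom N h0 κ c)).mono fun n hn x hXx hxW => hn x hXx ?_
    exact hxW.trans (Nat.lt_pow_succ_log_self (by omega) N).le

/-- families of residues with small Fourier coefficients -/
theorem p_res (H : EngP Q) : ∃ W : ℕ, 1 ≤ W ∧ ∀ κ : ℤ, κ ≠ 0 → ∀ s : S, ∃ (C : ℝ) (X₀ : ℕ), ∀ X : ℕ, X₀ ≤ X →
      ∀ (ι : Type) (q : ℕ) [NeZero q] (u : Finset ι) (y : ι → ZMod q) (Z : ℝ), 0 < Z → Z ≤ q →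
      Pool.Agent.N384.MQ.Flat q (1 / (Z * (42 + 3 * Real.log q))) u y → ∀ (c₀ : ℤ),
      Mostly u (fun _ => 1 / (u.card : ℝ)) (fun i => c₀ + κ * ((y i).val : ℕ)) (C * (Real.log X / X))
        (fun n => ∀ x : ℕ, X ≤ x → (x : ℝ) ^ W ≤ Z → Q s x n) := by
  obtain ⟨W, hW, J⟩ := H 2 le_rfl 5 (1 / 2) (by norm_num) (by norm_num)
  refine ⟨2 * W, by omega, fun κ hκ s => ?_⟩
  obtain ⟨C, X₀, hC, hX₀, K⟩ := J 1 κ le_rfl hκ s
  refine ⟨C, X₀, fun X hX ι q _ u y Z hZ hZq hfl c₀ => ?_⟩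
  rcases lt_or_ge Z 2 with h0 | h0
  · refine Mostly.of_all (tau_nonneg C hC X) fun n x hXx hxW => ?_
    have h1 := vac (2 * W) X x (by omega) (by omega) hXx
    have h2 : (2 : ℝ) ≤ (x : ℝ) ^ (2 * W) := by exact_mod_cast (by omega : 2 ≤ x ^ (2 * W))
    linarith
  rcases u.eq_empty_or_nonempty with hu | hu
  · intro E hE _
    rw [hu, subset_empty] at hE
    rw [hE, sum_empty]
    exact tau_nonneg C hC X
  obtain ⟨k, hk⟩ : ∃ k, k = Nat.log 2 ⌊Z⌋₊ := ⟨_, rfl⟩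
  have hsc : Scale k Z := by
    rw [hk]
    exact scale_of Z (by linarith)
  have hk1 : 1 ≤ k := by
    by_contra hcon
    have h1 : k = 0 := by omega
    have h2 := hsc.high
    rw [h1] at h2
    norm_num at h2
    linarith
  have hq0 : 0 ≤ Real.log q := Real.log_natCast_nonneg q
  have hdec := Pool.Agent.N384.MQ.decays_fam u hu y (Z * (42 + 3 * Real.log q)) Z (by positivity) hfl hZq le_rfl k
    hsc.low c₀ κ
  have h1 := K X (by omega) k 1 ι u (fun _ => 1 / (u.card : ℝ)) (fun i => c₀ + κ * ((y i).val : ℕ)) (dom_of_decays hdec)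
  rw [one_mul] at h1
  exact h1.mono fun n hn x hXx hxW => hn x hXx (scale_change W x k Z hk1 hsc.high hxW)

/-- values of functions of non-integral order -/
theorem p_sv (H : EngP Q) (c : ℝ) (f : ℝ → ℝ) (hc : 0 < c) (hn : ∀ m : ℕ, c ≠ m)
    (hf : Pool.Agent.N193.PS.SmoothlyVarying c f) : ∃ W : ℕ, 1 ≤ W ∧ ∀ κ : ℤ, κ ≠ 0 → ∀ s : S, ∃ (C : ℝ) (X₀ : ℕ),
      ∀ X : ℕ, X₀ ≤ X → ∀ (M : ℕ) (c₀ : ℤ),
      Mostly (Icc 1 M) (fun _ => 1 / (M : ℝ)) (fun n => c₀ + κ * (⌊f n⌋₊ : ℕ)) (C * (Real.log X / X))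
        (fun n => ∀ x : ℕ, X ≤ x → (x : ℝ) ^ W ≤ f M → Q s x n) := by
  obtain ⟨A, X₁, hdec⟩ := sv_dom c f hc hn hf
  obtain ⟨W, hW, J⟩ := H 2 le_rfl A (1 / 2) (by norm_num) (by norm_num)
  refine ⟨2 * W, by omega, fun κ hκ s => ?_⟩
  obtain ⟨C, X₀, hC, hX₀, K⟩ := J 1 κ le_rfl hκ s
  refine ⟨C, X₀ + X₁ + 2, fun X hX M c₀ => ?_⟩
  rcases lt_or_ge (f M) (X₁ + 2 : ℕ) with h0 | h0
  · refine Mostly.of_all (tau_nonneg C hC X) fun n x hXx hxW => ?_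
    have h1 := vac (2 * W) X x (by omega) (by omega) hXx
    have h2 : ((X₁ + 2 : ℕ) : ℝ) ≤ (x : ℝ) ^ (2 * W) := by exact_mod_cast (by omega : X₁ + 2 ≤ x ^ (2 * W))
    linarith
  have hfM : (X₁ : ℝ) ≤ f M := by
    push_cast at h0
    linarith
  have hf2 : (2 : ℝ) ≤ f M := by
    have : (0 : ℝ) ≤ X₁ := Nat.cast_nonneg _
    push_cast at h0
    linarith
  obtain ⟨k, hk⟩ : ∃ k, k = Nat.log 2 ⌊f M⌋₊ := ⟨_, rfl⟩
  have hsc : Scale k (f M) := by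
    rw [hk]
    exact scale_of _ (by linarith)
  have hk1 : 1 ≤ k := by
    by_contra hcon
    have h1 : k = 0 := by omega
    have h2 := hsc.high
    rw [h1] at h2
    norm_num at h2
    linarith
  obtain ⟨_, h1⟩ := hdec M hfM
  have h2 := K X (by omega) k 1 ℕ _ _ _ (dom_of_decays (h1 κ c₀ k hsc.low))
  rw [one_mul] at h2
  exact h2.mono fun n hn x hXx hxW => hn x hXx (scale_change W x k _ hk1 hsc.high hxW)

end

/-- the data: a polynomial with a simple zero, a bound for `D`, and `ε` -/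
structure Par where
  F : Polynomial ℤ
  z : ℂ
  hz : Polynomial.aeval z F = 0
  hz' : Polynomial.aeval z (Polynomial.derivative F) ≠ 0
  H : ℕ
  ε : ℝ
  hε : 0 < ε

/-- the two formulas at `x` -/
def QP (s : Par) (x : ℕ) (n : ℤ) : Prop :=
  (∀ D t : ℤ, Squarefree D → s.F.eval n = D * t ^ 2 →
    |(cnt (s.F.eval n) x : ℝ) - (if D % 4 = 1 then dens D else artinC) * (Nat.primeCounting x : ℝ)| ≤
      s.ε * (Nat.primeCounting x : ℝ)) ∧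
  ∀ D : ℤ, Squarefree D → D % 4 = 1 → D ≠ 1 → D.natAbs ≤ s.H →
    |(cnt (D * (s.F.eval n) ^ 2) x : ℝ) - dens D * (Nat.primeCounting x : ℝ)| ≤ s.ε * (Nat.primeCounting x : ℝ)

/-- from decaying random integers to dominated families -/
theorem engP : EngP QP := by
  classical
  intro b hb A γ hγ0 hγ1
  obtain ⟨W₁, hW₁, H₁⟩ := Pool.Agent.R318.PR.artin_poly_sf b hb A γ hγ0 hγ1
  obtain ⟨W₂, hW₂, H₂⟩ := Pool.Agent.R318.PR.artin_poly_sq b hb A γ hγ0 hγ1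
  refine ⟨max W₁ W₂, hW₁.trans (le_max_left _ _), fun F₀ κ hF₀ hκ s => ?_⟩
  obtain ⟨C₁, X₁, hC₁, hX₁, J₁⟩ := H₁ F₀ κ hF₀ hκ s.F s.z s.hz s.hz' s.ε s.hε
  have h2 : ∀ D : ℤ, ∃ (C : ℝ) (X₀ : ℕ), 0 < C ∧ 2 ≤ X₀ ∧ (Squarefree D ∧ D % 4 = 1 ∧ D ≠ 1 → ∀ (k X : ℕ), X₀ ≤ X →
      ∀ (ι : Type) (Ω : Finset ι) (w : ι → ℝ) (v : ι → ℤ), Decays b F₀ A k γ κ Ω w v → ∀ E : Finset ι, E ⊆ Ω →
      (∀ i ∈ E, ∃ x : ℕ, X ≤ x ∧ x ^ W₂ ≤ b ^ k ∧ s.ε * (Nat.primeCounting x : ℝ) <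
        |(cnt (D * (s.F.eval (v i)) ^ 2) x : ℝ) - dens D * (Nat.primeCounting x : ℝ)|) →
      ∑ i ∈ E, w i ≤ C * (Real.log X / X)) := by
    intro D
    by_cases hD : Squarefree D ∧ D % 4 = 1 ∧ D ≠ 1
    · obtain ⟨C, X₀, h1, h2, h3⟩ := H₂ F₀ κ hF₀ hκ s.F s.z s.hz s.hz' D hD.1 hD.2.1 hD.2.2 s.ε s.hε
      exact ⟨C, X₀, h1, h2, fun _ => h3⟩
    · exact ⟨1, 2, one_pos, le_rfl, fun h => absurd h hD⟩
  choose C₂ X₂ hC₂ hX₂ J₂ using h2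
  obtain ⟨T, hT⟩ : ∃ T : Finset ℤ, T = Icc (-(s.H : ℤ)) s.H := ⟨_, rfl⟩
  refine ⟨C₁ + ∑ D ∈ T, C₂ D, X₁ + ∑ D ∈ T, X₂ D, add_pos_of_pos_of_nonneg hC₁ (sum_nonneg fun D _ => (hC₂ D).le),
    by omega, fun X hX k Λ ι Ω w v hdom => ?_⟩
  have hlog : 0 ≤ Real.log X / X := div_nonneg (Real.log_natCast_nonneg X) (Nat.cast_nonneg X)
  refine hdom _ _ (mul_nonneg (add_nonneg hC₁.le (sum_nonneg fun D _ => (hC₂ D).le)) hlog) ?_
  intro ι' Ω' w' v' hdec E hE hbad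
  have hX2 : ∀ D ∈ T, X₂ D ≤ X := by
    intro D hD
    have h3 : X₂ D ≤ ∑ D ∈ T, X₂ D := single_le_sum (f := X₂) (fun _ _ => Nat.zero_le _) hD
    omega
  have hpow : ∀ (W x : ℕ), W ≤ max W₁ W₂ → X ≤ x → x ^ (max W₁ W₂) ≤ b ^ k → x ^ W ≤ b ^ k := by
    intro W x hW hx h
    have : 2 ≤ X := by omega
    exact (Nat.pow_le_pow_right (by omega) hW).trans h
  obtain ⟨E₁, hE₁⟩ : ∃ E₁ : Finset ι', E₁ = E.filter (fun i => ∃ x : ℕ, X ≤ x ∧ x ^ W₁ ≤ b ^ k ∧ ∃ D t : ℤ, Squarefree D ∧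
      s.F.eval (v' i) = D * t ^ 2 ∧ s.ε * (Nat.primeCounting x : ℝ) <
        |(cnt (s.F.eval (v' i)) x : ℝ) - (if D % 4 = 1 then dens D else artinC) * (Nat.primeCounting x : ℝ)|) := ⟨_, rfl⟩
  obtain ⟨E₂, hE₂⟩ : ∃ E₂ : ℤ → Finset ι', E₂ = fun D => E.filter (fun i => (Squarefree D ∧ D % 4 = 1 ∧ D ≠ 1) ∧
      ∃ x : ℕ, X ≤ x ∧ x ^ W₂ ≤ b ^ k ∧ s.ε * (Nat.primeCounting x : ℝ) <
        |(cnt (D * (s.F.eval (v' i)) ^ 2) x : ℝ) - dens D * (Nat.primeCounting x : ℝ)|) := ⟨_, rfl⟩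
  have hsub : E ⊆ E₁ ∪ T.biUnion E₂ := by
    intro i hi
    have h3 := hbad i hi
    push Not at h3
    obtain ⟨x, hx1, hx2, hx3⟩ := h3
    rw [mem_union, mem_biUnion]
    by_cases h4 : ∀ D t : ℤ, Squarefree D → s.F.eval (v' i) = D * t ^ 2 →
      |(cnt (s.F.eval (v' i)) x : ℝ) - (if D % 4 = 1 then dens D else artinC) * (Nat.primeCounting x : ℝ)| ≤
        s.ε * (Nat.primeCounting x : ℝ)
    · right
      have h5 : ¬ ∀ D : ℤ, Squarefree D → D % 4 = 1 → D ≠ 1 → D.natAbs ≤ s.H →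
        |(cnt (D * (s.F.eval (v' i)) ^ 2) x : ℝ) - dens D * (Nat.primeCounting x : ℝ)| ≤ s.ε * (Nat.primeCounting x : ℝ) :=
        fun h => hx3 ⟨h4, h⟩
      push Not at h5
      obtain ⟨D, d1, d2, d3, d4, d5⟩ := h5
      refine ⟨D, ?_, ?_⟩
      · rw [hT, mem_Icc]
        omega
      · rw [hE₂]
        simp only [mem_filter]
        exact ⟨hi, ⟨d1, d2, d3⟩, x, hx1, hpow W₂ x (le_max_right _ _) hx1 hx2, d5⟩
    · left
      push Not at h4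
      obtain ⟨D, t, d1, d2, d3⟩ := h4
      rw [hE₁, mem_filter]
      exact ⟨hi, x, hx1, hpow W₁ x (le_max_left _ _) hx1 hx2, D, t, d1, d2, d3⟩
  have hE₁Ω : E₁ ⊆ Ω' := by
    rw [hE₁]
    exact (filter_subset _ _).trans hE
  have hE₂Ω : ∀ D, E₂ D ⊆ Ω' := by
    intro D
    rw [hE₂]
    exact (filter_subset _ _).trans hE
  have h6 : ∑ i ∈ E₁, w' i ≤ C₁ * (Real.log X / X) := by
    refine J₁ k X (by omega) ι' Ω' w' v' hdec E₁ hE₁Ω fun i hi => ?_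
    rw [hE₁, mem_filter] at hi
    exact hi.2
  have h7 : ∀ D ∈ T, ∑ i ∈ E₂ D, w' i ≤ C₂ D * (Real.log X / X) := by
    intro D hD
    by_cases hDD : Squarefree D ∧ D % 4 = 1 ∧ D ≠ 1
    · refine J₂ D hDD k X (hX2 D hD) ι' Ω' w' v' hdec (E₂ D) (hE₂Ω D) fun i hi => ?_
      rw [hE₂] at hi
      simp only [mem_filter] at hi
      exact hi.2.2
    · have : E₂ D = ∅ := by
        rw [hE₂, eq_empty_iff_forall_notMem]
        intro i hi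
        simp only [mem_filter] at hi
        exact hDD hi.2.1
      rw [this, sum_empty]
      exact mul_nonneg (hC₂ D).le hlog
  have hw' := hdec.nonneg
  have h8 : ∑ i ∈ T.biUnion E₂, w' i ≤ ∑ D ∈ T, ∑ i ∈ E₂ D, w' i := by
    clear h7 hsub
    have hall : ∀ T' : Finset ℤ, ∑ i ∈ T'.biUnion E₂, w' i ≤ ∑ D ∈ T', ∑ i ∈ E₂ D, w' i := by
      intro T'
      induction T' using Finset.induction_on with
      | empty => simp
      | insert D T' hD ih =>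
        rw [biUnion_insert, sum_insert hD]
        have h9 : ∑ i ∈ E₂ D ∪ T'.biUnion E₂, w' i + ∑ i ∈ E₂ D ∩ T'.biUnion E₂, w' i =
            ∑ i ∈ E₂ D, w' i + ∑ i ∈ T'.biUnion E₂, w' i := sum_union_inter
        have h10 : 0 ≤ ∑ i ∈ E₂ D ∩ T'.biUnion E₂, w' i :=
          sum_nonneg fun i hi => hw' i (hE₂Ω D (mem_inter.1 hi).1)
        linarith
    exact hall T
  have h9 : ∑ i ∈ E, w' i ≤ ∑ i ∈ E₁ ∪ T.biUnion E₂, w' i := by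
    refine sum_le_sum_of_subset_of_nonneg hsub fun i hi _ => hw' i ?_
    rw [mem_union, mem_biUnion] at hi
    rcases hi with hi | ⟨D, _, hi⟩
    · exact hE₁Ω hi
    · exact hE₂Ω D hi
  have h10 : ∑ i ∈ E₁ ∪ T.biUnion E₂, w' i + ∑ i ∈ E₁ ∩ T.biUnion E₂, w' i =
      ∑ i ∈ E₁, w' i + ∑ i ∈ T.biUnion E₂, w' i := sum_union_inter
  have h11 : 0 ≤ ∑ i ∈ E₁ ∩ T.biUnion E₂, w' i := sum_nonneg fun i hi => hw' i (hE₁Ω (mem_inter.1 hi).1)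
  have h12 : ∑ D ∈ T, ∑ i ∈ E₂ D, w' i ≤ ∑ D ∈ T, C₂ D * (Real.log X / X) := sum_le_sum h7
  rw [← sum_mul] at h12
  rw [add_mul]
  linarith

end Pool.Agent.U236.AE
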