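import Pool.Agent.N367.PPD.Main

set_option autoImplicit false
set_option linter.unusedSectionVars false

/-!
# Half hexagons: the fourth harmonic point constructed with the help of two points of the axis
-/

namespace Pool.Agent.U236.HG

open Configuration Configuration.ProjectivePlane Finset
open Pool.Agent.N367.PPD
open scoped Classical

noncomputable section

variable {P : Type} (L : Type) [Membership P L] [ProjectivePlane P L]

/-- the point of the line `C γ` in direction `β` from `p` -/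
def sp (C p β γ : P) : P := mt P (jn L p β) (jn L C γ)

/-- half a hexagon -/
def ph (C x z s t : P) : P := sp L C (sp L C (sp L C x s t) z s) t z

variable {L}

/-- `p` is a point of the line `C α` other than `C` and `α` -/
structure On (a : L) (C p α : P) : Prop where
  Ca : C ∉ a
  pa : p ∉ a
  pC : C ≠ p
  αa : α ∈ a
  mem : p ∈ jn L C α

variable {a : L} {C p q α β γ x y z s t : P}

theorem ne_of {a : L} {p q : P} (hp : p ∉ a) (hq : q ∈ a) : p ≠ q := fun h => hp (h ▸ hq)

theorem jn_ne_a {a : L} {p q : P} (hp : p ∉ a) (hq : q ∈ a) : jn L p q ≠ a := fun h =>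
  hp (h ▸ jn_left (ne_of hp hq))

/-- a point of the axis on a line through a point off the axis -/
theorem dir_uniq {a : L} {p α β : P} (hp : p ∉ a) (hα : α ∈ a) (hβ : β ∈ a)
    (h : β ∈ jn L p α) : β = α :=
  pt_eq (jn_ne_a hp hα) h (jn_right (ne_of hp hα)) hβ hα

theorem On.jn_eq (h : On a C p α) : jn L C p = jn L C α :=
  (eq_jn h.pC (jn_left (ne_of h.Ca h.αa)) h.mem).symm

theorem On.α_mem (h : On a C p α) : α ∈ jn L C p := by
  rw [h.jn_eq]; exact jn_right (ne_of h.Ca h.αa)

theorem On.uniq (h : On a C p α) (h' : On a C p β) : α = β := by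
  have h1 := h.α_mem
  rw [h'.jn_eq] at h1
  exact dir_uniq h.Ca h'.αa h.αa h1

/-- the lines of a step are distinct -/
theorem On.lines (h : On a C p α) (hβ : β ∈ a) (hγ : γ ∈ a) (h1 : β ≠ α) :
    jn L p β ≠ jn L C γ := by
  intro h2
  have hpβ := ne_of h.pa hβ
  have hCγ := ne_of h.Ca hγ
  have h3 : jn L p β = jn L C p := eq_jn h.pC (by rw [h2]; exact jn_left hCγ) (jn_left hpβ)
  have h4 : β ∈ jn L C α := by
    rw [← h.jn_eq, ← h3]; exact jn_right hpβ
  exact h1 (dir_uniq h.Ca h.αa hβ h4)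

theorem On.sp_l (h : On a C p α) (hβ : β ∈ a) (hγ : γ ∈ a) (h1 : β ≠ α) :
    sp L C p β γ ∈ jn L p β := mt_left (h.lines hβ hγ h1)

theorem On.sp_r (h : On a C p α) (hβ : β ∈ a) (hγ : γ ∈ a) (h1 : β ≠ α) :
    sp L C p β γ ∈ jn L C γ := mt_right (h.lines hβ hγ h1)

theorem On.step (h : On a C p α) (hβ : β ∈ a) (hγ : γ ∈ a) (h1 : β ≠ α) (h2 : γ ≠ β) :
    On a C (sp L C p β γ) γ := by
  have hpβ := ne_of h.pa hβ
  have hCγ := ne_of h.Ca hγ
  have hl := h.sp_l hβ hγ h1
  have hr := h.sp_r hβ hγ h1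
  refine ⟨h.Ca, ?_, ?_, hγ, hr⟩
  · intro h3
    have h4 := dir_uniq h.pa hβ h3 hl
    have h5 := dir_uniq h.Ca hγ h3 hr
    exact h2 (h5.symm.trans h4)
  · intro h3
    rw [← h3] at hl
    have h4 : jn L p β = jn L C p := eq_jn h.pC hl (jn_left hpβ)
    have h5 : β ∈ jn L C α := by
      rw [← h.jn_eq, ← h4]; exact jn_right hpβ
    exact h1 (dir_uniq h.Ca h.αa hβ h5)

theorem On.sp_jn (h : On a C p α) (hβ : β ∈ a) (hγ : γ ∈ a) (h1 : β ≠ α) (h2 : γ ≠ β) :
    jn L (sp L C p β γ) β = jn L p β := by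
  have h3 := h.step hβ hγ h1 h2
  exact (eq_jn (ne_of h3.pa hβ) (h.sp_l hβ hγ h1) (jn_right (ne_of h.pa hβ))).symm

/-- steps are reversible -/
theorem On.back (h : On a C p α) (hβ : β ∈ a) (hγ : γ ∈ a) (h1 : β ≠ α) (h2 : γ ≠ β) :
    sp L C (sp L C p β γ) β α = p := by
  have h3 := h.step hβ hγ h1 h2
  symm
  refine eq_mt (h3.lines hβ h.αa h2.symm) ?_ h.mem
  rw [h.sp_jn hβ hγ h1 h2]
  exact jn_left (ne_of h.pa hβ)

/-- characterization of a step -/
theorem On.sp_eq (h : On a C p α) (hβ : β ∈ a) (hγ : γ ∈ a) (h1 : β ≠ α) (hq1 : q ∈ jn L p β)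
    (hq2 : q ∈ jn L C γ) : q = sp L C p β γ := eq_mt (h.lines hβ hγ h1) hq1 hq2

/-- three distinct points of the axis -/
structure Tri (a : L) (z s t : P) : Prop where
  za : z ∈ a
  sa : s ∈ a
  ta : t ∈ a
  zs : z ≠ s
  zt : z ≠ t
  st : s ≠ t

theorem Tri.swap (h : Tri a z s t) : Tri a z t s := ⟨h.za, h.ta, h.sa, h.zt, h.zs, h.st.symm⟩

theorem Tri.rot (h : Tri a z s t) : Tri a t s z := ⟨h.ta, h.sa, h.za, h.st.symm, h.zt.symm, h.zs.symm⟩

section

variable (hx : On a C x z) (h : Tri a z s t)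

include hx h

theorem on1 : On a C (sp L C x s t) t := hx.step h.sa h.ta h.zs.symm h.st.symm

theorem on2 : On a C (sp L C (sp L C x s t) z s) s :=
  (on1 hx h).step h.za h.sa h.zt h.zs.symm

theorem on3 : On a C (ph L C x z s t) z :=
  (on2 hx h).step h.ta h.za h.st.symm h.zt

/-- the hexagon identity -/
theorem hex : ph L C x z t s = sp L C (ph L C (sp L C x s t) t s z) s z := by
  have h1 : sp L C (sp L C x s t) s z = x := hx.back h.sa h.ta h.zs.symm h.st.symm
  unfold ph
  rw [h1]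

/-- the other half -/
theorem half_back : ph L C (ph L C x z s t) z t s = x := by
  have h1 : sp L C (ph L C x z s t) t s = sp L C (sp L C x s t) z s :=
    (on2 hx h).back h.ta h.za h.st.symm h.zt
  have h2 : sp L C (sp L C (sp L C x s t) z s) z t = sp L C x s t :=
    (on1 hx h).back h.za h.sa h.zt h.zs.symm
  have h3 : sp L C (sp L C x s t) s z = x := hx.back h.sa h.ta h.zs.symm h.st.symm
  rw [ph, h1, h2, h3]

/-- in the Fano case the third point of the half hexagon is the first point of the other one -/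
theorem fano (hf : ph L C x z s t = x) : sp L C x t s = sp L C (sp L C x s t) z s := by
  have h1 : sp L C (ph L C x z s t) t s = sp L C (sp L C x s t) z s :=
    (on2 hx h).back h.ta h.za h.st.symm h.zt
  rwa [hf] at h1

end

/-- the direction of a point as seen from `C` -/
def dr (a : L) (C p : P) : P := mt P (jn L C p) a

theorem on_dr {a : L} {C p : P} (hC : C ∉ a) (hp : p ∉ a) (hCp : C ≠ p) : On a C p (dr a C p) := by
  have h1 : jn L C p ≠ a := fun h => hC (h ▸ jn_left hCp)
  have h2 : dr a C p ∈ a := mt_right h1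
  have h3 : dr a C p ∈ jn L C p := mt_left h1
  refine ⟨hC, hp, hCp, h2, ?_⟩
  rw [← eq_jn (ne_of hC h2) (jn_left hCp) h3]
  exact jn_right hCp

theorem On.dr_eq (h : On a C p α) : dr a C p = α := (on_dr h.Ca h.pa h.pC).uniq h

end

end Pool.Agent.U236.HG
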