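import Pool.Agent.U236.HG1

set_option autoImplicit false
set_option linter.unusedSectionVars false

/-!
# Popular values, deviations and bad triples
-/

namespace Pool.Agent.U236.HG

open Configuration Configuration.ProjectivePlane Finset
open Pool.Agent.N367.PPD
open scoped Classical

noncomputable section

variable {P L : Type} [Membership P L] [ProjectivePlane P L] [Fintype P] [Fintype L]

/-- the pairs of points of the axis different from each other and from `z` -/
def Ix (a : L) (z : P) : Finset (P × P) := ((pts a : Finset P).erase z).offDiag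

theorem mem_Ix {a : L} {z : P} (hz : z ∈ a) {i : P × P} : i ∈ Ix a z ↔ Tri a z i.1 i.2 := by
  rw [Ix, Finset.mem_offDiag, Finset.mem_erase, Finset.mem_erase, mem_pts, mem_pts]
  constructor
  · rintro ⟨⟨h1, h2⟩, ⟨h3, h4⟩, h5⟩
    exact ⟨hz, h2, h4, h1.symm, h3.symm, h5⟩
  · intro h
    exact ⟨⟨h.zs.symm, h.sa⟩, ⟨h.zt.symm, h.ta⟩, h.st⟩

theorem card_Ix {a : L} {z : P} (hz : z ∈ a) :
    (Ix a z).card = order P L * order P L - order P L := by
  rw [Ix, Finset.offDiag_card, Finset.card_erase_of_mem (mem_pts.2 hz), card_pts]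
  simp

variable (a : L) (C : P)

/-- the half hexagon map -/
def fi (x : P) (i : P × P) : P := ph L C x (dr a C x) i.1 i.2

/-- the number of pairs with a given value -/
def mu (x v : P) : ℕ := ((Ix a (dr a C x)).filter (fun i => fi a C x i = v)).card

theorem exists_pv (x : P) : ∃ v : P, ∀ u : P, mu a C x u ≤ mu a C x v := by
  obtain ⟨v, -, hv⟩ := Finset.exists_max_image (univ : Finset P) (mu a C x) ⟨C, mem_univ _⟩
  exact ⟨v, fun u => hv u (mem_univ _)⟩

/-- the popular value -/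
def pv (x : P) : P := (exists_pv a C x).choose

theorem mu_le (x u : P) : mu a C x u ≤ mu a C x (pv a C x) := (exists_pv a C x).choose_spec u

/-- the number of pairs at which the popular value is not attained -/
def de (x : P) : ℕ := ((Ix a (dr a C x)).filter (fun i => fi a C x i ≠ pv a C x)).card

theorem mu_add_de (x : P) : mu a C x (pv a C x) + de a C x = (Ix a (dr a C x)).card :=
  Finset.card_filter_add_card_filter_not (s := Ix a (dr a C x)) (fun i => fi a C x i = pv a C x)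

/-- the points under consideration -/
def Pt : Finset P := univ.filter (fun x => x ∉ a ∧ C ≠ x)

theorem mem_Pt {x : P} : x ∈ Pt a C ↔ x ∉ a ∧ C ≠ x := by simp [Pt]

theorem card_Pt {a : L} {C : P} (hC : C ∉ a) : (Pt a C).card = order P L ^ 2 - 1 := by
  have h1 : Pt a C = (off a).erase C := by
    ext x
    rw [mem_Pt, Finset.mem_erase, mem_off]
    exact ⟨fun h => ⟨h.2.symm, h.1⟩, fun h => ⟨h.2, h.1.symm⟩⟩
  rw [h1, Finset.card_erase_of_mem (mem_off.2 hC), card_off]

/-- the triples -/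
def Tp : Finset (P × P × P) := univ.filter (fun x => x.1 ∈ Pt a C ∧ x.2 ∈ Ix a (dr a C x.1))

theorem mem_Tp {x : P × P × P} : x ∈ Tp a C ↔ x.1 ∈ Pt a C ∧ x.2 ∈ Ix a (dr a C x.1) := by
  simp [Tp]

/-- the deviations -/
def Dev : Finset (P × P × P) := (Tp a C).filter (fun x => fi a C x.1 x.2 ≠ pv a C x.1)

theorem mem_Dev {x : P × P × P} : x ∈ Dev a C ↔ x ∈ Tp a C ∧ fi a C x.1 x.2 ≠ pv a C x.1 := by
  simp [Dev]

theorem card_Dev : (Dev a C).card = ∑ x ∈ Pt a C, de a C x := by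
  have h1 : (Dev a C).card = ((Pt a C).sigma fun x =>
      (Ix a (dr a C x)).filter (fun i => fi a C x i ≠ pv a C x)).card := by
    apply Finset.card_bij (fun (x : P × P × P) _ => (⟨x.1, x.2⟩ : (_ : P) × (P × P)))
    · intro x hx
      rw [mem_Dev, mem_Tp] at hx
      rw [Finset.mem_sigma, Finset.mem_filter]
      exact ⟨hx.1.1, hx.1.2, hx.2⟩
    · rintro ⟨x, i⟩ _ ⟨y, j⟩ _ h
      simp only [Sigma.mk.injEq, heq_eq_eq] at h
      rw [h.1, h.2]
    · rintro ⟨x, i⟩ h
      rw [Finset.mem_sigma, Finset.mem_filter] at h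
      exact ⟨(x, i), (mem_Dev a C).2 ⟨(mem_Tp a C).2 ⟨h.1, h.2.1⟩, h.2.2⟩, rfl⟩
  rw [h1, Finset.card_sigma]
  rfl

/-- bad triples -/
def bd (x : P) (i : P × P) : Prop :=
  fi a C (sp L C x i.1 i.2) (i.1, dr a C x) ≠ pv a C (sp L C x i.1 i.2) ∨
    fi a C x (i.2, i.1) ≠ pv a C x

/-- the set of the bad triples -/
def Bad : Finset (P × P × P) := (Tp a C).filter (fun x => bd a C x.1 x.2)

variable {a C}

theorem on_of (hC : C ∉ a) {x : P} (hx : x ∈ Pt a C) : On a C x (dr a C x) :=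
  on_dr hC ((mem_Pt a C).1 hx).1 ((mem_Pt a C).1 hx).2

theorem On.pt {p α : P} (h : On a C p α) : p ∈ Pt a C := (mem_Pt a C).2 ⟨h.pa, h.pC⟩

theorem tri_of (hC : C ∉ a) {x : P} (hx : x ∈ Pt a C) {i : P × P} (hi : i ∈ Ix a (dr a C x)) :
    Tri a (dr a C x) i.1 i.2 := (mem_Ix (on_of hC hx).αa).1 hi

theorem card_Bad (hC : C ∉ a) : (Bad a C).card ≤ 2 * (Dev a C).card := by
  have h1 : Bad a C ⊆ (Tp a C).filter (fun x => fi a C (sp L C x.1 x.2.1 x.2.2) (x.2.1, dr a C x.1) ≠
      pv a C (sp L C x.1 x.2.1 x.2.2)) ∪ (Tp a C).filter (fun x => fi a C x.1 (x.2.2, x.2.1) ≠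
      pv a C x.1) := by
    intro x hx
    rw [Bad, Finset.mem_filter] at hx
    rw [Finset.mem_union, Finset.mem_filter, Finset.mem_filter]
    rcases hx.2 with h | h
    · exact Or.inl ⟨hx.1, h⟩
    · exact Or.inr ⟨hx.1, h⟩
  have h2 : ((Tp a C).filter (fun x => fi a C (sp L C x.1 x.2.1 x.2.2) (x.2.1, dr a C x.1) ≠
      pv a C (sp L C x.1 x.2.1 x.2.2))).card ≤ (Dev a C).card := by
    apply Finset.card_le_card_of_injOn (fun x => (sp L C x.1 x.2.1 x.2.2, x.2.1, dr a C x.1))
    · rintro ⟨x, s, t⟩ h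
      rw [Finset.mem_coe, Finset.mem_filter, mem_Tp] at h
      obtain ⟨⟨hx, hi⟩, h3⟩ := h
      have hon := on_of hC hx
      have htr := tri_of hC hx hi
      have h4 := on1 hon htr
      rw [Finset.mem_coe, mem_Dev, mem_Tp]
      refine ⟨⟨h4.pt, ?_⟩, h3⟩
      simp only
      rw [h4.dr_eq]
      exact (mem_Ix h4.αa).2 htr.rot
    · rintro ⟨x, s, t⟩ h ⟨x', s', t'⟩ h' heq
      rw [Finset.mem_coe, Finset.mem_filter, mem_Tp] at h h'
      have hon := on_of hC h.1.1
      have htr := tri_of hC h.1.1 h.1.2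
      have hon' := on_of hC h'.1.1
      have htr' := tri_of hC h'.1.1 h'.1.2
      simp only [Prod.mk.injEq] at heq hon htr hon' htr'
      obtain ⟨e1, e2, e3⟩ := heq
      subst e2
      have h4 := on1 hon htr
      have h4' := on1 hon' htr'
      have h5 : t = t' := by
        rw [← h4.dr_eq, ← h4'.dr_eq, e1]
      subst h5
      have h6 : x = x' := by
        rw [← hon.back htr.sa htr.ta htr.zs.symm htr.st.symm,
          ← hon'.back htr'.sa htr'.ta htr'.zs.symm htr'.st.symm, e1, e3]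
      rw [h6]
  have h3 : ((Tp a C).filter (fun x => fi a C x.1 (x.2.2, x.2.1) ≠ pv a C x.1)).card ≤
      (Dev a C).card := by
    apply Finset.card_le_card_of_injOn (fun x => (x.1, x.2.2, x.2.1))
    · rintro ⟨x, s, t⟩ h
      rw [Finset.mem_coe, Finset.mem_filter, mem_Tp] at h
      obtain ⟨⟨hx, hi⟩, h3⟩ := h
      rw [Finset.mem_coe, mem_Dev, mem_Tp]
      exact ⟨⟨hx, (mem_Ix (on_of hC hx).αa).2 (tri_of hC hx hi).swap⟩, h3⟩
    · rintro ⟨x, s, t⟩ _ ⟨x', s', t'⟩ _ heq
      simp only [Prod.mk.injEq] at heq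
      rw [heq.1, heq.2.1, heq.2.2]
  have h4 := Finset.card_le_card h1
  have h5 := Finset.card_union_le ((Tp a C).filter (fun x => fi a C (sp L C x.1 x.2.1 x.2.2)
      (x.2.1, dr a C x.1) ≠
      pv a C (sp L C x.1 x.2.1 x.2.2))) ((Tp a C).filter (fun x => fi a C x.1 (x.2.2, x.2.1) ≠
      pv a C x.1))
  omega

/-- the number of bad pairs of a point -/
def bp (a : L) (C x : P) : ℕ := ((Ix a (dr a C x)).filter (fun i => bd a C x i)).card

theorem sum_bp : ∑ x ∈ Pt a C, bp a C x = (Bad a C).card := by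
  have h1 : (Bad a C).card = ((Pt a C).sigma fun x =>
      (Ix a (dr a C x)).filter (fun i => bd a C x i)).card := by
    apply Finset.card_bij (fun (x : P × P × P) _ => (⟨x.1, x.2⟩ : (_ : P) × (P × P)))
    · intro x hx
      rw [Bad, Finset.mem_filter, mem_Tp] at hx
      rw [Finset.mem_sigma, Finset.mem_filter]
      exact ⟨hx.1.1, hx.1.2, hx.2⟩
    · rintro ⟨x, i⟩ _ ⟨y, j⟩ _ h
      simp only [Sigma.mk.injEq, heq_eq_eq] at h
      rw [h.1, h.2]
    · rintro ⟨x, i⟩ h
      rw [Finset.mem_sigma, Finset.mem_filter] at h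
      refine ⟨(x, i), ?_, rfl⟩
      rw [Bad, Finset.mem_filter, mem_Tp]
      exact ⟨⟨h.1, h.2.1⟩, h.2.2⟩
  rw [h1, Finset.card_sigma]
  rfl

/-- for a triple that is not bad the popular values are aligned -/
theorem good (hC : C ∉ a) {x : P} (hx : x ∈ Pt a C) {s t : P} (hi : (s, t) ∈ Ix a (dr a C x))
    (hg : ¬ bd a C x (s, t)) : On a C (pv a C (sp L C x s t)) t ∧ On a C (pv a C x) (dr a C x) ∧
      pv a C x = sp L C (pv a C (sp L C x s t)) s (dr a C x) := by
  have hon := on_of hC hx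
  have htr := tri_of hC hx hi
  simp only at htr
  have h4 := on1 hon htr
  unfold bd at hg
  push Not at hg
  obtain ⟨h1, h2⟩ := hg
  simp only [fi] at h1 h2
  rw [h4.dr_eq] at h1
  rw [hex hon htr, h1] at h2
  rw [← h1, ← h2, ← h1]
  have h5 := on3 h4 htr.rot
  exact ⟨h5, h5.step htr.sa htr.za htr.st htr.zs, rfl⟩

end

end Pool.Agent.U236.HG
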