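import Pool.Agent.U236.HG2

set_option autoImplicit false
set_option linter.unusedSectionVars false

/-!
# Few deviations: there is an involutory homology
-/

namespace Pool.Agent.U236.HG

open Configuration Configuration.ProjectivePlane Finset
open Pool.Agent.N367.PPD
open scoped Classical

noncomputable section

variable {P L : Type} [Membership P L] [ProjectivePlane P L] [Fintype P] [Fintype L]

/-- the point of the line `x z` on the axis -/
def sq (a : L) (x z : P) : P := mt P (jn L x z) a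

variable {a : L} {C : P}

theorem pv_on (hC : C ∉ a) {x : P} (hx : x ∈ Pt a C) : On a C (pv a C x) (dr a C x) := by
  have hon := on_of hC hx
  have hn := one_lt_order P L
  have h1 : 0 < (Ix a (dr a C x)).card := by
    rw [card_Ix hon.αa]
    have : order P L < order P L * order P L := by nlinarith
    omega
  obtain ⟨i, hi⟩ := Finset.card_pos.1 h1
  have h2 : 0 < mu a C x (fi a C x i) := by
    apply Finset.card_pos.2
    exact ⟨i, Finset.mem_filter.2 ⟨hi, rfl⟩⟩
  have h3 := mu_le a C x (fi a C x i)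
  have h4 : 0 < mu a C x (pv a C x) := lt_of_lt_of_le h2 h3
  obtain ⟨j, hj⟩ := Finset.card_pos.1 h4
  rw [Finset.mem_filter] at hj
  rw [← hj.2]
  exact on3 hon (tri_of hC hx hj.1)

/-- a pair of points gives a triple -/
theorem pair (hC : C ∉ a) {x z : P} (hx : x ∈ Pt a C) (hz : z ∈ Pt a C) (hzx : z ∉ jn L C x) :
    (sq a x z, dr a C z) ∈ Ix a (dr a C x) ∧ sp L C x (sq a x z) (dr a C z) = z := by
  have ox := on_of hC hx
  have oz := on_of hC hz
  have hxz : x ≠ z := fun h => hzx (h ▸ jn_right ox.pC)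
  have hl : jn L x z ≠ a := fun h => ox.pa (h ▸ jn_left hxz)
  have s1 : sq a x z ∈ jn L x z := mt_left hl
  have s2 : sq a x z ∈ a := mt_right hl
  have e1 : sq a x z ≠ dr a C x := by
    intro h
    have h1 : jn L x z = jn L C x :=
      line_eq (ne_of ox.pa ox.αa) (jn_left hxz) (h ▸ s1) (jn_right ox.pC) ox.α_mem
    exact hzx (h1 ▸ jn_right hxz)
  have e2 : sq a x z ≠ dr a C z := by
    intro h
    have h1 : jn L x z = jn L C z :=
      line_eq (ne_of oz.pa oz.αa) (jn_right hxz) (h ▸ s1) (jn_right oz.pC) oz.α_mem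
    have h2 : jn L C z = jn L C x :=
      line_eq ox.pC (jn_left oz.pC) (h1 ▸ jn_left hxz) (jn_left ox.pC) (jn_right ox.pC)
    exact hzx (h2 ▸ jn_right oz.pC)
  have e3 : dr a C x ≠ dr a C z := by
    intro h
    apply hzx
    rw [ox.jn_eq, h]
    exact oz.mem
  refine ⟨(mem_Ix ox.αa).2 ⟨ox.αa, s2, oz.αa, e1.symm, e3, e2⟩, ?_⟩
  symm
  refine ox.sp_eq s2 oz.αa e1 ?_ oz.mem
  rw [← eq_jn (ne_of ox.pa s2) (jn_left hxz) s1]
  exact jn_right hxz

/-- a triple gives a pair of points -/
theorem pair' (hC : C ∉ a) {x s t : P} (hx : x ∈ Pt a C) (hi : Tri a (dr a C x) s t) :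
    sp L C x s t ∉ jn L C x ∧ sq a x (sp L C x s t) = s ∧ dr a C (sp L C x s t) = t := by
  have ox := on_of hC hx
  have o1 := on1 ox hi
  have h1 : sp L C x s t ∉ jn L C x := by
    intro h
    have h2 : On a C (sp L C x s t) (dr a C x) := ⟨hC, o1.pa, o1.pC, ox.αa, by
      rw [← ox.jn_eq]; exact h⟩
    exact hi.zt (h2.uniq o1)
  refine ⟨h1, ?_, o1.dr_eq⟩
  have hxz : x ≠ sp L C x s t := fun h => h1 (by rw [← h]; exact jn_right ox.pC)
  have h2 : sp L C x s t ∈ jn L x s := ox.sp_l hi.sa hi.ta hi.zs.symm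
  have h3 : jn L x (sp L C x s t) = jn L x s := (eq_jn hxz (jn_left (ne_of ox.pa hi.sa)) h2).symm
  rw [sq, h3]
  exact (eq_mt (jn_ne_a ox.pa hi.sa) (jn_right (ne_of ox.pa hi.sa)) hi.sa).symm

/-- the number of the points off the axis and off a line through `C` -/
theorem card_X (hC : C ∉ a) {x : P} (hx : x ∈ Pt a C) :
    ((Pt a C).filter (fun z => z ∉ jn L C x)).card = order P L * order P L - order P L := by
  rw [← card_Ix (on_of hC hx).αa]
  apply Finset.card_bij (fun z _ => (sq a x z, dr a C z))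
  · intro z hz
    rw [Finset.mem_filter] at hz
    exact (pair hC hx hz.1 hz.2).1
  · intro z hz w hw h
    rw [Finset.mem_filter] at hz hw
    simp only [Prod.mk.injEq] at h
    rw [← (pair hC hx hz.1 hz.2).2, ← (pair hC hx hw.1 hw.2).2, h.1, h.2]
  · rintro ⟨s, t⟩ hi
    have htr := tri_of hC hx hi
    simp only at htr
    obtain ⟨h1, h2, h3⟩ := pair' hC hx htr
    refine ⟨sp L C x s t, Finset.mem_filter.2 ⟨(on1 (on_of hC hx) htr).pt, h1⟩, ?_⟩
    rw [h2, h3]

/-- a pair of points is bad -/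
def bdp (a : L) (C x z : P) : Prop := bd a C x (sq a x z, dr a C z)

theorem card_bdp (hC : C ∉ a) {x : P} (hx : x ∈ Pt a C) :
    ((Pt a C).filter (fun z => z ∉ jn L C x ∧ bdp a C x z)).card ≤ bp a C x := by
  apply Finset.card_le_card_of_injOn (fun z => (sq a x z, dr a C z))
  · intro z hz
    rw [Finset.mem_coe, Finset.mem_filter] at hz
    exact Finset.mem_coe.2 (Finset.mem_filter.2 ⟨(pair hC hx hz.1 hz.2.1).1, hz.2.2⟩)
  · intro z hz w hw h
    rw [Finset.mem_coe, Finset.mem_filter] at hz hw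
    simp only [Prod.mk.injEq] at h
    rw [← (pair hC hx hz.1 hz.2.1).2, ← (pair hC hx hw.1 hw.2.1).2, h.1, h.2]

/-- pairs that are not bad -/
theorem good_pair (hC : C ∉ a) {x z : P} (hx : x ∈ Pt a C) (hz : z ∈ Pt a C)
    (hzx : z ∉ jn L C x) (hg : ¬ bdp a C x z) :
    pv a C x = sp L C (pv a C z) (sq a x z) (dr a C x) := by
  obtain ⟨h1, h2⟩ := pair hC hx hz hzx
  have h3 := (good hC hx h1 hg).2.2
  rwa [h2] at h3

/-- the image of a point under the hoped-for homology is the popular value -/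
theorem im_eq (hC : C ∉ a) {x z : P} (hx : x ∈ Pt a C) (hz : z ∈ Pt a C)
    (hzx : z ∉ jn L C x) (hg : ¬ bdp a C x z) (hadm : Adm a C x (pv a C x)) :
    im a C x (pv a C x) z = pv a C z := by
  have hp := (pair hC hx hz hzx).1
  have htr := tri_of hC hx hp
  simp only at htr
  have oz := on_of hC hz
  have opz := pv_on hC hz
  have h3 := good_pair hC hx hz hzx hg
  have h4 : jn L (pv a C x) (sq a x z) = jn L (pv a C z) (sq a x z) := by
    rw [h3]
    exact opz.sp_jn htr.sa htr.za htr.st htr.zs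
  symm
  unfold im
  refine eq_mt (hadm.Cz_ne_ye hzx) ?_ ?_
  · rw [oz.jn_eq]; exact opz.mem
  · change pv a C z ∈ jn L (pv a C x) (sq a x z)
    rw [h4]
    exact jn_left (ne_of opz.pa htr.sa)

theorem F_bound (hC : C ∉ a) {x : P} (hx : x ∈ Pt a C) (hadm : Adm a C x (pv a C x)) :
    hadm.dat.F ≤ (Bad a C).card + 2 * (bp a C x * (order P L * order P L - order P L)) := by
  set X := hadm.dat.X with hX
  have hXe : X = (Pt a C).filter (fun z => z ∉ jn L C x) := by
    ext z
    rw [hX, Dat.mem_X, Finset.mem_filter, mem_Pt]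
    change (z ∉ a ∧ z ∉ jn L C x) ↔ _
    constructor
    · rintro ⟨h1, h2⟩
      exact ⟨⟨h1, fun h => h2 (h ▸ jn_left hadm.xC)⟩, h2⟩
    · rintro ⟨⟨h1, _⟩, h2⟩
      exact ⟨h1, h2⟩
  have hXc : X.card = order P L * order P L - order P L := by rw [hXe]; exact card_X hC hx
  have hmem : ∀ z, z ∈ X → z ∈ Pt a C ∧ z ∉ jn L C x := by
    intro z hz
    rw [hXe, Finset.mem_filter] at hz
    exact hz
  set S1 := X.filter (fun z => bdp a C x z) with hS1
  have hS1c : S1.card ≤ bp a C x := by
    refine le_trans (Finset.card_le_card ?_) (card_bdp hC hx)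
    intro z hz
    rw [hS1, Finset.mem_filter] at hz
    obtain ⟨h1, h2⟩ := hmem z hz.1
    exact Finset.mem_filter.2 ⟨h1, h2, hz.2⟩
  set S3 := (X ×ˢ X).filter (fun q => q.2 ∉ jn L C q.1 ∧ bdp a C q.1 q.2) with hS3
  have hS3c : S3.card ≤ (Bad a C).card := by
    apply Finset.card_le_card_of_injOn (fun q => (q.1, sq a q.1 q.2, dr a C q.2))
    · rintro ⟨z, w⟩ hq
      rw [Finset.mem_coe, hS3, Finset.mem_filter, Finset.mem_product] at hq
      have h1 := (hmem _ hq.1.1).1
      have h2 := (hmem _ hq.1.2).1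
      rw [Finset.mem_coe, Bad, Finset.mem_filter, mem_Tp]
      exact ⟨⟨h1, (pair hC h1 h2 hq.2.1).1⟩, hq.2.2⟩
    · rintro ⟨z, w⟩ hq ⟨z', w'⟩ hq' h
      rw [Finset.mem_coe, hS3, Finset.mem_filter, Finset.mem_product] at hq hq'
      simp only [Prod.mk.injEq] at h
      obtain ⟨e1, e2, e3⟩ := h
      subst e1
      have h1 := (hmem _ hq.1.1).1
      have h2 := (hmem _ hq.1.2).1
      have h3 := (hmem _ hq'.1.2).1
      simp only at hq hq' h1 h2 h3 e2 e3
      have h4 : w = w' := by
        rw [← (pair hC h1 h2 hq.2.1).2, ← (pair hC h1 h3 hq'.2.1).2, e2, e3]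
      rw [h4]
  have hsub : (X ×ˢ X).filter (fun q => hadm.dat.fl q.1 q.2) ⊆ S1 ×ˢ X ∪ (X ×ˢ S1 ∪ S3) := by
    rintro ⟨z, w⟩ hq
    rw [Finset.mem_filter, Finset.mem_product] at hq
    obtain ⟨⟨hz, hw⟩, hf⟩ := hq
    simp only at hz hw hf
    by_contra hcon
    rw [Finset.mem_union, Finset.mem_union, Finset.mem_product, Finset.mem_product, hS1, hS3,
      Finset.mem_filter, Finset.mem_filter, Finset.mem_filter, Finset.mem_product] at hcon
    simp only [hz, hw, true_and, and_true, not_or, not_and] at hcon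
    obtain ⟨g1, g2, g3⟩ := hcon
    obtain ⟨hz1, hz2⟩ := hmem z hz
    obtain ⟨hw1, hw2⟩ := hmem w hw
    have oz := on_of hC hz1
    have ow := on_of hC hw1
    have opz := pv_on hC hz1
    have opw := pv_on hC hw1
    have tz : hadm.dat.T z = pv a C z :=
      (hadm.perm_of oz.pa hz2).trans (im_eq hC hx hz1 hz2 g1 hadm)
    have tw : hadm.dat.T w = pv a C w :=
      (hadm.perm_of ow.pa hw2).trans (im_eq hC hx hw1 hw2 g2 hadm)
    have hne := hadm.dat.fl_ne hf
    obtain ⟨e, he, ⟨l, hel, hzl, hwl⟩, hno⟩ := hf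
    change e ∈ a at he
    rw [tz, tw] at hno
    by_cases hcol : w ∈ jn L C z
    · have h1 : jn L C z = l := line_eq hne (jn_right oz.pC) hcol hzl hwl
      refine hno ⟨jn L C z, h1 ▸ hel, ?_, ?_⟩
      · rw [oz.jn_eq]; exact opz.mem
      · have h2 : jn L C w = jn L C z := (eq_jn ow.pC (jn_left oz.pC) hcol).symm
        rw [← h2, ow.jn_eq]; exact opw.mem
    · have h1 := good_pair hC hz1 hw1 hcol (g3 hcol)
      have h2 : e = sq a z w := by
        refine eq_mt (fun h => oz.pa (h ▸ jn_left hne)) ?_ he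
        rw [← eq_jn hne hzl hwl]; exact hel
      have htr := tri_of hC hz1 (pair hC hz1 hw1 hcol).1
      simp only at htr
      refine hno ⟨jn L (pv a C w) (sq a z w), ?_, ?_, ?_⟩
      · rw [h2]; exact jn_right (ne_of opw.pa htr.sa)
      · rw [h1]; exact opw.sp_l htr.sa htr.za htr.st
      · exact jn_left (ne_of opw.pa htr.sa)
  have h1 := Finset.card_le_card hsub
  have h2 := Finset.card_union_le (S1 ×ˢ X) (X ×ˢ S1 ∪ S3)
  have h3 := Finset.card_union_le (X ×ˢ S1) S3
  rw [Finset.card_product] at h2 h3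
  have h4 : hadm.dat.F = ((X ×ˢ X).filter (fun q => hadm.dat.fl q.1 q.2)).card := rfl
  rw [h4]
  rw [← hXc]
  have h5 : S1.card * X.card ≤ bp a C x * X.card := Nat.mul_le_mul_right _ hS1c
  have h6 : X.card * S1.card ≤ bp a C x * X.card := by rw [mul_comm]; exact h5
  omega

/-- for odd order a point that is its own popular value has many deviations -/
theorem parity (hodd : Odd (order P L)) (hC : C ∉ a) {x : P} (hx : x ∈ Pt a C)
    (hpx : pv a C x = x) : order P L ≤ de a C x + 1 := by
  have ox := on_of hC hx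
  set z := dr a C x with hz
  set Λ : Finset L := ((lns z).erase a).erase (jn L C z) with hΛ
  have hza := ox.αa
  have hCz := ne_of hC hza
  have hΛc : Λ.card + 1 = order P L := by
    have h1 : a ∈ (lns z : Finset L) := mem_lns.2 hza
    have h2 : jn L C z ∈ (lns z : Finset L).erase a :=
      Finset.mem_erase.2 ⟨jn_ne_a hC hza, mem_lns.2 (jn_right hCz)⟩
    rw [hΛ, Finset.card_erase_of_mem h2, Finset.card_erase_of_mem h1, card_lns]
    have := one_lt_order P L
    omega
  have key : ∀ k ∈ Λ, ∃ i ∈ Ix a z, fi a C x i ≠ x ∧ sp L C x i.1 i.2 ∈ k := by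
    intro k hk
    rw [hΛ, Finset.mem_erase, Finset.mem_erase, mem_lns] at hk
    obtain ⟨hk1, hk2, hzk⟩ := hk
    by_contra hcon
    push Not at hcon
    set K := (pts k : Finset P).erase z with hK
    have hKc : K.card = order P L := by
      rw [hK, Finset.card_erase_of_mem (mem_pts.2 hzk), card_pts]
      omega
    have hmem : ∀ y ∈ K, y ∈ Pt a C ∧ y ∉ jn L C x ∧ y ∈ k := by
      intro y hy
      rw [hK, Finset.mem_erase, mem_pts] at hy
      have h1 : y ∉ a := fun h => hy.1 (pt_eq hk2 hy.2 hzk h hza)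
      have h2 : y ∉ jn L C x := by
        rw [ox.jn_eq]
        exact fun h => hy.1 (pt_eq hk1 hy.2 hzk h (jn_right hCz))
      refine ⟨(mem_Pt a C).2 ⟨h1, fun h => h2 (h ▸ jn_left ox.pC)⟩, h2, hy.2⟩
    -- the involution
    have hinv : ∀ y ∈ K, sp L C y z (sq a x y) ∈ K ∧ sp L C y z (sq a x y) ≠ y ∧
        sq a x (sp L C y z (sq a x y)) = dr a C y ∧
        sp L C (sp L C y z (sq a x y)) z (dr a C y) = y := by
      intro y hy
      obtain ⟨hy1, hy2, hy3⟩ := hmem y hy
      obtain ⟨hi, hsp⟩ := pair hC hx hy1 hy2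
      have htr := tri_of hC hx hi
      simp only at htr
      have hfi : fi a C x (sq a x y, dr a C y) = x := by
        by_contra h
        exact hcon _ hi h (by simp only; rw [hsp]; exact hy3)
      have h1 : sp L C x (dr a C y) (sq a x y) = sp L C y z (sq a x y) := by
        have := fano ox htr hfi
        rwa [hsp] at this
      have oy := on_of hC hy1
      obtain ⟨h2, h3, h4⟩ := pair' hC hx htr.swap
      have h5 : sp L C y z (sq a x y) ∈ jn L y z := oy.sp_l htr.za htr.sa htr.zt
      have hyz : y ≠ z := ne_of oy.pa hza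
      have h6 : jn L y z = k := (eq_jn hyz hy3 hzk).symm
      have o1 : On a C (sp L C y z (sq a x y)) (sq a x y) := oy.step htr.za htr.sa htr.zt htr.zs.symm
      refine ⟨?_, ?_, ?_, ?_⟩
      · rw [hK, Finset.mem_erase, mem_pts]
        exact ⟨ne_of o1.pa hza, h6 ▸ h5⟩
      · intro h7
        apply htr.st
        rw [← o1.dr_eq, h7]
      · rw [← h1]; exact h3
      · exact oy.back htr.za htr.sa htr.zt htr.zs.symm
    have hsum : ∑ y ∈ K, (1 : ZMod 2) = 0 := by
      refine Finset.sum_involution (fun y _ => sp L C y z (sq a x y)) ?_ ?_ ?_ ?_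
      · intro y hy
        decide
      · intro y hy _
        exact (hinv y hy).2.1
      · intro y hy
        exact (hinv y hy).1
      · intro y hy
        rw [(hinv y hy).2.2.1]
        exact (hinv y hy).2.2.2
    rw [Finset.sum_const, hKc, nsmul_eq_mul, mul_one, ZMod.natCast_eq_zero_iff] at hsum
    obtain ⟨m, hm⟩ := hodd
    omega
  haveI : Nonempty (P × P) := ⟨(C, C)⟩
  choose! f hf1 hf2 hf3 using key
  have h1 : Λ.card ≤ de a C x := by
    apply Finset.card_le_card_of_injOn f
    · intro k hk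
      exact Finset.mem_coe.2 (Finset.mem_filter.2 ⟨hf1 k hk, by rw [hpx]; exact hf2 k hk⟩)
    · intro k hk k' hk' h
      have hk0 := hk
      have hk0' := hk'
      rw [Finset.mem_coe, hΛ, Finset.mem_erase, Finset.mem_erase, mem_lns] at hk hk'
      have htr := tri_of hC hx (hf1 k hk0)
      have o1 := on1 ox htr
      have h2 := hf3 k hk0
      have h3 := hf3 k' hk0'
      rw [← h] at h3
      exact line_eq (ne_of o1.pa hza) h2 hk.2.2 h3 hk'.2.2
  omega

end

end Pool.Agent.U236.HG
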