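import Pool.Agent.U236.HG3

set_option autoImplicit false
set_option linter.unusedSectionVars false

/-!
# The involutory homology, and the number of the disagreements
-/

namespace Pool.Agent.U236.HG

open Configuration Configuration.ProjectivePlane Finset
open Pool.Agent.N367.PPD
open scoped Classical

noncomputable section

variable {P L : Type} [Membership P L] [ProjectivePlane P L] [Fintype P] [Fintype L]

variable {a : L} {C : P}

theorem exists_x0 (hodd : Odd (order P L)) (hC : C ∉ a)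
    (hΔ : 10000 * (Dev a C).card ≤ order P L ^ 3) :
    ∃ x ∈ Pt a C, pv a C x ≠ x ∧ (order P L ^ 2 - 1) * bp a C x ≤ 4 * (Dev a C).card := by
  have hn : 3 ≤ order P L := by
    have := one_lt_order P L
    obtain ⟨m, hm⟩ := hodd
    omega
  set S := (Pt a C).filter (fun x => pv a C x ≠ x) with hS
  set Sc := (Pt a C).filter (fun x => ¬ pv a C x ≠ x) with hSc
  have h1 : S.card + Sc.card = order P L ^ 2 - 1 := by
    rw [← card_Pt hC]
    exact Finset.card_filter_add_card_filter_not (s := Pt a C) (fun x => pv a C x ≠ x)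
  have h2 : Sc.card * (order P L - 1) ≤ (Dev a C).card := by
    rw [card_Dev, ← smul_eq_mul, ← Finset.sum_const]
    refine le_trans (Finset.sum_le_sum fun x hx => ?_)
      (Finset.sum_le_sum_of_subset (Finset.filter_subset _ _))
    rw [hSc, Finset.mem_filter, not_not] at hx
    have := parity hodd hC hx.1 hx.2
    omega
  have h3 : order P L ^ 2 - 1 ≤ 2 * S.card := by
    by_contra hcon
    have h4 : order P L ^ 2 ≤ 2 * Sc.card := by omega
    have h5 : order P L ^ 2 * (order P L - 1) ≤ 2 * (Dev a C).card := by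
      calc order P L ^ 2 * (order P L - 1) ≤ 2 * Sc.card * (order P L - 1) :=
            Nat.mul_le_mul_right _ h4
        _ = 2 * (Sc.card * (order P L - 1)) := by ring
        _ ≤ _ := Nat.mul_le_mul_left _ h2
    obtain ⟨k, hk⟩ : ∃ k, order P L = k + 3 := ⟨order P L - 3, by omega⟩
    rw [hk] at h5 hΔ
    have e : k + 3 - 1 = k + 2 := by omega
    rw [e] at h5
    nlinarith [Nat.zero_le (k ^ 2), Nat.zero_le (k ^ 3), Nat.zero_le k]
  have h4 : S.Nonempty := by
    apply Finset.card_pos.1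
    have : 3 ^ 2 ≤ order P L ^ 2 := Nat.pow_le_pow_left hn 2
    omega
  obtain ⟨x, hx, hmin⟩ := Finset.exists_min_image S (bp a C) h4
  have h5 : S.card * bp a C x ≤ (Bad a C).card := by
    rw [← sum_bp, ← smul_eq_mul, ← Finset.sum_const]
    exact le_trans (Finset.sum_le_sum fun y hy => hmin y hy)
      (Finset.sum_le_sum_of_subset (Finset.filter_subset _ _))
  have h6 := card_Bad hC
  rw [hS, Finset.mem_filter] at hx
  refine ⟨x, hx.1, hx.2, ?_⟩
  calc (order P L ^ 2 - 1) * bp a C x ≤ 2 * S.card * bp a C x := Nat.mul_le_mul_right _ h3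
    _ = 2 * (S.card * bp a C x) := by ring
    _ ≤ 4 * (Dev a C).card := by omega

theorem persp_im {x x' z : P} {g : Equiv.Perm P × Equiv.Perm L} (hadm : Adm a C x x')
    (hg : IsP C a g) (hgx : g.1 x = x') (hzm : z ∉ jn L C x) :
    g.1 z = im a C x x' z := by
  unfold im
  refine eq_mt (hadm.Cz_ne_ye hzm) ?_ ?_
  · rw [← hg.2 _ (jn_left (hadm.zC hzm)), hg.1.1]
    exact jn_right (hadm.zC hzm)
  · have h1 : g.2 (jn L x z) = jn L x' (mt P (jn L x z) a) := by
      refine line_eq (hadm.e_y hzm) ?_ ?_ (jn_left (hadm.e_y hzm)) (jn_right (hadm.e_y hzm))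
      · rw [← hgx, hg.1.1]
        exact jn_left (hadm.zx hzm)
      · have h2 := (hg.1.1 _ _).2 (hadm.e_xz hzm)
        rwa [hg.1.2 _ (hadm.e_a hzm)] at h2
    rw [← h1, hg.1.1]
    exact jn_right (hadm.zx hzm)

theorem exists_inv (hodd : Odd (order P L)) (hC : C ∉ a)
    (hΔ : 10000 * (Dev a C).card ≤ order P L ^ 3) :
    ∃ g : Equiv.Perm P × Equiv.Perm L, IsP C a g ∧ g * g = 1 ∧ g ≠ 1 := by
  have hn : 3 ≤ order P L := by
    have := one_lt_order P L
    obtain ⟨m, hm⟩ := hodd
    omega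
  obtain ⟨x, hx, hpx, hb⟩ := exists_x0 hodd hC hΔ
  have ox := on_of hC hx
  have opx := pv_on hC hx
  have hadm : Adm a C x (pv a C x) := ⟨ox.pa, opx.pa, ox.pC, opx.pC, hpx.symm, by
    rw [ox.jn_eq]; exact opx.mem⟩
  have hF := F_bound hC hx hadm
  have hBad := card_Bad hC
  have hNb : (order P L * order P L - order P L) * bp a C x ≤ 4 * (Dev a C).card := by
    refine le_trans (Nat.mul_le_mul_right _ ?_) hb
    rw [pow_two]; omega
  have hS : hadm.dat.Sm := by
    unfold Dat.Sm
    have h1 : bp a C x * (order P L * order P L - order P L) ≤ 4 * (Dev a C).card := by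
      rw [mul_comm]; exact hNb
    omega
  obtain ⟨σ, τ, h1, h2, h3, h4⟩ := hadm.exists_persp hS hn
  obtain ⟨g, hgdef⟩ : ∃ g : Equiv.Perm P × Equiv.Perm L, g = (σ, τ) := ⟨_, rfl⟩
  have hg : IsP C a g := by rw [hgdef]; exact ⟨⟨h1, h2⟩, h3⟩
  have hgx : g.1 x = pv a C x := by rw [hgdef]; exact h4
  have hg1 : g ≠ 1 := by
    intro h
    rw [h] at hgx
    exact hpx hgx.symm
  -- the images
  set X := (Pt a C).filter (fun z => z ∉ jn L C x) with hX
  have hXc : X.card = order P L * order P L - order P L := card_X hC hx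
  have hmove : ∀ y ∈ X, g.1 y ∈ X ∧ dr a C (g.1 y) = dr a C y := by
    intro y hy
    rw [hX, Finset.mem_filter] at hy ⊢
    have oy := on_of hC hy.1
    have h5 := hg.move oy.pa oy.pC (jn_left (L := L) oy.pC) (jn_right oy.pC)
    rw [mem_S] at h5
    have hon : On a C (g.1 y) (dr a C y) := ⟨hC, h5.2.2, h5.2.1, oy.αa, by
      rw [← oy.jn_eq]; exact h5.1⟩
    refine ⟨⟨hon.pt, fun h6 => hy.2 ?_⟩, hon.dr_eq⟩
    rw [line_eq hon.pC (jn_left ox.pC) h6 (jn_left oy.pC) h5.1]
    exact jn_right oy.pC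
  have himg : ∀ y ∈ X, ¬ bdp a C x y → g.1 y = pv a C y := by
    intro y hy hb
    rw [hX, Finset.mem_filter] at hy
    rw [persp_im hadm hg hgx hy.2, im_eq hC hx hy.1 hy.2 hb hadm]
  set Y := X.filter (fun y => ¬ bdp a C x y ∧ ¬ bdp a C x (g.1 y)) with hY
  have hYc : X.card ≤ Y.card + 2 * bp a C x := by
    have e1 := Finset.card_filter_add_card_filter_not (s := X)
      (fun y => ¬ bdp a C x y ∧ ¬ bdp a C x (g.1 y))
    have e2 : (X.filter (fun y => ¬ (¬ bdp a C x y ∧ ¬ bdp a C x (g.1 y)))).card ≤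
        (X.filter (fun y => bdp a C x y)).card + (X.filter (fun y => bdp a C x (g.1 y))).card := by
      refine le_trans (Finset.card_le_card ?_) (Finset.card_union_le _ _)
      intro y hy
      have hy0 := (Finset.mem_filter.1 hy).1
      have hy9 := (Finset.mem_filter.1 hy).2
      by_cases h : bdp a C x y
      · exact Finset.mem_union.2 (Or.inl (Finset.mem_filter.2 ⟨hy0, h⟩))
      · refine Finset.mem_union.2 (Or.inr (Finset.mem_filter.2 ⟨hy0, ?_⟩))
        by_contra h'
        exact hy9 ⟨h, h'⟩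
    have e3 : (X.filter (fun y => bdp a C x y)).card ≤ bp a C x := by
      refine le_trans (Finset.card_le_card ?_) (card_bdp hC hx)
      intro y hy
      have hy0 := (Finset.mem_filter.1 hy).1
      have hy9 := (Finset.mem_filter.1 hy).2
      rw [hX, Finset.mem_filter] at hy0
      exact Finset.mem_filter.2 ⟨hy0.1, hy0.2, hy9⟩
    have e4 : (X.filter (fun y => bdp a C x (g.1 y))).card ≤ (X.filter (fun y => bdp a C x y)).card := by
      apply Finset.card_le_card_of_injOn g.1
      · intro y hy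
        rw [Finset.mem_coe, Finset.mem_filter] at hy
        exact Finset.mem_coe.2 (Finset.mem_filter.2 ⟨(hmove y hy.1).1, hy.2⟩)
      · exact g.1.injective.injOn
    rw [← hY] at e1
    omega
  obtain ⟨y, hyY, hyd⟩ : ∃ y ∈ Y, de a C y + de a C (g.1 y) < order P L * order P L - order P L := by
    by_contra hcon
    push Not at hcon
    have e1 : Y.card * (order P L * order P L - order P L) ≤
        ∑ y ∈ Y, de a C y + ∑ y ∈ Y, de a C (g.1 y) := by
      rw [← Finset.sum_add_distrib, ← smul_eq_mul, ← Finset.sum_const]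
      exact Finset.sum_le_sum hcon
    have e2 : ∑ y ∈ Y, de a C y ≤ (Dev a C).card := by
      rw [card_Dev]
      exact Finset.sum_le_sum_of_subset ((Finset.filter_subset _ _).trans (Finset.filter_subset _ _))
    have e3 : ∑ y ∈ Y, de a C (g.1 y) ≤ (Dev a C).card := by
      rw [← Finset.sum_image (f := de a C) (g := g.1) (fun _ _ _ _ h => g.1.injective h), card_Dev]
      apply Finset.sum_le_sum_of_subset
      intro z hz
      obtain ⟨y, hy, rfl⟩ := Finset.mem_image.1 hz
      exact (Finset.mem_filter.1 (hmove y (Finset.mem_filter.1 hy).1).1).1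
    have e4 : (order P L * order P L - order P L) * (order P L * order P L - order P L) ≤
        10 * (Dev a C).card := by
      calc (order P L * order P L - order P L) * (order P L * order P L - order P L)
          ≤ (Y.card + 2 * bp a C x) * (order P L * order P L - order P L) := by
            rw [← hXc]; exact Nat.mul_le_mul_right _ hYc
        _ = Y.card * (order P L * order P L - order P L) +
            2 * ((order P L * order P L - order P L) * bp a C x) := by ring
        _ ≤ _ := by omega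
    obtain ⟨k, hk⟩ : ∃ k, order P L = k + 3 := ⟨order P L - 3, by omega⟩
    rw [hk] at e4 hΔ
    have e5 : (k + 3) * (k + 3) - (k + 3) = (k + 3) * (k + 2) := by
      have : (k + 3) * (k + 3) = (k + 3) * (k + 2) + (k + 3) := by ring
      omega
    rw [e5] at e4
    nlinarith [Nat.zero_le (k ^ 2), Nat.zero_le (k ^ 3), Nat.zero_le (k ^ 4), Nat.zero_le k]
  have hyX := (Finset.mem_filter.1 hyY).1
  have hy1 := (Finset.mem_filter.1 hyY).2.1
  have hy2 := (Finset.mem_filter.1 hyY).2.2
  have hyP := (Finset.mem_filter.1 hyX).1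
  have oy := on_of hC hyP
  obtain ⟨hgX, hgdr⟩ := hmove y hyX
  obtain ⟨i, hi, hi1, hi2⟩ : ∃ i ∈ Ix a (dr a C y), fi a C y i = pv a C y ∧
      fi a C (g.1 y) (i.2, i.1) = pv a C (g.1 y) := by
    by_contra hcon
    push Not at hcon
    have e1 : (Ix a (dr a C y)).card ≤ de a C y + de a C (g.1 y) := by
      have e2 : Ix a (dr a C y) ⊆ (Ix a (dr a C y)).filter (fun i => fi a C y i ≠ pv a C y) ∪
          (Ix a (dr a C y)).filter (fun i => fi a C (g.1 y) (i.2, i.1) ≠ pv a C (g.1 y)) := by
        intro i hi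
        rw [Finset.mem_union, Finset.mem_filter, Finset.mem_filter]
        by_cases h : fi a C y i = pv a C y
        · exact Or.inr ⟨hi, hcon i hi h⟩
        · exact Or.inl ⟨hi, h⟩
      refine le_trans (Finset.card_le_card e2) (le_trans (Finset.card_union_le _ _) ?_)
      refine Nat.add_le_add le_rfl ?_
      apply Finset.card_le_card_of_injOn (fun i => (i.2, i.1))
      · intro j hj
        rw [Finset.mem_coe, Finset.mem_filter] at hj
        refine Finset.mem_coe.2 (Finset.mem_filter.2 ⟨?_, hj.2⟩)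
        rw [hgdr]
        exact (mem_Ix oy.αa).2 ((mem_Ix oy.αa).1 hj.1).swap
      · rintro ⟨s, t⟩ _ ⟨s', t'⟩ _ h
        simp only [Prod.mk.injEq] at h
        rw [h.1, h.2]
    rw [card_Ix oy.αa] at e1
    omega
  have htr := tri_of hC hyP hi
  have hback := half_back oy htr
  simp only [fi] at hi1 hi2
  rw [hgdr] at hi2
  rw [hi1, ← himg y hyX hy1, hi2, ← himg _ hgX hy2] at hback
  refine ⟨g, hg, (hg.mul hg).eq_one oy.pa oy.pC ?_, hg1⟩
  simpa using hback

/-- the disagreements -/
def dis' (a : L) (C : P) : Finset (P × (P × P) × (P × P)) :=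
  univ.filter (fun q => q.1 ∈ Pt a C ∧ q.2.1 ∈ Ix a (dr a C q.1) ∧ q.2.2 ∈ Ix a (dr a C q.1) ∧
    fi a C q.1 q.2.1 ≠ fi a C q.1 q.2.2)

theorem mem_dis' {q : P × (P × P) × (P × P)} : q ∈ dis' a C ↔ q.1 ∈ Pt a C ∧
    q.2.1 ∈ Ix a (dr a C q.1) ∧ q.2.2 ∈ Ix a (dr a C q.1) ∧
    fi a C q.1 q.2.1 ≠ fi a C q.1 q.2.2 := by simp [dis']

theorem card_dis' (hC : C ∉ a) :
    (order P L * order P L - order P L) * (Dev a C).card ≤ (dis' a C).card := by
  have h1 : (dis' a C).card = ∑ x ∈ Pt a C, ∑ i ∈ Ix a (dr a C x),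
      ((Ix a (dr a C x)).filter (fun j => fi a C x i ≠ fi a C x j)).card := by
    rw [Finset.sum_sigma', ← Finset.card_sigma]
    symm
    apply Finset.card_bij (fun (q : (_ : (_ : P) × (P × P)) × (P × P)) _ => (q.1.1, q.1.2, q.2))
    · rintro ⟨⟨x, i⟩, j⟩ h
      simp only [Finset.mem_sigma, Finset.mem_filter] at h
      exact mem_dis'.2 ⟨h.1.1, h.1.2, h.2.1, h.2.2⟩
    · rintro ⟨⟨x, i⟩, j⟩ _ ⟨⟨x', i'⟩, j'⟩ _ h
      simp only [Prod.mk.injEq] at h
      obtain ⟨rfl, h2⟩ := h
      obtain ⟨rfl, rfl⟩ := h2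
      rfl
    · rintro ⟨x, i, j⟩ h
      rw [mem_dis'] at h
      refine ⟨⟨⟨x, i⟩, j⟩, ?_, rfl⟩
      simp only [Finset.mem_sigma, Finset.mem_filter]
      exact ⟨⟨h.1, h.2.1⟩, h.2.2.1, h.2.2.2⟩
  rw [h1, card_Dev, Finset.mul_sum]
  apply Finset.sum_le_sum
  intro x hx
  rw [← card_Ix (on_of hC hx).αa, ← smul_eq_mul, ← Finset.sum_const]
  apply Finset.sum_le_sum
  intro i _
  have h2 := Finset.card_filter_add_card_filter_not (s := Ix a (dr a C x))
    (fun j => fi a C x j = fi a C x i)
  have h3 := mu_le a C x (fi a C x i)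
  have h4 := mu_add_de a C x
  have h5 : (Ix a (dr a C x)).filter (fun j => fi a C x i ≠ fi a C x j) =
      (Ix a (dr a C x)).filter (fun j => ¬ fi a C x j = fi a C x i) := by
    apply Finset.filter_congr
    intro j _
    exact ne_comm
  rw [h5]
  unfold mu at h3 h4
  omega

/-- the alternative for an axis and a centre -/
theorem alt (hodd : Odd (order P L)) (hC : C ∉ a) :
    (∃ g : Equiv.Perm P × Equiv.Perm L, IsP C a g ∧ g * g = 1 ∧ g ≠ 1) ∨
      order P L ^ 5 ≤ 15000 * (dis' a C).card := by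
  by_cases hΔ : 10000 * (Dev a C).card ≤ order P L ^ 3
  · exact Or.inl (exists_inv hodd hC hΔ)
  · right
    have hn : 3 ≤ order P L := by
      have := one_lt_order P L
      obtain ⟨m, hm⟩ := hodd
      omega
    have h1 := card_dis' hC
    push Not at hΔ
    obtain ⟨k, hk⟩ : ∃ k, order P L = k + 3 := ⟨order P L - 3, by omega⟩
    rw [hk] at h1 hΔ ⊢
    have e5 : (k + 3) * (k + 3) - (k + 3) = (k + 3) * (k + 2) := by
      have : (k + 3) * (k + 3) = (k + 3) * (k + 2) + (k + 3) := by ring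
      omega
    rw [e5] at h1
    generalize (Dev a C).card = D at h1 hΔ
    generalize (dis' a C).card = E at h1
    calc (k + 3) ^ 5 = (k + 3) ^ 2 * (k + 3) ^ 3 := by ring
      _ ≤ (k + 3) ^ 2 * (10000 * D) := Nat.mul_le_mul_left _ hΔ.le
      _ ≤ 15000 * ((k + 3) * (k + 2) * D) := by nlinarith [Nat.zero_le (k * D), Nat.zero_le (k * k * D)]
      _ ≤ 15000 * E := Nat.mul_le_mul_left _ h1

end

end Pool.Agent.U236.HG
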