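import Pool.Agent.U236.HG4

set_option autoImplicit false
set_option linter.unusedSectionVars false

/-!
# Translation lines
-/

namespace Pool.Agent.U236.HG

open Configuration Configuration.ProjectivePlane Finset
open Pool.Agent.N367.PPD
open scoped Classical

noncomputable section

variable {P L : Type} [Membership P L] [ProjectivePlane P L] [Fintype P] [Fintype L]

variable {a : L} {C : P} {g h : Equiv.Perm P × Equiv.Perm L}

/-- a translation line -/
def TL (P : Type) {L : Type} [Membership P L] [ProjectivePlane P L] (a : L) : Prop :=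
  ∀ f : P, f ∈ a → Tr f a

theorem fixC (hg : IsP C a g) : g.1 C = C := by
  by_cases hCa : C ∈ a
  · exact hg.1.2 C hCa
  · obtain ⟨l, hl, -⟩ := exists_line_off a C
    obtain ⟨y, -, hyl⟩ := exists_off (P := P) a l
    have hCy : C ≠ y := fun h3 => hyl (h3 ▸ hl)
    have hne : jn L C y ≠ l := fun h3 => hyl (h3 ▸ jn_right hCy)
    refine pt_eq hne ?_ (jn_left hCy) ?_ hl
    · rw [← hg.2 _ (jn_left hCy), hg.1.1]; exact jn_left hCy
    · rw [← hg.2 _ hl, hg.1.1]; exact hl

/-- the centre of a homology is unique -/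
theorem centre_uniq {D : P} (hg : IsP C a g) (hg' : IsP D a g) (hD : D ∉ a) (h1 : g ≠ 1) :
    C = D := by
  by_contra hCD
  exact h1 (hg.eq_one hD hCD (fixC hg'))

/-- elations with the same image of a point off the axis -/
theorem el_eq {f f' x : P} (hf : f ∈ a) (hf' : f' ∈ a) (hx : x ∉ a) (hg : IsP f a g)
    (hh : IsP f' a h) (hgh : g.1 x = h.1 x) : g = h := by
  have hfx : f ≠ x := fun h => hx (h ▸ hf)
  have hfx' : f' ≠ x := fun h => hx (h ▸ hf')
  by_cases hff : f = f'
  · subst hff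
    exact hg.eq_of hh hx hfx hgh
  · have h1 : g.1 x ∈ jn L f x := by
      rw [← hg.2 _ (jn_left hfx), hg.1.1]; exact jn_right hfx
    have h2 : g.1 x ∈ jn L f' x := by
      rw [hgh, ← hh.2 _ (jn_left hfx'), hh.1.1]; exact jn_right hfx'
    have h3 : jn L f x ≠ jn L f' x := by
      intro h4
      apply hx
      rw [← line_eq hff (jn_left hfx) (h4 ▸ jn_left hfx') hf hf']
      exact jn_right hfx
    have h4 : g.1 x = x := pt_eq h3 h1 (jn_right hfx) h2 (jn_right hfx')
    rw [hg.eq_one hx hfx h4, hh.eq_one hx hfx' (hgh ▸ h4)]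

/-- the product of two elations is an elation -/
theorem el_mul {f f' : P} (hf : f ∈ a) (hf' : f' ∈ a) (hg : IsP f a g) (hh : IsP f' a h) :
    ∃ f'', f'' ∈ a ∧ IsP f'' a (g * h) := by
  by_cases hff : f = f'
  · subst hff
    exact ⟨f, hf, hg.mul hh⟩
  · by_cases h1 : g = 1
    · rw [h1, one_mul]; exact ⟨f', hf', hh⟩
    by_cases h2 : h = 1
    · rw [h2, mul_one]; exact ⟨f, hf, hg⟩
    obtain ⟨f'', h3, h4, -, -⟩ := IsP.prod hf hf' hff hg hh h1 h2
    exact ⟨f'', h3, h4⟩

/-- the product of two involutory homologies is an elation -/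
theorem inv_mul_inv {D : P} (hCD : C ≠ D) (hD : D ∉ a) (hg : IsP C a g)
    (hh : IsP D a h) (hg2 : g * g = 1) (hh2 : h * h = 1) (hg1 : g ≠ 1) (hh1 : h ≠ 1) :
    ∃ f, f ∈ a ∧ IsP f a (g * h) := by
  obtain ⟨f, hfa, hf, -⟩ := (hg.1.mul hh.1).elation (by
    intro E hE hfix
    have he := (hg.1.mul hh.1).fixed hE hfix
    have hgi : g⁻¹ = g := inv_eq_of_mul_eq_one_left hg2
    have hhi : h⁻¹ = h := inv_eq_of_mul_eq_one_left hh2
    have h1 : IsP (g.1 E) a (g * h)⁻¹ := by
      have h2 := he.conj hg.1.1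
      rw [hg.1.ax] at h2
      have h3 : g * (g * h) * g⁻¹ = (g * h)⁻¹ := by
        rw [mul_inv_rev, hgi, hhi, ← mul_assoc, hg2, one_mul]
      rwa [h3] at h2
    have hne : g * h ≠ 1 := by
      intro h2
      have h3 : g = h := by
        rw [← hhi]; exact eq_inv_of_mul_eq_one_left h2
      subst h3
      exact hCD (centre_uniq hg hh hD hg1)
    have hne' : (g * h)⁻¹ ≠ 1 := by
      intro h2
      exact hne (inv_eq_one.1 h2)
    have h2 : g.1 E = E := centre_uniq h1 he.inv hE hne'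
    have h3 : h.1 E = E := by
      have h4 : g.1 (h.1 E) = E := by simpa using hfix
      exact g.1.injective (h4.trans h2.symm)
    have h4 : C = E := by
      by_contra hCE
      exact hg1 (hg.eq_one hE hCE h2)
    have h5 : D = E := by
      by_contra hDE
      exact hh1 (hh.eq_one hE hDE h3)
    exact hCD (h4.trans h5.symm))
  exact ⟨f, hfa, hf⟩

/-- many involutory homologies with a common axis: a translation line -/
theorem tl_of_many (A : Finset P) (hA : ∀ C ∈ A, C ∉ a ∧ ∃ g : Equiv.Perm P × Equiv.Perm L,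
    IsP C a g ∧ g * g = 1 ∧ g ≠ 1) (hc : order P L ^ 2 < 2 * A.card) : TL P a := by
  have hne : A.Nonempty := by
    apply Finset.card_pos.1
    omega
  obtain ⟨D, hD⟩ := hne
  choose! hA1 g hg hg2 hg1 using hA
  have hel : ∀ C ∈ A, ∃ f, f ∈ a ∧ IsP f a (g C * g D) := by
    intro C hC
    by_cases hCD : C = D
    · obtain ⟨p, -, -, hp, -⟩ := exists_two (P := P) a
      exact ⟨p, hp, by rw [hCD, hg2 D hD]; exact IsP.one⟩
    · obtain ⟨f, h1, h2⟩ := inv_mul_inv hCD (hA1 D hD) (hg C hC) (hg D hD) (hg2 C hC)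
        (hg2 D hD) (hg1 C hC) (hg1 D hD)
      exact ⟨f, h1, h2⟩
  have horb : ∀ x, x ∉ a → (A.image (fun C => (g C * g D).1 x)).card = A.card := by
    intro x hx
    apply Finset.card_image_of_injOn
    intro C hC C' hC' h1
    rw [Finset.mem_coe] at hC hC'
    obtain ⟨f, hf, hf2⟩ := hel C hC
    obtain ⟨f', hf', hf2'⟩ := hel C' hC'
    have h2 := mul_right_cancel (el_eq hf hf' hx hf2 hf2' h1)
    have h3 := hg C' hC'
    rw [← h2] at h3
    exact centre_uniq (hg C hC) h3 (hA1 C' hC') (hg1 C hC)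
  intro f hf x y hx hy hfx hfy hyx
  by_cases hxy : x = y
  · exact ⟨1, IsP.one, hxy⟩
  have hnd : ¬ Disjoint (A.image (fun C => (g C * g D).1 x)) (A.image (fun C => (g C * g D).1 y)) := by
    intro hd
    have h1 : A.image (fun C => (g C * g D).1 x) ∪ A.image (fun C => (g C * g D).1 y) ⊆ off a := by
      intro z hz
      rw [Finset.mem_union, Finset.mem_image, Finset.mem_image] at hz
      rw [mem_off]
      rcases hz with ⟨C, hC, rfl⟩ | ⟨C, hC, rfl⟩
      · exact ((hg C hC).1.mul (hg D hD).1).na hx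
      · exact ((hg C hC).1.mul (hg D hD).1).na hy
    have h2 := Finset.card_le_card h1
    rw [Finset.card_union_of_disjoint hd, horb x hx, horb y hy, card_off] at h2
    omega
  rw [Finset.not_disjoint_iff] at hnd
  obtain ⟨z, hz1, hz2⟩ := hnd
  obtain ⟨C, hC, hCz⟩ := Finset.mem_image.1 hz1
  obtain ⟨C', hC', hCz'⟩ := Finset.mem_image.1 hz2
  obtain ⟨f1, h1, h1'⟩ := hel C hC
  obtain ⟨f2, h2, h2'⟩ := hel C' hC'
  obtain ⟨f3, h3, h3'⟩ := el_mul h2 h1 h2'.inv h1'
  have hmap : ((g C' * g D)⁻¹ * (g C * g D)).1 x = y := by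
    rw [Prod.fst_mul, Equiv.Perm.mul_apply, Prod.fst_inv, Equiv.Perm.inv_eq_iff_eq, hCz', ← hCz]
  have hf3x : f3 ≠ x := fun h => hx (h ▸ h3)
  have h4 : y ∈ jn L f3 x := by
    rw [← hmap, ← h3'.2 _ (jn_left hf3x), h3'.1.1]
    exact jn_right hf3x
  have h5 : jn L f3 x = jn L f x := line_eq hxy (jn_right hf3x) h4 (jn_right hfx) hyx
  have h6 : f3 = f := by
    refine pt_eq (l := jn L f x) (k := a) (fun h => hx (h ▸ jn_right hfx)) ?_ (jn_left hfx) h3 hf
    rw [← h5]; exact jn_left hf3x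
  rw [h6] at h3'
  exact ⟨_, h3', hmap⟩

/-- at a translation line the half hexagons do not depend on the chosen points of the axis -/
theorem tl_ph (hT : TL P a) {x z s t : P} (hx : On a C x z) (htr : Tri a z s t)
    (hg : IsP z a g) (hgx : g.1 C = x) : ph L C x z s t = g.1⁻¹ C := by
  have o1 := on1 hx htr
  have o2 := on2 hx htr
  set y := sp L C x s t with hy
  have hCt := ne_of hx.Ca htr.ta
  have hCz := ne_of hx.Ca htr.za
  have hCs := ne_of hx.Ca htr.sa
  obtain ⟨k, hk, hky⟩ := hT t htr.ta C y hx.Ca o1.pa hCt.symm (ne_of o1.pa htr.ta).symm (by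
    rw [← eq_jn hCt.symm (jn_right hCt) (jn_left hCt)]; exact o1.mem)
  have hcom : g * k = k * g := IsP.comm htr.za htr.ta htr.zt hg hk
  have hcom' : g⁻¹ * k = k * g⁻¹ := by
    rw [inv_mul_eq_iff_eq_mul, ← mul_assoc, hcom, mul_assoc, mul_inv_cancel, mul_one]
  have hg1 : g⁻¹ ≠ 1 := by
    intro h1
    have h2 : g = 1 := inv_eq_one.1 h1
    rw [h2] at hgx
    exact hx.pC hgx
  have hk1 : k ≠ 1 := by
    intro h1
    rw [h1] at hky
    exact o1.pC hky
  have hginv := hg.inv
  -- the point `u`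
  set u := g.1⁻¹ C with hu
  have hgiC : (g⁻¹).1 C = u := rfl
  have hwk : (g⁻¹).1 y = k.1 u := by
    rw [← hky]
    have h1 := congrArg (fun e => e.1 C) hcom'
    rw [hu]
    simpa using h1
  -- the product with the centre `s`
  obtain ⟨f, hf, hf2, -, -⟩ := IsP.prod htr.ta htr.za htr.zt.symm hk hginv hk1 hg1
  have hex : (k * g⁻¹).1 x = y := by
    rw [← hgx, ← hky]
    simp
  have hfx : f ≠ x := fun h => hx.pa (h ▸ hf)
  have hxy : x ≠ y := by
    intro h1
    have h2 := o1.dr_eq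
    rw [← h1, hx.dr_eq] at h2
    exact htr.zt h2
  have hfs : f = s := by
    have h1 : y ∈ jn L f x := by
      rw [← hex, ← hf2.2 _ (jn_left hfx), hf2.1.1]
      exact jn_right hfx
    have h2 : y ∈ jn L x s := hx.sp_l htr.sa htr.ta htr.zs.symm
    have hxs := ne_of hx.pa htr.sa
    have h3 : jn L f x = jn L x s := line_eq hxy (jn_right hfx) h1 (jn_left hxs) h2
    refine pt_eq (l := jn L x s) (k := a) (jn_ne_a hx.pa htr.sa) ?_ (jn_right hxs) hf htr.sa
    rw [← h3]; exact jn_left hfx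
  rw [hfs] at hf2
  have hwC : (k * g⁻¹).1 C = k.1 u := by simp [hu]
  -- `w`
  have hyz := ne_of o1.pa htr.za
  have hw : k.1 u = sp L C y z s := by
    refine o1.sp_eq htr.za htr.sa htr.zt ?_ ?_
    · rw [← hwk, ← hginv.2 _ (jn_right hyz), hginv.1.1]
      exact jn_left hyz
    · rw [← hwC, ← hf2.2 _ (jn_right hCs), hf2.1.1]
      exact jn_left hCs
  rw [ph, ← hw]
  rw [← hw] at o2
  symm
  refine o2.sp_eq htr.ta htr.za htr.st.symm ?_ ?_
  · have h1 : u ∉ a := by
      have := hginv.1.na hx.Ca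
      rwa [hgiC] at this
    have hut := ne_of h1 htr.ta
    have h2 : k.1 u ∈ jn L u t := by
      rw [← hk.2 _ (jn_right hut), hk.1.1]
      exact jn_left hut
    have h3 : jn L u t = jn L (k.1 u) t := eq_jn (ne_of o2.pa htr.ta) h2 (jn_right hut)
    rw [← h3]
    exact jn_left hut
  · rw [← hgiC, ← hginv.2 _ (jn_right hCz), hginv.1.1]
    exact jn_left hCz

/-- at a translation line there are no disagreements -/
theorem tl_dis (hT : TL P a) (hC : C ∉ a) : dis' a C = ∅ := by
  rw [Finset.eq_empty_iff_forall_notMem]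
  intro q hq
  rw [mem_dis'] at hq
  obtain ⟨hx, h1, h2, h3⟩ := hq
  have ox := on_of hC hx
  obtain ⟨g, hg, hgx⟩ := hT (dr a C q.1) ox.αa C q.1 hC ox.pa (ne_of hC ox.αa).symm
    (ne_of ox.pa ox.αa).symm (by
      have h4 := ne_of hC ox.αa
      rw [← eq_jn h4.symm (jn_right h4) (jn_left h4)]; exact ox.mem)
  apply h3
  unfold fi
  rw [tl_ph hT ox (tri_of hC hx h1) hg hgx, tl_ph hT ox (tri_of hC hx h2) hg hgx]

theorem TL.conj (ht : TL P a) (hg : IsCol g) : TL P (g.2 a) := by
  intro f hf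
  have h1 : g.1⁻¹ f ∈ a := by
    rw [← hg (g.1⁻¹ f) a]
    simpa using hf
  have := (ht (g.1⁻¹ f) h1).conj hg
  simpa using this

theorem tl_pencil {b l : L} (ha : TL P a) (hb : TL P b) (hab : a ≠ b)
    (hl : mt P a b ∈ l) : TL P l := by
  by_cases hla : l = a
  · rw [hla]; exact ha
  set Q := mt P a b with hQ
  have hQa : Q ∈ a := mt_left hab
  have hQb : Q ∈ b := mt_right hab
  obtain ⟨c, hca, hcQ⟩ : ∃ c, c ∈ a ∧ c ≠ Q := by
    obtain ⟨p, q, hpq, hp, hq⟩ := exists_two (P := P) a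
    by_cases h1 : p = Q
    · exact ⟨q, hq, fun h2 => hpq (h1.trans h2.symm)⟩
    · exact ⟨p, hp, h1⟩
  obtain ⟨x, hxb, hxQ⟩ : ∃ x, x ∈ b ∧ x ≠ Q := by
    obtain ⟨p, q, hpq, hp, hq⟩ := exists_two (P := P) b
    by_cases h1 : p = Q
    · exact ⟨q, hq, fun h2 => hpq (h1.trans h2.symm)⟩
    · exact ⟨p, hp, h1⟩
  have hxa : x ∉ a := fun h1 => hxQ (pt_eq hab.symm hxb hQb h1 hQa)
  have hcx : c ≠ x := fun h1 => hxa (h1 ▸ hca)
  have hcxa : jn L c x ≠ a := fun h1 => hxa (h1 ▸ jn_right hcx)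
  have hcxl : jn L c x ≠ l := by
    intro h1
    exact hcQ (pt_eq hla (h1 ▸ jn_left hcx) hl hca hQa)
  set y := mt P (jn L c x) l with hy
  have hyl : y ∈ l := mt_right hcxl
  have hyc : y ∈ jn L c x := mt_left hcxl
  have hya : y ∉ a := by
    intro h1
    exact hcQ ((pt_eq hcxa (jn_left hcx) hyc hca h1).trans (pt_eq hla hyl hl h1 hQa))
  have hcy : c ≠ y := fun h1 => hya (h1 ▸ hca)
  obtain ⟨g, hg, hgx⟩ := ha c hca x y hxa hya hcx hcy hyc
  have h1 : g.2 b = l := by
    have hyQ : y ≠ Q := fun h2 => hya (h2 ▸ hQa)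
    refine line_eq hyQ ?_ ?_ hyl hl
    · rw [← hgx, hg.1.1]; exact hxb
    · rw [← hg.1.2 Q hQa, hg.1.1]; exact hQb
  rw [← h1]
  exact hb.conj hg.1.1

theorem tl_all {b d : L} (ha : TL P a) (hb : TL P b) (hd : TL P d)
    (hab : a ≠ b) (had : a ≠ d) (hne : mt P a b ≠ mt P a d) (l : L) : TL P l := by
  by_cases hla : l = a
  · rw [hla]; exact ha
  obtain ⟨R, hRl, hR⟩ : ∃ x, x ∈ l ∧ x ≠ mt P l a := by
    obtain ⟨p, q, hpq, hp, hq⟩ := exists_two (P := P) l
    by_cases h1 : p = mt P l a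
    · exact ⟨q, hq, fun h2 => hpq (h1.trans h2.symm)⟩
    · exact ⟨p, hp, h1⟩
  have hRa : R ∉ a := fun h1 => hR (eq_mt hla hRl h1)
  have h1 : R ≠ mt P a b := fun h1 => hRa (by rw [h1]; exact mt_left hab)
  have h2 : R ≠ mt P a d := fun h1 => hRa (by rw [h1]; exact mt_left had)
  have h3 := tl_pencil ha hb hab (l := jn L R (mt P a b)) (jn_right h1)
  have h4 := tl_pencil ha hd had (l := jn L R (mt P a d)) (jn_right h2)
  have h5 : jn L R (mt P a b) ≠ jn L R (mt P a d) := by
    intro h5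
    apply hRa
    rw [← line_eq hne (jn_right h1) (h5 ▸ jn_right h2) (mt_left hab) (mt_left had)]
    exact jn_left h1
  refine tl_pencil h3 h4 h5 ?_
  rw [← eq_mt h5 (jn_left h1) (jn_left h2)]
  exact hRl

theorem tl_few (hno : ¬ ∃ a b d : L, TL P a ∧ TL P b ∧ TL P d ∧ a ≠ b ∧
    a ≠ d ∧ mt P a b ≠ mt P a d) :
    order P L ^ 2 ≤ ((univ : Finset L).filter (fun a => ¬ TL P a)).card := by
  have h1 := Finset.card_filter_add_card_filter_not (s := (univ : Finset L))
    (fun a => TL P a)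
  rw [Finset.card_univ, card_lines P L] at h1
  have h2 : ((univ : Finset L).filter (fun a => TL P a)).card ≤ order P L + 1 := by
    by_contra hcon
    push Not at hcon
    obtain ⟨a, ha, b, hb, hab⟩ := Finset.one_lt_card.1
      (lt_trans (by have := one_lt_order P L; omega : 1 < order P L + 1) hcon)
    rw [Finset.mem_filter] at ha hb
    apply hcon.not_ge
    have h3 : (univ : Finset L).filter (fun a => TL P a) ⊆ lns (mt P a b) := by
      intro d hd
      rw [Finset.mem_filter] at hd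
      rw [mem_lns]
      by_cases had : a = d
      · rw [← had]; exact mt_left hab
      by_contra hmd
      apply hno
      refine ⟨a, b, d, ha.2, hb.2, hd.2, hab, had, ?_⟩
      intro h4
      apply hmd
      rw [h4]; exact mt_right had
    have h4 := Finset.card_le_card h3
    rwa [card_lns] at h4
  omega

theorem tl_primePow (hT : TL P a) : IsPrimePow (order P L) := by
  obtain ⟨p, q, hpq, hp, hq⟩ := exists_two (P := P) a
  exact primePow hp hq hpq (hT p hp) (hT q hq)

end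

end Pool.Agent.U236.HG
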