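import Mathlib

open Function Set Topology

namespace U236.Orbit

variable {X : Type*}

/-- first `n` letters of `ξ`, followed by `η` -/
def splice (ξ : ℕ → X) (n : ℕ) (η : ℕ → X) : ℕ → X := fun i => if i < n then ξ i else η (i - n)

/-- the section (state) of `g` at the vertex given by the first `n` letters of `ξ` -/
def sec (g : (ℕ → X) → (ℕ → X)) (ξ : ℕ → X) (n : ℕ) (η : ℕ → X) : ℕ → X :=
  fun i => g (splice ξ n η) (n + i)

/-- `g` preserves common prefixes -/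
def PP (g : (ℕ → X) → (ℕ → X)) : Prop :=
  ∀ ξ ζ n, (∀ i < n, ξ i = ζ i) → ∀ i < n, g ξ i = g ζ i

lemma splice_lt {ξ η : ℕ → X} {n i : ℕ} (h : i < n) : splice ξ n η i = ξ i := by
  simp [splice, h]

lemma splice_add {ξ η : ℕ → X} {n i : ℕ} : splice ξ n η (n + i) = η i := by
  simp [splice]

lemma splice_tail (ξ : ℕ → X) (n : ℕ) : splice ξ n (fun i => ξ (n + i)) = ξ := by
  funext i
  by_cases h : i < n
  · simp [splice, h]
  · simp [splice, h]
    congr 1; omega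

lemma splice_congr {ξ ζ : ℕ → X} {n : ℕ} (h : ∀ i < n, ξ i = ζ i) (η : ℕ → X) :
    splice ξ n η = splice ζ n η := by
  funext i
  by_cases h' : i < n
  · simp [splice, h', h i h']
  · simp [splice, h']

lemma splice_zero (ξ η : ℕ → X) : splice ξ 0 η = η := by
  funext i; simp [splice]

lemma PP.map_splice {g : (ℕ → X) → (ℕ → X)} (hg : PP g) (ξ : ℕ → X) (n : ℕ) (η : ℕ → X) :
    g (splice ξ n η) = splice (g ξ) n (sec g ξ n η) := by
  funext i
  by_cases h : i < n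
  · rw [splice_lt h]
    exact hg _ _ n (fun j hj => splice_lt hj) i h
  · obtain ⟨j, rfl⟩ : ∃ j, i = n + j := ⟨i - n, by omega⟩
    rw [splice_add]; rfl

lemma sec_comp {g h : (ℕ → X) → (ℕ → X)} (hh : PP h) (ξ : ℕ → X) (n : ℕ) :
    sec (g ∘ h) ξ n = sec g (h ξ) n ∘ sec h ξ n := by
  funext η i
  simp only [sec, comp_apply]
  rw [hh.map_splice]

lemma sec_congr {g : (ℕ → X) → (ℕ → X)} {ξ ζ : ℕ → X} {n : ℕ} (h : ∀ i < n, ξ i = ζ i) :
    sec g ξ n = sec g ζ n := by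
  funext η i
  simp only [sec]
  rw [splice_congr h]

lemma sec_id (ξ : ℕ → X) (n : ℕ) : sec id ξ n = (id : (ℕ → X) → (ℕ → X)) := by
  funext η i
  simp [sec, splice_add]

lemma PP.comp {g h : (ℕ → X) → (ℕ → X)} (hg : PP g) (hh : PP h) : PP (g ∘ h) := by
  intro ξ ζ n hn i hi
  exact hg _ _ n (hh ξ ζ n hn) i hi

lemma PP_id : PP (id : (ℕ → X) → (ℕ → X)) := fun _ _ _ h i hi => h i hi

/-- the homomorphisms from a finitely generated group to a finite group are finite in number -/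
lemma finite_hom {G : Type*} [Group G] (hG : Group.FG G) (F : Type*) [Group F] [Finite F] :
    Finite (G →* F) := by
  obtain ⟨S, hS⟩ := hG.out
  refine Finite.of_injective (fun φ : G →* F => fun s : S => φ s) ?_
  intro φ ψ h
  refine MonoidHom.eq_of_eqOn_dense hS ?_
  intro s hs
  exact congrFun h ⟨s, hs⟩

/-- the common kernel of all the actions on `Fin m`, `m ≤ n` -/
def core (G : Type*) [Group G] (n : ℕ) : Subgroup G :=
  ⨅ m : Fin (n + 1), ⨅ φ : G →* Equiv.Perm (Fin m), φ.ker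

lemma core_finiteIndex {G : Type*} [Group G] (hG : Group.FG G) (n : ℕ) :
    (core G n).FiniteIndex := by
  unfold core
  refine Subgroup.finiteIndex_iInf fun m => ?_
  have := finite_hom hG (Equiv.Perm (Fin m))
  exact Subgroup.finiteIndex_iInf fun φ => inferInstance

lemma core_fixes {G Y : Type*} [Group G] [MulAction G Y] (y : Y)
    (hy : (MulAction.orbit G y).Finite) : ∃ n, ∀ g ∈ core G n, g • y = y := by
  have : Finite (MulAction.orbit G y) := hy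
  obtain ⟨m, ⟨e⟩⟩ := Finite.exists_equiv_fin (MulAction.orbit G y)
  refine ⟨m, fun g hg => ?_⟩
  let φ : G →* Equiv.Perm (Fin m) :=
    (e.permCongrHom.toMonoidHom).comp (MulAction.toPermHom G (MulAction.orbit G y))
  have h1 : g ∈ φ.ker := by
    have := (Subgroup.mem_iInf.mp hg) ⟨m, by omega⟩
    exact (Subgroup.mem_iInf.mp this) φ
  have h2 : MulAction.toPermHom G (MulAction.orbit G y) g = 1 := by
    have h3 : e.permCongrHom (MulAction.toPermHom G (MulAction.orbit G y) g) = 1 := h1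
    exact (MulEquiv.map_eq_one_iff e.permCongrHom).mp h3
  have h3 := congrFun (congrArg (fun f : Equiv.Perm (MulAction.orbit G y) => (f : _ → _)) h2)
    ⟨y, MulAction.mem_orbit_self y⟩
  have h4 := congrArg Subtype.val h3
  simpa using h4


section main

variable [Finite X] (G : Subgroup (Equiv.Perm (ℕ → X)))

/-- some finite-index subgroup of `G` fixes all points of `s` -/
def Bd (s : Set (ℕ → X)) : Prop :=
  ∃ K : Subgroup G, K.FiniteIndex ∧ ∀ k ∈ K, ∀ ζ ∈ s, (k : Equiv.Perm (ℕ → X)) ζ = ζ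

/-- the set of points all of whose cylinders are unbounded -/
def ZZ : Set (ℕ → X) := {ξ | ∀ n, ¬ Bd G (PiNat.cylinder ξ n)}

omit [Finite X] in
lemma Bd.mono {G : Subgroup (Equiv.Perm (ℕ → X))} {s t : Set (ℕ → X)} (hst : s ⊆ t)
    (h : Bd G t) : Bd G s := by
  obtain ⟨K, h1, h2⟩ := h
  exact ⟨K, h1, fun k hk ζ hζ => h2 k hk ζ (hst hζ)⟩

omit [Finite X] in
lemma Bd.union {G : Subgroup (Equiv.Perm (ℕ → X))} {s t : Set (ℕ → X)}
    (h : Bd G s) (h' : Bd G t) : Bd G (s ∪ t) := by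
  obtain ⟨K, h1, h2⟩ := h
  obtain ⟨K', h1', h2'⟩ := h'
  refine ⟨K ⊓ K', inferInstance, ?_⟩
  rintro k ⟨hk, hk'⟩ ζ (hζ | hζ)
  · exact h2 k hk ζ hζ
  · exact h2' k hk' ζ hζ

omit [Finite X] in
lemma Bd.empty : Bd G ∅ := ⟨⊤, inferInstance, by simp⟩

omit [Finite X] in
lemma cylinder_nhds (ξ : ℕ → X) (n : ℕ) [TopologicalSpace X] [DiscreteTopology X] :
    PiNat.cylinder ξ n ∈ 𝓝 ξ :=
  (PiNat.isOpen_cylinder _ ξ n).mem_nhds (PiNat.self_mem_cylinder ξ n)

lemma exists_mem_ZZ {ζ : ℕ → X} {m : ℕ} (h : ¬ Bd G (PiNat.cylinder ζ m)) :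
    ∃ ξ ∈ ZZ G, ξ ∈ PiNat.cylinder ζ m := by
  let _ : TopologicalSpace X := ⊥
  have : DiscreteTopology X := ⟨rfl⟩
  by_contra hcon
  push Not at hcon
  apply h
  have hcomp : IsCompact (PiNat.cylinder ζ m) := by
    have : IsClosed (PiNat.cylinder ζ m) := by
      rw [PiNat.cylinder_eq_pi]
      exact isClosed_set_pi fun i _ => isClosed_discrete _
    exact this.isCompact
  refine hcomp.induction_on (p := fun s => Bd G s) (Bd.empty G) (fun s t hst ht => Bd.mono hst ht)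
    (fun s t hs ht => Bd.union hs ht) ?_
  intro ξ hξ
  have h1 : ξ ∉ ZZ G := fun h2 => hcon ξ h2 hξ
  simp only [ZZ, mem_ofPred_eq, not_forall, not_not] at h1
  obtain ⟨n, hn⟩ := h1
  exact ⟨PiNat.cylinder ξ n, mem_nhdsWithin_of_mem_nhds (cylinder_nhds ξ n), hn⟩

omit [Finite X] in
lemma isClosed_ZZ [TopologicalSpace X] [DiscreteTopology X] : IsClosed (ZZ G) := by
  rw [← isOpen_compl_iff, isOpen_iff_mem_nhds]
  intro ξ hξ
  simp only [ZZ, mem_compl_iff, mem_ofPred_eq, not_forall, not_not] at hξ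
  obtain ⟨n, hn⟩ := hξ
  refine Filter.mem_of_superset (cylinder_nhds ξ n) ?_
  intro ζ hζ hζ'
  refine hζ' n ?_
  rwa [PiNat.mem_cylinder_iff_eq.mp hζ]

omit [Finite X] in
lemma isClosed_fix [TopologicalSpace X] [DiscreteTopology X]
    (hPP : ∀ g ∈ G, PP (g : Equiv.Perm (ℕ → X))) (H : Subgroup G) :
    IsClosed {ζ : ℕ → X | ∀ k ∈ H, (k : Equiv.Perm (ℕ → X)) ζ = ζ} := by
  rw [← isOpen_compl_iff, isOpen_iff_mem_nhds]
  intro ξ hξ
  simp only [mem_compl_iff, mem_ofPred_eq, not_forall] at hξ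
  obtain ⟨k, hk, hne⟩ := hξ
  obtain ⟨i, hi⟩ := Function.ne_iff.mp hne
  refine Filter.mem_of_superset (cylinder_nhds ξ (i+1)) ?_
  intro ζ hζ hζ'
  have h1 := hζ' k hk
  apply hi
  have h2 : ∀ j < i + 1, ζ j = ξ j := hζ
  have h3 := hPP k.1 k.2 ζ ξ (i+1) h2 i (by omega)
  rw [← h3, h1]
  exact h2 i (by omega)

/-- the key step -/
lemma key (hPP : ∀ g ∈ G, PP (g : Equiv.Perm (ℕ → X)))
    (hFin : ∀ g ∈ G, (Set.range fun p : (ℕ → X) × ℕ => sec (g : Equiv.Perm (ℕ → X)) p.1 p.2).Finite)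
    (hFG : Group.FG G) (horb : ∀ ξ : ℕ → X, (MulAction.orbit G ξ).Finite) :
    Bd G univ := by
  let _ : TopologicalSpace X := ⊥
  have : DiscreteTopology X := ⟨rfl⟩
  by_contra huniv
  -- the unbounded set is nonempty
  have hX : Nonempty (ℕ → X) := by
    by_contra hne
    rw [not_nonempty_iff] at hne
    exact huniv ⟨⊤, inferInstance, fun k _ ζ _ => (hne.false ζ).elim⟩
  obtain ⟨ζ0⟩ := hX
  obtain ⟨ξ0, hξ0, -⟩ := exists_mem_ZZ G (ζ := ζ0) (m := 0) (by rwa [PiNat.cylinder_zero])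
  have hclosed := isClosed_ZZ G
  have : CompactSpace (ZZ G) := isCompact_iff_compactSpace.mp hclosed.isCompact
  have : Nonempty (ZZ G) := ⟨⟨ξ0, hξ0⟩⟩
  -- Baire
  let O : ℕ → Set (ZZ G) := fun n => {ζ | ∀ k ∈ core G n, (k : Equiv.Perm (ℕ → X)) ζ.1 = ζ.1}
  have hO : ∀ n, IsClosed (O n) := fun n =>
    (isClosed_fix G hPP (core G n)).preimage continuous_subtype_val
  have hU : ⋃ n, O n = univ := by
    rw [eq_univ_iff_forall]
    intro ζ
    obtain ⟨n, hn⟩ := core_fixes (G := G) ζ.1 (horb ζ.1)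
    exact mem_iUnion.mpr ⟨n, fun k hk => hn k hk⟩
  obtain ⟨n, hn⟩ := nonempty_interior_of_iUnion_of_closed hO hU
  obtain ⟨⟨ξ, hξ⟩, hξi⟩ := hn
  have hcyl : ∃ k, ∀ ζ ∈ PiNat.cylinder ξ k, ζ ∈ ZZ G → ∀ g ∈ core G n,
      (g : Equiv.Perm (ℕ → X)) ζ = ζ := by
    have h1 : O n ∈ 𝓝 (⟨ξ, hξ⟩ : ZZ G) := mem_interior_iff_mem_nhds.mp hξi
    rw [nhds_subtype_eq_comap] at h1
    obtain ⟨t, ht, hts⟩ := Filter.mem_comap.mp h1
    obtain ⟨s, ⟨y, k, rfl⟩, hs1, hs2⟩ :=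
      (PiNat.isTopologicalBasis_cylinders (fun _ : ℕ => X)).mem_nhds_iff.mp ht
    refine ⟨k, fun ζ hζ hζZ g hg => ?_⟩
    rw [PiNat.mem_cylinder_iff_eq.mp hs1] at hζ
    exact hts (show (⟨ζ, hζZ⟩ : ZZ G) ∈ Subtype.val ⁻¹' t from hs2 hζ) g hg
  obtain ⟨k, hk⟩ := hcyl
  set H := core G n with hH
  have : H.FiniteIndex := core_finiteIndex hFG n
  have hHFG : Group.FG H := Subgroup.fg_of_index_ne_zero H
  obtain ⟨S, hS⟩ := (Group.fg_iff_subgroup_fg H).mp hHFG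
  -- nodes
  let Node : (ℕ → X) → ℕ → Prop := fun ζ m =>
    ¬ Bd G (PiNat.cylinder ζ m) ∧ k ≤ m ∧ ζ ∈ PiNat.cylinder ξ k
  have hfixnode : ∀ ζ m, Node ζ m → ∀ h ∈ H, ∀ i < m, (h : Equiv.Perm (ℕ → X)) ζ i = ζ i := by
    rintro ζ m ⟨h1, h2, h3⟩ h hh i hi
    obtain ⟨ζ', hζ', hm⟩ := exists_mem_ZZ G h1
    have h4 : ζ' ∈ PiNat.cylinder ξ k := by
      intro j hj
      rw [hm j (by omega)]; exact h3 j hj
    have h5 := hk ζ' h4 hζ' h hh
    have h6 := hPP h.1 h.2 ζ' ζ m hm i hi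
    rw [← h6, h5]; exact hm i hi
  have hsecmul : ∀ ζ m, Node ζ m → ∀ g ∈ H, ∀ h ∈ H,
      sec ((g * h : G) : Equiv.Perm (ℕ → X)) ζ m =
        sec (g : Equiv.Perm (ℕ → X)) ζ m ∘ sec (h : Equiv.Perm (ℕ → X)) ζ m := by
    intro ζ m hN g hg h hh
    have h1 := sec_comp (g := (g : Equiv.Perm (ℕ → X))) (hPP h.1 h.2) ζ m
    have h2 : ((g * h : G) : Equiv.Perm (ℕ → X)) =
      ((g : Equiv.Perm (ℕ → X)) : (ℕ → X) → (ℕ → X)) ∘ ((h : Equiv.Perm (ℕ → X)) : _ → _) := rfl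
    rw [h2, h1, sec_congr (hfixnode ζ m hN h hh)]
  have hsecone : ∀ ζ m, sec (((1 : G) : Equiv.Perm (ℕ → X)) : (ℕ → X) → (ℕ → X)) ζ m = id :=
    fun ζ m => sec_id ζ m
  -- classes
  let cls : (ℕ → X) × ℕ → (S → ((ℕ → X) → (ℕ → X))) := fun p s =>
    sec ((s : G) : Equiv.Perm (ℕ → X)) p.1 p.2
  have hclsfin : (Set.range cls).Finite := by
    refine Set.Finite.subset (Set.Finite.pi' (t := fun s : S =>
      Set.range fun p : (ℕ → X) × ℕ => sec ((s : G) : Equiv.Perm (ℕ → X)) p.1 p.2)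
      (fun s => hFin _ (s : G).2)) ?_
    rintro _ ⟨p, rfl⟩ s
    exact ⟨p, rfl⟩
  have : Finite (Set.range cls) := hclsfin
  have hclseq : ∀ ζ m ζ' m', Node ζ m → Node ζ' m' → cls (ζ, m) = cls (ζ', m') → ∀ h ∈ H,
      sec (h : Equiv.Perm (ℕ → X)) ζ m = sec (h : Equiv.Perm (ℕ → X)) ζ' m' := by
    intro ζ m ζ' m' hN hN' hc h hh
    rw [← hS] at hh
    induction hh using Subgroup.closure_induction with
    | mem x hx => exact congrFun hc ⟨x, hx⟩
    | one => rw [hsecone, hsecone]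
    | mul x y hx hy ihx ihy =>
      rw [hS] at hx hy
      rw [hsecmul ζ m hN x hx y hy, hsecmul ζ' m' hN' x hx y hy, ihx, ihy]
    | inv x hx ih =>
      rw [hS] at hx
      have hx' : x⁻¹ ∈ H := inv_mem hx
      have e1 := hsecmul ζ m hN x⁻¹ hx' x hx
      have e2 := hsecmul ζ' m' hN' x hx x⁻¹ hx'
      rw [inv_mul_cancel, hsecone] at e1
      rw [mul_inv_cancel, hsecone] at e2
      calc sec ((x⁻¹ : G) : Equiv.Perm (ℕ → X)) ζ m
          = sec ((x⁻¹ : G) : Equiv.Perm (ℕ → X)) ζ m ∘ id := rfl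
        _ = sec ((x⁻¹ : G) : Equiv.Perm (ℕ → X)) ζ m ∘
            (sec (x : Equiv.Perm (ℕ → X)) ζ' m' ∘ sec ((x⁻¹ : G) : Equiv.Perm (ℕ → X)) ζ' m') := by
              rw [← e2]
        _ = (sec ((x⁻¹ : G) : Equiv.Perm (ℕ → X)) ζ m ∘ sec (x : Equiv.Perm (ℕ → X)) ζ m) ∘
             sec ((x⁻¹ : G) : Equiv.Perm (ℕ → X)) ζ' m' := by rw [ih]; rfl
        _ = _ := by rw [← e1]; rfl
  -- choose the subgroups
  have hchoose : ∀ (c : Set.range cls) (x : X), ∃ K : Subgroup G, K.FiniteIndex ∧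
      ∀ ζ m, Node ζ m → cls (ζ, m) = c → (∃ K' : Subgroup G, K'.FiniteIndex ∧
        ∀ h ∈ K', h ∈ H → ∀ η : ℕ → X, η 0 = x → sec (h : Equiv.Perm (ℕ → X)) ζ m η = η) →
        ∀ h ∈ K, h ∈ H → ∀ η : ℕ → X, η 0 = x → sec (h : Equiv.Perm (ℕ → X)) ζ m η = η := by
    intro c x
    by_cases hex : ∃ ζ m, Node ζ m ∧ cls (ζ, m) = c ∧ ∃ K' : Subgroup G, K'.FiniteIndex ∧
        ∀ h ∈ K', h ∈ H → ∀ η : ℕ → X, η 0 = x → sec (h : Equiv.Perm (ℕ → X)) ζ m η = η
    · obtain ⟨ζ', m', hN', hc', K', hK', hw⟩ := hex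
      refine ⟨K', hK', ?_⟩
      intro ζ m hN hc _ h hh hhH η hη
      rw [hclseq ζ m ζ' m' hN hN' (hc.trans hc'.symm) h hhH]
      exact hw h hh hhH η hη
    · refine ⟨⊤, inferInstance, ?_⟩
      intro ζ m hN hc hw
      exact (hex ⟨ζ, m, hN, hc, hw⟩).elim
  choose K hKfin hKw using hchoose
  refine hξ k ⟨H ⊓ ⨅ c, ⨅ x, K c x, ?_, ?_⟩
  · have : (⨅ c, ⨅ x, K c x).FiniteIndex :=
      Subgroup.finiteIndex_iInf fun c => Subgroup.finiteIndex_iInf fun x => hKfin c x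
    infer_instance
  · rintro g ⟨hgH, hgK⟩ ζ hζ
    by_cases hζZ : ζ ∈ ZZ G
    · exact hk ζ hζ hζZ g hgH
    simp only [ZZ, mem_ofPred_eq, not_forall, not_not] at hζZ
    classical
    have hmin := Nat.find_spec hζZ
    have hlt : ∀ j < Nat.find hζZ, ¬ Bd G (PiNat.cylinder ζ j) := fun j hj => Nat.find_min hζZ hj
    set m := Nat.find hζZ with hm
    have hkm : k < m := by
      by_contra hcon
      have h1 : Bd G (PiNat.cylinder ζ k) := by
        exact Bd.mono (PiNat.cylinder_anti ζ (by omega : m ≤ k)) hmin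
      rw [PiNat.mem_cylinder_iff_eq.mp hζ] at h1
      exact hξ k h1
    obtain ⟨m', rfl' : m = m' + 1⟩ : ∃ m', m = m' + 1 := ⟨m - 1, by omega⟩
    have hN : Node ζ m' := ⟨hlt m' (by omega), by omega, hζ⟩
    have hw := hKw ⟨cls (ζ, m'), ⟨_, rfl⟩⟩ (ζ m') ζ m' hN rfl (by
      obtain ⟨K', hK', hfix⟩ := hmin
      refine ⟨K', hK', ?_⟩
      intro h hh hhH η hη
      have hmem : splice ζ m' η ∈ PiNat.cylinder ζ m := by
        intro j hj
        by_cases hj' : j < m'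
        · exact splice_lt hj'
        · have h0 : j = m' := by omega
          rw [h0]
          simp [splice, hη]
      funext i
      have h1 := hfix h hh _ hmem
      simp only [sec]
      rw [h1, splice_add]) g
      ((Subgroup.mem_iInf.mp ((Subgroup.mem_iInf.mp hgK) _)) _) hgH (fun i => ζ (m' + i)) (by simp)
    calc (g : Equiv.Perm (ℕ → X)) ζ
        = (g : Equiv.Perm (ℕ → X)) (splice ζ m' (fun i => ζ (m' + i))) := by rw [splice_tail]
      _ = splice ((g : Equiv.Perm (ℕ → X)) ζ) m'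
            (sec (g : Equiv.Perm (ℕ → X)) ζ m' (fun i => ζ (m' + i))) :=
          (hPP g.1 g.2).map_splice _ _ _
      _ = splice ζ m' (fun i => ζ (m' + i)) := by
          rw [hw]
          exact splice_congr (hfixnode ζ m' hN g hgH) _
      _ = ζ := splice_tail ζ m'

/-- finitely generated groups of finite-state tree automorphisms with finite boundary orbits
are finite -/
theorem finite_of_orbits (hPP : ∀ g ∈ G, PP (g : Equiv.Perm (ℕ → X)))
    (hFin : ∀ g ∈ G, (Set.range fun p : (ℕ → X) × ℕ => sec (g : Equiv.Perm (ℕ → X)) p.1 p.2).Finite)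
    (hFG : Group.FG G) (horb : ∀ ξ : ℕ → X, (MulAction.orbit G ξ).Finite) :
    Finite G := by
  obtain ⟨K, hK, hfix⟩ := key G hPP hFin hFG horb
  have hbot : K = ⊥ := by
    rw [Subgroup.eq_bot_iff_forall]
    intro k hk
    ext ζ : 2
    exact hfix k hk ζ (mem_univ _)
  subst hbot
  have h1 := hK.index_ne_zero
  rw [Subgroup.index_bot] at h1
  exact Nat.finite_of_card_ne_zero h1

end main

end U236.Orbit
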